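import Pool.Agent.MOM.Hal.WWl
import Pool.Agent.MOM.NT.BT
import Pool.Agent.MOM.Rec.Cells

/-!
MOM, HAL part 9d: averaging over cells of primes (black boxes: `DD_lip`, `brun_titchmarsh`).

The set `WH H e1 Y` consists of the primes in the cells `v`, `v0 ≤ v < v1`, `v0 = ⌈H e1² Y⌉₊`,
`v1 = ⌊H e1 Y⌋₊`.

PROOF of `DD_avg`. Let `p ∈ cell H v`, `v0 ≤ v < v1`, and `u ∈ [v/H, (v+1)/H]`. `|log p - u| ≤ 1/H
≤ 1`; `y - u` and `y - log p` are `≥ Y/2 - e1 Y ≥ Y/4` (`(v+1)/H ≤ v1/H ≤ e1 Y`), so by `DD_lip`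
`‖DD(y - log p)‖ ≤ ‖DD(y - u)‖ + 4/H + 2e^{-Y/4} ≤ ‖DD(y-u)‖ + 5/H` for `Y` large. Average over `u`
in
this interval of length `1/H`: `‖DD(y - log p)‖ ≤ H ∫_{v/H}^{(v+1)/H} ‖DD(y-u)‖ du + 5/H`. Sum over
`p`
in the cell with the weight `1/p`, use `qs (cell H v) ≤ C/v ≤ C/(H e1² Y)` (`brun_titchmarsh`,
`v ≥ v0 ≥ u0(H)` for `Y` large): `≤ (C/(e1² Y)) ∫_{v/H}^{(v+1)/H} ‖DD(y-u)‖ du + qs (cell H v) 5/H`.
Sum
over `v` (the cells are disjoint, `WH` is their union; `qs` is additive):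
`∑_v ∫_{v/H}^{(v+1)/H} = ∫_{v0/H}^{v1/H} ‖DD(y-u)‖ du = ∫_{y-v1/H}^{y-v0/H} ‖DD‖ ≤ ∫_{Y/8}^{Y}
‖DD‖`
(`intervalIntegral.sum_integral_adjacent_intervals_Ico`; `y - v1/H ≥ Y/4`, `y - v0/H ≤ Y`; if `v1 ≤
v0` the set `WH` is empty and everything is trivial).
-/

set_option autoImplicit false

namespace Pool.Agent.MOM

open Finset MeasureTheory

private theorem avg_int {lam : ℝ} (hl : 1 < lam) (hl2 : lam ≤ 2) {f : ℕ → ℂ}
    (hf : ∀ n, ‖f n‖ ≤ 1) (t : ℝ) {a b : ℝ} (ha : 0 ≤ a) (hab : a ≤ b) :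
    IntervalIntegrable (fun u => ‖DD lam f t u‖) volume a b := by
  rw [intervalIntegrable_iff_integrableOn_Icc_of_le hab]
  refine Measure.integrableOn_of_bounded (M := 2) ?_
    (measurable_DD lam f t).norm.aestronglyMeasurable ?_
  · exact (isCompact_Icc (a := a) (b := b)).measure_lt_top.ne
  · refine (ae_restrict_mem measurableSet_Icc).mono fun u hu => ?_
    rw [norm_norm]
    exact norm_DD_le hl hl2 hf t (ha.trans hu.1)

private theorem avg_int' {lam : ℝ} (hl : 1 < lam) (hl2 : lam ≤ 2) {f : ℕ → ℂ}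
    (hf : ∀ n, ‖f n‖ ≤ 1) (t y : ℝ) {a b : ℝ} (hb : b ≤ y) (hab : a ≤ b) :
    IntervalIntegrable (fun u => ‖DD lam f t (y - u)‖) volume a b := by
  rw [intervalIntegrable_iff_integrableOn_Icc_of_le hab]
  refine Measure.integrableOn_of_bounded (M := 2) ?_
    ((measurable_DD lam f t).comp (measurable_const.sub measurable_id)).norm.aestronglyMeasurable ?_
  · exact (isCompact_Icc (a := a) (b := b)).measure_lt_top.ne
  · refine (ae_restrict_mem measurableSet_Icc).mono fun u hu => ?_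
    rw [norm_norm]
    exact norm_DD_le hl hl2 hf t (by linarith [hu.2])

/-- two values at distance at most `1/H` -/
private theorem avg_close {lam : ℝ} (hl : 1 < lam) (hl2 : lam ≤ 2) {f : ℕ → ℂ}
    (hf : ∀ n, ‖f n‖ ≤ 1) (t : ℝ) {H : ℕ} (hH : 1 ≤ H) {Y : ℝ}
    (hY : 4 * Real.log (2 * H) ≤ Y) {a b : ℝ} (ha : Y / 4 ≤ a) (hb : Y / 4 ≤ b)
    (hab : |a - b| ≤ 1 / H) : ‖DD lam f t a‖ ≤ ‖DD lam f t b‖ + 5 / H := by
  have hH0 : (0 : ℝ) < H := by exact_mod_cast hH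
  have hH1 : 1 / (H : ℝ) ≤ 1 := by
    rw [div_le_one hH0]
    exact_mod_cast hH
  have hexp : ∀ z : ℝ, Y / 4 ≤ z → 2 * Real.exp (-z) ≤ 1 / H := by
    intro z hz
    have h1 : Real.exp (-z) ≤ Real.exp (-Real.log (2 * H)) := Real.exp_le_exp.2 (by linarith)
    rw [Real.exp_neg (Real.log (2 * H)), Real.exp_log (by positivity)] at h1
    calc 2 * Real.exp (-z) ≤ 2 * (2 * (H : ℝ))⁻¹ := by linarith
      _ = 1 / H := by field_simp
  have h5 : (5 : ℝ) / H = 4 * (1 / H) + 1 / H := by ring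
  obtain ⟨h1, h2⟩ := abs_le.1 hab
  rcases le_total b a with h | h
  · have h3 := DD_lip hl hl2 hf t h (by linarith)
    have h4 := norm_sub_norm_le (DD lam f t a) (DD lam f t b)
    have h6 := hexp b hb
    rw [h5]
    linarith
  · have h3 := DD_lip hl hl2 hf t h (by linarith)
    rw [norm_sub_rev] at h3
    have h4 := norm_sub_norm_le (DD lam f t a) (DD lam f t b)
    have h6 := hexp a ha
    rw [h5]
    linarith

theorem DD_avg : ∃ C : ℝ, 0 < C ∧ ∀ H : ℕ, 1 ≤ H → ∀ e1 : ℝ, 0 < e1 → e1 ≤ 1 / 4 →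
    ∃ Y0 : ℝ, 1 ≤ Y0 ∧ ∀ Y : ℝ, Y0 ≤ Y → ∀ lam : ℝ, 1 < lam → lam ≤ 2 → ∀ f : ℕ → ℂ,
      (∀ n, ‖f n‖ ≤ 1) → ∀ t y : ℝ, Y / 2 ≤ y → y ≤ Y →
        ∑ p ∈ WH H e1 Y, 1 / (p : ℝ) * ‖DD lam f t (y - Real.log p)‖ ≤
          C / (e1 ^ 2 * Y) * (∫ u in (Y / 8)..Y, ‖DD lam f t u‖) +
            qs (WH H e1 Y) * (5 / H) := by
  obtain ⟨C, hC, hbt⟩ := brun_titchmarsh
  refine ⟨C, hC, fun H hH e1 he he1 => ?_⟩
  obtain ⟨u0, hu0⟩ := hbt H hH
  have hH0 : (0 : ℝ) < H := by exact_mod_cast hH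
  have hH1 : (1 : ℝ) ≤ H := by exact_mod_cast hH
  refine ⟨max 1 (max (4 * Real.log (2 * H)) (u0 / e1 ^ 2)), le_max_left _ _, ?_⟩
  intro Y hY lam hl hl2 f hf t y hy1 hy2
  have hY1 : 1 ≤ Y := (le_max_left _ _).trans hY
  have hY2 : 4 * Real.log (2 * H) ≤ Y := (le_max_left _ _).trans ((le_max_right _ _).trans hY)
  have hY3 : u0 / e1 ^ 2 ≤ Y := (le_max_right _ _).trans ((le_max_right _ _).trans hY)
  have hY0 : 0 < Y := by linarith
  set v0 : ℕ := ⌈(H : ℝ) * (e1 ^ 2 * Y)⌉₊ with hv0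
  set v1 : ℕ := ⌊(H : ℝ) * (e1 * Y)⌋₊ with hv1
  have hI0 : 0 ≤ ∫ u in (Y / 8)..Y, ‖DD lam f t u‖ :=
    intervalIntegral.integral_nonneg (by linarith) fun u _ => norm_nonneg _
  have hWW : WH H e1 Y = prs (Real.exp ((v0 : ℝ) / H)) (Real.exp ((v1 : ℝ) / H)) := rfl
  rcases lt_or_ge v1 v0 with h01 | h01
  · have hemp : WH H e1 Y = ∅ := by
      refine Finset.eq_empty_of_forall_notMem fun p hp => ?_
      rw [hWW, mem_prs] at hp
      have h1 : Real.exp ((v1 : ℝ) / H) ≤ Real.exp ((v0 : ℝ) / H) := by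
        refine Real.exp_le_exp.2 (div_le_div_of_nonneg_right ?_ hH0.le)
        exact_mod_cast h01.le
      linarith [hp.1.1, hp.1.2]
    rw [hemp, Finset.sum_empty]
    have h1 : qs ∅ = 0 := Finset.sum_empty
    rw [h1, zero_mul, add_zero]
    positivity
  have hQ : WH H e1 Y = QQ H v0 v1 := by
    rw [hWW, QQ_eq hH h01]
  have hv0Y : (H : ℝ) * (e1 ^ 2 * Y) ≤ v0 := Nat.le_ceil _
  have hv1Y : (v1 : ℝ) ≤ (H : ℝ) * (e1 * Y) := Nat.floor_le (by positivity)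
  have hv1H : (v1 : ℝ) / H ≤ Y / 4 := by
    rw [div_le_iff₀ hH0]
    have h1 : e1 * Y ≤ 1 / 4 * Y := mul_le_mul_of_nonneg_right he1 hY0.le
    have h2 := mul_le_mul_of_nonneg_left h1 hH0.le
    linarith
  have hHY : 0 < (H : ℝ) * (e1 ^ 2 * Y) := by positivity
  -- one cell
  have hone : ∀ v ∈ Ico v0 v1,
      ∑ p ∈ cell H v, 1 / (p : ℝ) * ‖DD lam f t (y - Real.log p)‖ ≤
        C / (e1 ^ 2 * Y) * (∫ u in ((v : ℝ) / H)..(((v + 1 : ℕ) : ℝ) / H), ‖DD lam f t (y - u)‖) +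
          (∑ p ∈ cell H v, 1 / (p : ℝ)) * (5 / H) := by
    intro v hv
    rw [Finset.mem_Ico] at hv
    have hv1' : ((v + 1 : ℕ) : ℝ) / H ≤ (v1 : ℝ) / H := by
      refine div_le_div_of_nonneg_right ?_ hH0.le
      exact_mod_cast hv.2
    have hle : (v : ℝ) / H ≤ ((v + 1 : ℕ) : ℝ) / H := by
      refine div_le_div_of_nonneg_right ?_ hH0.le
      push_cast
      linarith
    have hlen : ((v + 1 : ℕ) : ℝ) / H - (v : ℝ) / H = 1 / H := by
      push_cast
      ring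
    have hint := avg_int' hl hl2 hf t y (a := (v : ℝ) / H) (b := ((v + 1 : ℕ) : ℝ) / H)
      (by linarith) hle
    set I : ℝ := ∫ u in ((v : ℝ) / H)..(((v + 1 : ℕ) : ℝ) / H), ‖DD lam f t (y - u)‖ with hI
    have hI0 : 0 ≤ I := intervalIntegral.integral_nonneg hle fun u _ => norm_nonneg _
    have hp : ∀ p ∈ cell H v, ‖DD lam f t (y - Real.log p)‖ ≤ H * I + 5 / H := by
      intro p hp
      obtain ⟨⟨h1, h2⟩, h3⟩ := mem_cell.1 hp
      have hp0 : (0 : ℝ) < p := by exact_mod_cast h3.pos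
      have h4 : (v : ℝ) / H ≤ Real.log p := (Real.le_log_iff_exp_le hp0).2 h1
      have h5 : Real.log p < ((v + 1 : ℕ) : ℝ) / H := by
        rw [Real.log_lt_iff_lt_exp hp0]
        push_cast
        exact h2
      have h6 : ∀ u ∈ Set.Icc ((v : ℝ) / H) (((v + 1 : ℕ) : ℝ) / H),
          ‖DD lam f t (y - Real.log p)‖ ≤ ‖DD lam f t (y - u)‖ + 5 / H := by
        intro u hu
        refine avg_close hl hl2 hf t hH hY2 (by linarith) (by linarith [hu.2]) ?_
        rw [abs_le]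
        constructor
        · linarith [hu.1]
        · linarith [hu.2]
      have h7 : ∫ _u in ((v : ℝ) / H)..(((v + 1 : ℕ) : ℝ) / H), ‖DD lam f t (y - Real.log p)‖ ≤
          ∫ u in ((v : ℝ) / H)..(((v + 1 : ℕ) : ℝ) / H), (‖DD lam f t (y - u)‖ + 5 / H) :=
        intervalIntegral.integral_mono_on hle (continuous_const.intervalIntegrable _ _)
          (hint.add (continuous_const.intervalIntegrable _ _)) h6
      rw [intervalIntegral.integral_add hint (continuous_const.intervalIntegrable _ _),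
        intervalIntegral.integral_const, intervalIntegral.integral_const, hlen, smul_eq_mul,
        smul_eq_mul, ← hI] at h7
      have h8 := mul_le_mul_of_nonneg_left h7 hH0.le
      have h9 : (H : ℝ) * (1 / H * ‖DD lam f t (y - Real.log p)‖) =
          ‖DD lam f t (y - Real.log p)‖ := by field_simp
      have h10 : (H : ℝ) * (I + 1 / H * (5 / H)) = H * I + 5 / H := by field_simp
      rw [h9, h10] at h8
      exact h8
    have hqs : ∑ p ∈ cell H v, 1 / (p : ℝ) ≤ C / (H * (e1 ^ 2 * Y)) := by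
      have h1 : (H : ℝ) * (e1 ^ 2 * Y) ≤ v := hv0Y.trans (by exact_mod_cast hv.1)
      have h2 : (u0 : ℝ) ≤ v := by
        rw [div_le_iff₀ (by positivity)] at hY3
        have h3 : e1 ^ 2 * Y ≤ (H : ℝ) * (e1 ^ 2 * Y) :=
          le_mul_of_one_le_left (by positivity) hH1
        linarith
      have h3 : qs (cell H v) ≤ C / v := hu0 v (by exact_mod_cast h2)
      exact h3.trans (div_le_div_of_nonneg_left hC.le hHY h1)
    calc ∑ p ∈ cell H v, 1 / (p : ℝ) * ‖DD lam f t (y - Real.log p)‖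
        ≤ ∑ p ∈ cell H v, 1 / (p : ℝ) * (H * I + 5 / H) := Finset.sum_le_sum fun p hp' =>
          mul_le_mul_of_nonneg_left (hp p hp') (by positivity)
      _ = (∑ p ∈ cell H v, 1 / (p : ℝ)) * (H * I) +
            (∑ p ∈ cell H v, 1 / (p : ℝ)) * (5 / H) := by
          rw [← Finset.sum_mul]
          ring
      _ ≤ C / (H * (e1 ^ 2 * Y)) * (H * I) + (∑ p ∈ cell H v, 1 / (p : ℝ)) * (5 / H) := by
          have := mul_le_mul_of_nonneg_right hqs (mul_nonneg hH0.le hI0)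
          linarith
      _ = C / (e1 ^ 2 * Y) * I + (∑ p ∈ cell H v, 1 / (p : ℝ)) * (5 / H) := by
          congr 1
          field_simp
  have hsum : ∑ v ∈ Ico v0 v1,
      (∫ u in ((v : ℝ) / H)..(((v + 1 : ℕ) : ℝ) / H), ‖DD lam f t (y - u)‖) ≤
        ∫ u in (Y / 8)..Y, ‖DD lam f t u‖ := by
    have hle01 : (v0 : ℝ) / H ≤ (v1 : ℝ) / H := by
      refine div_le_div_of_nonneg_right ?_ hH0.le
      exact_mod_cast h01
    have hv00 : 0 ≤ (v0 : ℝ) / H := by positivity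
    rw [intervalIntegral.sum_integral_adjacent_intervals_Ico (a := fun k : ℕ => (k : ℝ) / H) h01
      fun k hk => avg_int' hl hl2 hf t y (by
        have h1 : ((k + 1 : ℕ) : ℝ) / H ≤ (v1 : ℝ) / H := by
          refine div_le_div_of_nonneg_right ?_ hH0.le
          exact_mod_cast hk.2
        linarith) (by
        refine div_le_div_of_nonneg_right ?_ hH0.le
        push_cast
        linarith),
      intervalIntegral.integral_comp_sub_left (fun u => ‖DD lam f t u‖) y]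
    refine intervalIntegral.integral_mono_interval (by linarith) (by linarith) (by linarith) ?_
      (avg_int hl hl2 hf t (by linarith) (by linarith))
    exact Filter.Eventually.of_forall fun u => norm_nonneg _
  rw [hQ]
  unfold qs
  rw [← sum_QQ hH v0 v1 fun p => 1 / (p : ℝ) * ‖DD lam f t (y - Real.log p)‖,
    ← sum_QQ hH v0 v1 fun p => 1 / (p : ℝ)]
  refine (Finset.sum_le_sum hone).trans ?_
  rw [Finset.sum_add_distrib, ← Finset.mul_sum, ← Finset.sum_mul]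
  have h1 := mul_le_mul_of_nonneg_left hsum (by positivity : 0 ≤ C / (e1 ^ 2 * Y))
  linarith

end Pool.Agent.MOM
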