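import Pool.Agent.MOM.Defs

/-!
MOM (MP_2b7f8f_an), Halász part: definitions and elementary facts. Everything is done WITHOUT
smoothing: `DD lam f t y` is the sum over the sharp window `(e^y, lam e^y]`.
-/

set_option autoImplicit false

namespace Pool.Agent.MOM

open Finset MeasureTheory

/-- `n^{-1-σ-it}` (equal to `0` for `n = 0`). -/
noncomputable def dt (σ t : ℝ) (n : ℕ) : ℂ := (((n : ℝ) ^ (-(1 + σ)) : ℝ) : ℂ) * ph t n

/-- The multiplicative function `μ θ^{ω_Q}`. -/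
noncomputable def ff (Q : Finset ℕ) (θ : ℝ) (n : ℕ) : ℂ := mu n * (θ : ℂ) ^ om Q n

/-- The Dirichlet series `∑ f(n) n^{-1-σ-it}`. -/
noncomputable def FF (f : ℕ → ℂ) (σ t : ℝ) : ℂ := ∑' n : ℕ, f n * dt σ t n

/-- The Dirichlet series `∑ f(n) log n n^{-1-σ-it}`. -/
noncomputable def FL (f : ℕ → ℂ) (σ t : ℝ) : ℂ := ∑' n : ℕ, f n * (Real.log n : ℂ) * dt σ t n

/-- The series `∑_p f(p) log p p^{-1-σ-it}`. -/
noncomputable def PP (f : ℕ → ℂ) (σ t : ℝ) : ℂ :=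
  ∑' p : Nat.Primes, f p * (Real.log p : ℂ) * dt σ t p

/-- The series `∑_p Re f(p) p^{-1-σ-it}`. -/
noncomputable def PR (f : ℕ → ℂ) (σ t : ℝ) : ℝ := ∑' p : Nat.Primes, (f p * dt σ t p).re

/-- The windowed sum `∑_{e^y < n ≤ lam e^y} f(n) n^{-1-it}`. -/
noncomputable def DD (lam : ℝ) (f : ℕ → ℂ) (t y : ℝ) : ℂ :=
  dp (win (Real.exp y) (lam * Real.exp y)) f t

theorem dt_zero_right {σ : ℝ} (hσ : 0 < σ) (t : ℝ) : dt σ t 0 = 0 := by
  unfold dt
  rw [Nat.cast_zero, Real.zero_rpow (by linarith)]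
  simp

theorem dt_one_right (σ t : ℝ) : dt σ t 1 = 1 := by
  unfold dt
  rw [ph_one_right]
  simp

theorem norm_dt (σ t : ℝ) (n : ℕ) : ‖dt σ t n‖ = (n : ℝ) ^ (-(1 + σ)) := by
  unfold dt
  rw [norm_mul, norm_ph, mul_one, Complex.norm_real, Real.norm_eq_abs,
    abs_of_nonneg (Real.rpow_nonneg (Nat.cast_nonneg n) _)]

theorem dt_mul {σ : ℝ} (hσ : 0 < σ) (t : ℝ) (m n : ℕ) :
    dt σ t (m * n) = dt σ t m * dt σ t n := by
  rcases eq_or_ne m 0 with rfl | hm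
  · rw [zero_mul, dt_zero_right hσ, zero_mul]
  rcases eq_or_ne n 0 with rfl | hn
  · rw [mul_zero, dt_zero_right hσ, mul_zero]
  unfold dt
  rw [ph_mul hm hn, Nat.cast_mul, Real.mul_rpow (Nat.cast_nonneg m) (Nat.cast_nonneg n)]
  push_cast
  ring

theorem dt_add (σ t ξ : ℝ) (n : ℕ) : dt σ (t + ξ) n = dt σ t n * ph ξ n := by
  unfold dt
  rw [ph_add]
  ring

theorem dt_eq_div {σ t : ℝ} {n : ℕ} (hn : n ≠ 0) :
    dt σ t n = (((n : ℝ) ^ (-σ) : ℝ) : ℂ) / (n : ℂ) * ph t n := by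
  unfold dt
  have hn0 : (0 : ℝ) < n := by exact_mod_cast Nat.pos_of_ne_zero hn
  have h1 : (n : ℝ) ^ (-(1 + σ)) = (n : ℝ) ^ (-σ) / n := by
    rw [show -(1 + σ) = -σ - 1 by ring, Real.rpow_sub_one hn0.ne']
  rw [h1]
  push_cast
  ring

theorem continuous_dt (σ : ℝ) (n : ℕ) : Continuous fun t => dt σ t n := by
  unfold dt
  exact continuous_const.mul (continuous_ph n)

theorem ff_zero (Q : Finset ℕ) (θ : ℝ) : ff Q θ 0 = 0 := by
  unfold ff mu
  simp

theorem ff_one {Q : Finset ℕ} (hQ : ∀ p ∈ Q, p.Prime) (θ : ℝ) : ff Q θ 1 = 1 := by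
  have h1 : om Q 1 = 0 := by
    unfold om
    rw [Finset.card_eq_zero, Finset.filter_eq_empty_iff]
    intro p hp h
    exact (hQ p hp).one_lt.ne' (Nat.dvd_one.1 h)
  unfold ff mu
  rw [h1]
  simp

theorem norm_ff_le (Q : Finset ℕ) {θ : ℝ} (h0 : 0 ≤ θ) (h1 : θ ≤ 1) (n : ℕ) :
    ‖ff Q θ n‖ ≤ 1 := by
  unfold ff
  rw [norm_mul, norm_pow, Complex.norm_real, Real.norm_eq_abs, abs_of_nonneg h0]
  exact mul_le_one₀ (norm_mu_le n) (pow_nonneg h0 _) (pow_le_one₀ h0 h1)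

theorem om_mul {Q : Finset ℕ} (hQ : ∀ p ∈ Q, p.Prime) {m n : ℕ} (h : Nat.Coprime m n) :
    om Q (m * n) = om Q m + om Q n := by
  unfold om
  rw [← Finset.card_union_of_disjoint]
  · congr 1
    ext p
    simp only [mem_filter, mem_union]
    constructor
    · rintro ⟨hp, hd⟩
      rcases (hQ p hp).dvd_mul.1 hd with h1 | h1
      · exact Or.inl ⟨hp, h1⟩
      · exact Or.inr ⟨hp, h1⟩
    · rintro (⟨hp, hd⟩ | ⟨hp, hd⟩)
      · exact ⟨hp, hd.mul_right n⟩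
      · exact ⟨hp, hd.mul_left m⟩
  · rw [Finset.disjoint_left]
    intro p hp hp'
    rw [mem_filter] at hp hp'
    have h1 := Nat.dvd_gcd hp.2 hp'.2
    rw [h] at h1
    exact (hQ p hp.1).one_lt.ne' (Nat.dvd_one.1 h1)

theorem ff_mul {Q : Finset ℕ} (hQ : ∀ p ∈ Q, p.Prime) (θ : ℝ) {m n : ℕ}
    (h : Nat.Coprime m n) : ff Q θ (m * n) = ff Q θ m * ff Q θ n := by
  unfold ff mu
  rw [om_mul hQ h, pow_add, ArithmeticFunction.isMultiplicative_moebius.map_mul_of_coprime h]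
  push_cast
  ring

/-- `ff` is supported on the squarefree numbers. -/
theorem ff_of_not_squarefree (Q : Finset ℕ) (θ : ℝ) {n : ℕ} (h : ¬ Squarefree n) :
    ff Q θ n = 0 := by
  unfold ff mu
  rw [ArithmeticFunction.moebius_eq_zero_of_not_squarefree h]
  simp

theorem ff_prime {Q : Finset ℕ} (hQ : ∀ p ∈ Q, p.Prime) (θ : ℝ) {p : ℕ} (hp : p.Prime) :
    ff Q θ p = if p ∈ Q then -(θ : ℂ) else -1 := by
  have h1 : om Q p = if p ∈ Q then 1 else 0 := by
    unfold om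
    split_ifs with h
    · rw [Finset.card_eq_one]
      refine ⟨p, ?_⟩
      ext r
      rw [mem_filter, mem_singleton]
      constructor
      · rintro ⟨hr, hd⟩
        exact (Nat.prime_dvd_prime_iff_eq (hQ r hr) hp).1 hd
      · rintro rfl
        exact ⟨h, dvd_rfl⟩
    · rw [Finset.card_eq_zero, Finset.filter_eq_empty_iff]
      intro r hr hd
      rw [(Nat.prime_dvd_prime_iff_eq (hQ r hr) hp).1 hd] at hr
      exact h hr
  unfold ff mu
  rw [h1, ArithmeticFunction.moebius_apply_prime hp]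
  split_ifs <;> simp

theorem DD_eq (lam : ℝ) (f : ℕ → ℂ) (t y : ℝ) :
    DD lam f t y = ∑ n ∈ win (Real.exp y) (lam * Real.exp y), f n / (n : ℂ) * ph t n := rfl

/-- A sum over the window `(e^y, lam e^y]` is a measurable function of `y`. -/
theorem measurable_winSum (lam : ℝ) (a : ℕ → ℂ) :
    Measurable fun y : ℝ => ∑ n ∈ win (Real.exp y) (lam * Real.exp y), a n := by
  unfold win
  have h1 : Measurable fun y : ℝ => (⌊Real.exp y⌋₊, ⌊lam * Real.exp y⌋₊) :=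
    (Nat.measurable_floor.comp Real.measurable_exp).prodMk
      (Nat.measurable_floor.comp (Real.measurable_exp.const_mul lam))
  have h2 : Measurable fun q : ℕ × ℕ => ∑ n ∈ Ioc q.1 q.2, a n := Measurable.of_discrete
  exact h2.comp h1

theorem measurable_DD (lam : ℝ) (f : ℕ → ℂ) (t : ℝ) : Measurable (DD lam f t) :=
  measurable_winSum lam fun n => f n / (n : ℂ) * ph t n

/-- The harmonic mass of a window is at most `2`. -/
theorem sum_win_le {lam : ℝ} (hl : 1 < lam) (hl2 : lam ≤ 2) {M : ℝ} (hM : 1 ≤ M) :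
    ∑ n ∈ win M (lam * M), 1 / (n : ℝ) ≤ 2 := by
  have hM0 : 0 < M := by linarith
  have h1 : ∀ n ∈ win M (lam * M), 1 / (n : ℝ) ≤ 1 / M := by
    intro n hn
    rw [mem_win hM0.le] at hn
    exact one_div_le_one_div_of_le hM0 hn.1.le
  refine (Finset.sum_le_card_nsmul _ _ _ h1).trans ?_
  have h2 : ((win M (lam * M)).card : ℝ) ≤ M + 1 := by
    unfold win
    rw [Nat.card_Ioc]
    have h3 : (⌊lam * M⌋₊ : ℝ) ≤ lam * M := Nat.floor_le (by positivity)
    have h4 : M < ⌊M⌋₊ + 1 := Nat.lt_floor_add_one M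
    have h5 : ⌊M⌋₊ ≤ ⌊lam * M⌋₊ := Nat.floor_le_floor (by nlinarith)
    rw [Nat.cast_sub h5]
    nlinarith
  rw [nsmul_eq_mul]
  calc ((win M (lam * M)).card : ℝ) * (1 / M) ≤ (M + 1) * (1 / M) :=
        mul_le_mul_of_nonneg_right h2 (by positivity)
    _ = 1 + 1 / M := by field_simp
    _ ≤ 2 := by
        have : 1 / M ≤ 1 := by
          rw [div_le_one hM0]
          exact hM
        linarith

theorem norm_DD_le {lam : ℝ} (hl : 1 < lam) (hl2 : lam ≤ 2) {f : ℕ → ℂ}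
    (hf : ∀ n, ‖f n‖ ≤ 1) (t : ℝ) {y : ℝ} (hy : 0 ≤ y) : ‖DD lam f t y‖ ≤ 2 := by
  refine (norm_dp_le _ _ _).trans ?_
  refine le_trans (Finset.sum_le_sum fun n _ => ?_) (sum_win_le hl hl2 (Real.one_le_exp hy))
  exact div_le_div_of_nonneg_right (hf n) (Nat.cast_nonneg n)

theorem summable_rpow {σ : ℝ} (hσ : 0 < σ) : Summable fun n : ℕ => (n : ℝ) ^ (-(1 + σ)) :=
  Real.summable_nat_rpow.2 (by linarith)

theorem summable_log_rpow {σ : ℝ} (hσ : 0 < σ) :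
    Summable fun n : ℕ => Real.log n * (n : ℝ) ^ (-(1 + σ)) := by
  have h1 : Summable fun n : ℕ => (2 / σ) * (n : ℝ) ^ (-(1 + σ / 2)) :=
    (summable_rpow (by linarith : 0 < σ / 2)).mul_left _
  refine Summable.of_nonneg_of_le (fun n => ?_) (fun n => ?_) h1
  · exact mul_nonneg (Real.log_natCast_nonneg n) (Real.rpow_nonneg (Nat.cast_nonneg n) _)
  · rcases eq_or_ne n 0 with rfl | hn
    · simp only [Nat.cast_zero, Real.log_zero, zero_mul]
      exact mul_nonneg (by positivity) (Real.rpow_nonneg le_rfl _)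
    have hn0 : (0 : ℝ) < n := by exact_mod_cast Nat.pos_of_ne_zero hn
    have h2 : Real.log n ≤ (n : ℝ) ^ (σ / 2) / (σ / 2) :=
      Real.log_le_rpow_div hn0.le (by linarith)
    calc Real.log n * (n : ℝ) ^ (-(1 + σ)) ≤
          (n : ℝ) ^ (σ / 2) / (σ / 2) * (n : ℝ) ^ (-(1 + σ)) :=
          mul_le_mul_of_nonneg_right h2 (Real.rpow_nonneg hn0.le _)
      _ = (2 / σ) * ((n : ℝ) ^ (σ / 2) * (n : ℝ) ^ (-(1 + σ))) := by
          field_simp
      _ = (2 / σ) * (n : ℝ) ^ (-(1 + σ / 2)) := by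
          rw [← Real.rpow_add hn0]
          congr 2
          ring

theorem summable_FF {f : ℕ → ℂ} (hf : ∀ n, ‖f n‖ ≤ 1) {σ : ℝ} (hσ : 0 < σ) (t : ℝ) :
    Summable fun n : ℕ => ‖f n * dt σ t n‖ := by
  refine Summable.of_nonneg_of_le (fun n => norm_nonneg _) (fun n => ?_) (summable_rpow hσ)
  rw [norm_mul, norm_dt]
  exact mul_le_of_le_one_left (Real.rpow_nonneg (Nat.cast_nonneg n) _) (hf n)

theorem norm_FL_term {f : ℕ → ℂ} (hf : ∀ n, ‖f n‖ ≤ 1) (σ t : ℝ) (n : ℕ) :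
    ‖f n * (Real.log n : ℂ) * dt σ t n‖ ≤ Real.log n * (n : ℝ) ^ (-(1 + σ)) := by
  rw [norm_mul, norm_mul, norm_dt, Complex.norm_real, Real.norm_eq_abs,
    abs_of_nonneg (Real.log_natCast_nonneg n)]
  refine mul_le_mul_of_nonneg_right ?_ (Real.rpow_nonneg (Nat.cast_nonneg n) _)
  exact mul_le_of_le_one_left (Real.log_natCast_nonneg n) (hf n)

theorem summable_FL {f : ℕ → ℂ} (hf : ∀ n, ‖f n‖ ≤ 1) {σ : ℝ} (hσ : 0 < σ) (t : ℝ) :
    Summable fun n : ℕ => ‖f n * (Real.log n : ℂ) * dt σ t n‖ :=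
  Summable.of_nonneg_of_le (fun _ => norm_nonneg _) (fun n => norm_FL_term hf σ t n)
    (summable_log_rpow hσ)

theorem summable_PP {f : ℕ → ℂ} (hf : ∀ n, ‖f n‖ ≤ 1) {σ : ℝ} (hσ : 0 < σ) (t : ℝ) :
    Summable fun p : Nat.Primes => ‖f p * (Real.log p : ℂ) * dt σ t p‖ :=
  (summable_FL hf hσ t).subtype {p : ℕ | p.Prime}

theorem summable_PR {f : ℕ → ℂ} (hf : ∀ n, ‖f n‖ ≤ 1) {σ : ℝ} (hσ : 0 < σ) (t : ℝ) :
    Summable fun p : Nat.Primes => (f p * dt σ t p).re := by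
  have h1 : Summable fun p : Nat.Primes => ‖f p * dt σ t p‖ :=
    (summable_FF hf hσ t).subtype {p : ℕ | p.Prime}
  refine Summable.of_norm_bounded h1 fun p => ?_
  exact Complex.abs_re_le_norm _

theorem continuous_FF {f : ℕ → ℂ} (hf : ∀ n, ‖f n‖ ≤ 1) {σ : ℝ} (hσ : 0 < σ) :
    Continuous (FF f σ) := by
  unfold FF
  refine continuous_tsum (fun n => continuous_const.mul (continuous_dt σ n))
    (summable_rpow hσ) fun n t => ?_
  rw [norm_mul, norm_dt]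
  exact mul_le_of_le_one_left (Real.rpow_nonneg (Nat.cast_nonneg n) _) (hf n)

theorem continuous_FL {f : ℕ → ℂ} (hf : ∀ n, ‖f n‖ ≤ 1) {σ : ℝ} (hσ : 0 < σ) :
    Continuous (FL f σ) := by
  unfold FL
  exact continuous_tsum (fun n => continuous_const.mul (continuous_dt σ n))
    (summable_log_rpow hσ) fun n t => norm_FL_term hf σ t n

theorem continuous_PP {f : ℕ → ℂ} (hf : ∀ n, ‖f n‖ ≤ 1) {σ : ℝ} (hσ : 0 < σ) :
    Continuous (PP f σ) := by
  unfold PP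
  exact continuous_tsum (fun p : Nat.Primes => continuous_const.mul (continuous_dt σ p))
    ((summable_log_rpow hσ).subtype {p : ℕ | p.Prime}) fun p t => norm_FL_term hf σ t p

end Pool.Agent.MOM
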