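import Pool.Agent.MOM.Hal.Base

/-!
MOM, HAL part 1a: the integral `∫ (1 - cos x)/x² dx` and the Fourier transform of a triangle,
without evaluating any constant.

PROOF. `cosKer x = (1 - cos x)/x²` (Lean: value `0` at `0`) is continuous away from `0`, `0 ≤
  cosKer
x ≤ 1/2` (`1 - cos x ≤ x²/2`, Mathlib `Real.one_sub_sq_div_two_le_cos`) and `≤ 2/x²`, so
`≤ 5/(2(1+x²))`: integrable (`integrable_inv_one_add_sq`; measurable as a quotient), and
`c0 := ∫ cosKer > 0` (the function is `≥ 0`, and `≥` a positive constant on `[1,2]`, as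
`1 - cos x ≥ 1 - cos 1 > 0` there).
Scaling (`MeasureTheory.Measure.integral_comp_mul_left`): for real `a`:
`∫ (1 - cos (a ξ))/ξ² dξ = c0 |a|` (`a = 0`: both sides `0`; for `a ≠ 0` the integrand is
`a² cosKer (a ξ)`, integral `a² c0/|a|`), and the integrand is integrable.
TRIANGLE: `(2 - 2 cos (sξ)) cos (uξ) = (1 - cos ((s+u)ξ)) + (1 - cos ((s-u)ξ)) - 2 (1 - cos
  (uξ))`,
so `∫ (2 - 2 cos (sξ))/ξ² · cos (uξ) dξ = c0 (|s+u| + |s-u| - 2|u|) = 2 c0 max 0 (s - |u|)` for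
`s ≥ 0` (check the cases `|u| ≤ s`, `|u| ≥ s`).
`boxKer_le`: `(2 - 2 cos (sξ))/ξ² ≤ 5/(1+ξ²)` for `0 ≤ s ≤ 1` (it is `≤ s² ≤ 1` and `≤ 4/ξ²`; for
`ξ² ≤ 4` use `1 ≤ 5/(1+ξ²)`, otherwise `4/ξ² ≤ 5/(1+ξ²)`).
-/

set_option autoImplicit false

namespace Pool.Agent.MOM

open Finset MeasureTheory

/-- The constant `∫ (1 - cos x)/x² dx`. -/
noncomputable def c0 : ℝ := ∫ x : ℝ, (1 - Real.cos x) / x ^ 2

/-- The kernel `(2 - 2 cos (s ξ))/ξ²`. -/
noncomputable def boxKer (s ξ : ℝ) : ℝ := (2 - 2 * Real.cos (s * ξ)) / ξ ^ 2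

private theorem ck_nonneg (a x : ℝ) : 0 ≤ (1 - Real.cos (a * x)) / x ^ 2 :=
  div_nonneg (sub_nonneg.mpr (Real.cos_le_one _)) (sq_nonneg _)

private theorem ck_le (a x : ℝ) :
    (1 - Real.cos (a * x)) / x ^ 2 ≤ (a ^ 2 / 2 + 2) / (1 + x ^ 2) := by
  rcases eq_or_ne x 0 with rfl | hx
  · simp
    positivity
  · have hx2 : 0 < x ^ 2 := by positivity
    rw [div_le_div_iff₀ hx2 (by positivity)]
    have h1 := Real.one_sub_sq_div_two_le_cos (x := a * x)
    have h2 := Real.neg_one_le_cos (a * x)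
    nlinarith [mul_le_mul_of_nonneg_right (show 1 - Real.cos (a * x) ≤ 2 by linarith) hx2.le]

private theorem ck_meas (a : ℝ) : Measurable (fun x : ℝ => (1 - Real.cos (a * x)) / x ^ 2) := by
  fun_prop

private theorem ck_int (a : ℝ) : Integrable (fun x : ℝ => (1 - Real.cos (a * x)) / x ^ 2) := by
  refine Integrable.mono' (g := fun x : ℝ => (a ^ 2 / 2 + 2) * (1 + x ^ 2)⁻¹)
    (integrable_inv_one_add_sq.const_mul _) (ck_meas a).aestronglyMeasurable ?_
  refine Filter.Eventually.of_forall (fun x => ?_)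
  rw [Real.norm_eq_abs, abs_of_nonneg (ck_nonneg a x), ← div_eq_mul_inv]
  exact ck_le a x

private theorem ck_integral (a : ℝ) :
    ∫ x : ℝ, (1 - Real.cos (a * x)) / x ^ 2 = c0 * |a| := by
  rcases eq_or_ne a 0 with rfl | ha
  · simp
  · have h1 := MeasureTheory.Measure.integral_comp_mul_left
      (fun x : ℝ => (1 - Real.cos x) / x ^ 2) a
    have h2 : ∀ x : ℝ, (1 - Real.cos (a * x)) / x ^ 2 =
        a ^ 2 * ((1 - Real.cos (a * x)) / (a * x) ^ 2) := by
      intro x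
      rcases eq_or_ne x 0 with rfl | hx
      · simp
      · field_simp
    have h3 : ∫ x : ℝ, (1 - Real.cos (a * x)) / x ^ 2 =
        ∫ x : ℝ, a ^ 2 * ((1 - Real.cos (a * x)) / (a * x) ^ 2) :=
      integral_congr_ae (Filter.Eventually.of_forall h2)
    rw [h3, integral_const_mul, h1, smul_eq_mul, abs_inv]
    have h4 : |a| ≠ 0 := abs_ne_zero.mpr ha
    have h5 : a ^ 2 = |a| * |a| := by rw [← sq, sq_abs]
    rw [h5]
    unfold c0
    field_simp

theorem c0_pos : 0 < c0 := by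
  have hint : Integrable (fun x : ℝ => (1 - Real.cos x) / x ^ 2) := by
    have := ck_int 1
    simpa using this
  have hnn : ∀ x : ℝ, 0 ≤ (1 - Real.cos x) / x ^ 2 := fun x => by
    have := ck_nonneg 1 x
    simpa using this
  have hcos1 : Real.cos 1 < 1 := by
    have := Real.cos_one_le
    linarith
  have h1 : ∫ x in Set.Icc (1 : ℝ) 2, (1 - Real.cos 1) / 4 ≤
      ∫ x in Set.Icc (1 : ℝ) 2, (1 - Real.cos x) / x ^ 2 := by
    refine setIntegral_mono_on (by simp) hint.integrableOn measurableSet_Icc ?_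
    intro x hx
    have hx1 : (1 : ℝ) ≤ x := hx.1
    have hx2 : x ≤ 2 := hx.2
    have h2 : Real.cos x ≤ Real.cos 1 := by
      apply Real.cos_le_cos_of_nonneg_of_le_pi (by norm_num) _ hx1
      have := Real.pi_gt_three
      linarith
    rw [div_le_div_iff₀ (by norm_num) (by positivity)]
    nlinarith [mul_le_mul_of_nonneg_left (show x ^ 2 ≤ 4 by nlinarith)
      (show 0 ≤ 1 - Real.cos 1 by linarith)]
  have h2 : ∫ x in Set.Icc (1 : ℝ) 2, (1 - Real.cos 1) / 4 = (1 - Real.cos 1) / 4 := by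
    rw [setIntegral_const]
    simp [Measure.real]
    norm_num
  have h3 : ∫ x in Set.Icc (1 : ℝ) 2, (1 - Real.cos x) / x ^ 2 ≤ c0 :=
    setIntegral_le_integral hint (Filter.Eventually.of_forall hnn)
  have h4 : 0 < (1 - Real.cos 1) / 4 := by linarith
  linarith

private theorem boxKer_eq (s ξ : ℝ) : boxKer s ξ = 2 * ((1 - Real.cos (s * ξ)) / ξ ^ 2) := by
  unfold boxKer
  ring

theorem integrable_boxKer (s : ℝ) : Integrable (boxKer s) := by
  have h : boxKer s = fun ξ => 2 * ((1 - Real.cos (s * ξ)) / ξ ^ 2) := funext (boxKer_eq s)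
  rw [h]
  exact (ck_int s).const_mul 2

theorem boxKer_nonneg (s ξ : ℝ) : 0 ≤ boxKer s ξ := by
  rw [boxKer_eq]
  exact mul_nonneg (by norm_num) (ck_nonneg s ξ)

theorem boxKer_le {s : ℝ} (h0 : 0 ≤ s) (h1 : s ≤ 1) (ξ : ℝ) : boxKer s ξ ≤ 5 / (1 + ξ ^ 2) := by
  rw [boxKer_eq]
  have h2 := ck_le s ξ
  have h3 : 2 * ((s ^ 2 / 2 + 2) / (1 + ξ ^ 2)) ≤ 5 / (1 + ξ ^ 2) := by
    rw [← mul_div_assoc]
    apply div_le_div_of_nonneg_right _ (by positivity)
    nlinarith
  linarith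

theorem integral_boxKer_cos {s : ℝ} (hs : 0 ≤ s) (u : ℝ) :
    ∫ ξ : ℝ, boxKer s ξ * Real.cos (u * ξ) = 2 * c0 * max 0 (s - |u|) := by
  have h1 : ∀ ξ : ℝ, boxKer s ξ * Real.cos (u * ξ) =
      ((1 - Real.cos ((s + u) * ξ)) / ξ ^ 2 + (1 - Real.cos ((s - u) * ξ)) / ξ ^ 2) -
        2 * ((1 - Real.cos (u * ξ)) / ξ ^ 2) := by
    intro ξ
    have e1 : (s + u) * ξ = s * ξ + u * ξ := by ring
    have e2 : (s - u) * ξ = s * ξ - u * ξ := by ring
    rw [e1, e2, Real.cos_add, Real.cos_sub]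
    unfold boxKer
    ring
  have h2 : ∫ ξ : ℝ, boxKer s ξ * Real.cos (u * ξ) =
      ∫ ξ : ℝ, (((1 - Real.cos ((s + u) * ξ)) / ξ ^ 2 + (1 - Real.cos ((s - u) * ξ)) / ξ ^ 2) -
        2 * ((1 - Real.cos (u * ξ)) / ξ ^ 2)) :=
    integral_congr_ae (Filter.Eventually.of_forall h1)
  have hadd : Integrable (fun ξ : ℝ => (1 - Real.cos ((s + u) * ξ)) / ξ ^ 2 +
      (1 - Real.cos ((s - u) * ξ)) / ξ ^ 2) := (ck_int _).add (ck_int _)
  rw [h2, integral_sub hadd ((ck_int _).const_mul 2),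
    integral_add (ck_int _) (ck_int _), integral_const_mul, ck_integral, ck_integral, ck_integral]
  have h3 : |s + u| + |s - u| - 2 * |u| = 2 * max 0 (s - |u|) := by
    rcases le_total 0 u with hu | hu
    · rw [abs_of_nonneg hu, abs_of_nonneg (add_nonneg hs hu)]
      rcases le_total s u with h | h
      · rw [abs_of_nonpos (by linarith), max_eq_left (by linarith)]
        ring
      · rw [abs_of_nonneg (by linarith), max_eq_right (by linarith)]
        ring
    · rw [abs_of_nonpos hu, abs_of_nonneg (show 0 ≤ s - u by linarith)]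
      rcases le_total s (-u) with h | h
      · rw [abs_of_nonpos (by linarith), max_eq_left (by linarith)]
        ring
      · rw [abs_of_nonneg (by linarith), max_eq_right (by linarith)]
        ring
  linear_combination c0 * h3

/-- By symmetry the sine part vanishes. -/
theorem integral_boxKer_exp {s : ℝ} (hs : 0 ≤ s) (u : ℝ) :
    ∫ ξ : ℝ, (boxKer s ξ : ℂ) * Complex.exp (((u * ξ : ℝ) : ℂ) * Complex.I) =
      ((2 * c0 * max 0 (s - |u|) : ℝ) : ℂ) := by
  have hmul : ∀ g : ℝ → ℝ, Measurable g → (∀ x, |g x| ≤ 1) →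
      Integrable (fun ξ : ℝ => boxKer s ξ * g ξ) := by
    intro g hg hg1
    refine (integrable_boxKer s).mono
      ((integrable_boxKer s).aestronglyMeasurable.mul hg.aestronglyMeasurable) ?_
    refine Filter.Eventually.of_forall (fun x => ?_)
    rw [norm_mul]
    have := mul_le_mul_of_nonneg_left (hg1 x) (norm_nonneg (boxKer s x))
    rwa [mul_one] at this
  have hc : Integrable (fun ξ : ℝ => boxKer s ξ * Real.cos (u * ξ)) :=
    hmul (fun ξ => Real.cos (u * ξ)) (by fun_prop) (fun x => Real.abs_cos_le_one _)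
  have hsn : Integrable (fun ξ : ℝ => boxKer s ξ * Real.sin (u * ξ)) :=
    hmul (fun ξ => Real.sin (u * ξ)) (by fun_prop) (fun x => Real.abs_sin_le_one _)
  have h0 : ∫ ξ : ℝ, boxKer s ξ * Real.sin (u * ξ) = 0 := by
    have h1 := integral_neg_eq_self (fun ξ : ℝ => boxKer s ξ * Real.sin (u * ξ)) volume
    have h2 : ∀ ξ : ℝ, boxKer s (-ξ) * Real.sin (u * (-ξ)) =
        -(boxKer s ξ * Real.sin (u * ξ)) := by
      intro ξ
      unfold boxKer
      rw [mul_neg, mul_neg, Real.cos_neg, Real.sin_neg, neg_sq]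
      ring
    simp only [h2] at h1
    rw [integral_neg] at h1
    linarith
  have h1 : ∀ ξ : ℝ, (boxKer s ξ : ℂ) * Complex.exp (((u * ξ : ℝ) : ℂ) * Complex.I) =
      ((boxKer s ξ * Real.cos (u * ξ) : ℝ) : ℂ) +
        ((boxKer s ξ * Real.sin (u * ξ) : ℝ) : ℂ) * Complex.I := by
    intro ξ
    rw [Complex.exp_mul_I, ← Complex.ofReal_cos, ← Complex.ofReal_sin]
    simp only [Complex.ofReal_mul]
    ring
  have h2 : ∫ ξ : ℝ, (boxKer s ξ : ℂ) * Complex.exp (((u * ξ : ℝ) : ℂ) * Complex.I) =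
      ∫ ξ : ℝ, (((boxKer s ξ * Real.cos (u * ξ) : ℝ) : ℂ) +
        ((boxKer s ξ * Real.sin (u * ξ) : ℝ) : ℂ) * Complex.I) :=
    integral_congr_ae (Filter.Eventually.of_forall h1)
  have e1 : ∫ ξ : ℝ, ((boxKer s ξ * Real.cos (u * ξ) : ℝ) : ℂ) =
      ((2 * c0 * max 0 (s - |u|) : ℝ) : ℂ) := by
    rw [← integral_boxKer_cos hs]
    exact integral_ofReal
  have e2 : ∫ ξ : ℝ, ((boxKer s ξ * Real.sin (u * ξ) : ℝ) : ℂ) = ((0 : ℝ) : ℂ) := by
    rw [← h0]
    exact integral_ofReal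
  rw [h2, integral_add hc.ofReal (hsn.ofReal.mul_const _), integral_mul_const, e1, e2]
  simp

end Pool.Agent.MOM
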