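import Pool.Agent.MOM.Hal.Base

/-!
MOM, HAL part 8a: comparison of the window sum with its logarithmic derivative.

PROOF of `DD_le`. Let `σ = 1/Y`, `φ(x) = x e^{-σx}`, `|φ'(x)| = |1 - σx| e^{-σx} ≤ 1` for `x ≥ 0`
(`|1-v| e^{-v} ≤ 1` for `v ≥ 0`: `1 - v ≤ 1`, `v - 1 ≤ v ≤ e^v`). For `n ∈ win (e^y) (lam e^y)`:
`y < log n ≤ y + log lam ≤ y + 1`, so `|φ(log n) - φ(y)| ≤ 1` (mean value theorem or directly), and
`g(y) := ∑_{win} f n log n dt σ t n = ∑_{win} (f n/n) ph t n · φ(log n)` (`dt_eq_div`,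
`n^{-σ} = e^{-σ log n}`). So `‖g(y) - φ(y) DD(y)‖ ≤ ∑_{win} 1/n ≤ 2` (`sum_win_le`, `y ≥ 0`).
`φ(y) ≥ (Y/8) e^{-1} ≥ Y/24` for `Y/8 ≤ y ≤ Y`. So `‖DD‖ ≤ (24/Y)(‖g‖ + 2)` and
`‖DD‖² ≤ (576/Y²)(2‖g‖² + 8) ≤ (4608/Y²)(‖g‖² + 1)`.
-/

set_option autoImplicit false

namespace Pool.Agent.MOM

open Finset

private theorem DDle_mvt {σ : ℝ} (hσ : 0 ≤ σ) {a b : ℝ} (ha : 0 ≤ a) (hb : 0 ≤ b) :
    |a * Real.exp (-(σ * a)) - b * Real.exp (-(σ * b))| ≤ |a - b| := by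
  have hd : ∀ x : ℝ, HasDerivAt (fun x : ℝ => x * Real.exp (-(σ * x)))
      (1 * Real.exp (-(σ * x)) + x * (Real.exp (-(σ * x)) * -(σ * 1))) x := by
    intro x
    have h1 : HasDerivAt (fun x : ℝ => -(σ * x)) (-(σ * 1)) x :=
      ((hasDerivAt_id x).const_mul σ).neg
    exact (hasDerivAt_id x).mul h1.exp
  have hbd : ∀ x ∈ Set.Ici (0 : ℝ),
      ‖1 * Real.exp (-(σ * x)) + x * (Real.exp (-(σ * x)) * -(σ * 1))‖ ≤ 1 := by
    intro x hx
    have hx0 : 0 ≤ x := hx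
    have hv : 0 ≤ σ * x := mul_nonneg hσ hx0
    have e1 : 1 * Real.exp (-(σ * x)) + x * (Real.exp (-(σ * x)) * -(σ * 1)) =
        Real.exp (-(σ * x)) * (1 - σ * x) := by ring
    rw [e1, Real.norm_eq_abs, abs_le]
    have h1 : Real.exp (-(σ * x)) ≤ 1 := Real.exp_le_one_iff.2 (by linarith)
    have h2 : 0 < Real.exp (-(σ * x)) := Real.exp_pos _
    have h3 : Real.exp (-(σ * x)) * (σ * x) ≤ 1 := by
      have h4 := Real.add_one_le_exp (σ * x)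
      calc Real.exp (-(σ * x)) * (σ * x) ≤ Real.exp (-(σ * x)) * Real.exp (σ * x) := by
            gcongr
            linarith
        _ = 1 := by rw [← Real.exp_add, neg_add_cancel, Real.exp_zero]
    have h5 : 0 ≤ Real.exp (-(σ * x)) * (σ * x) := mul_nonneg h2.le hv
    constructor
    · nlinarith
    · nlinarith
  have h := (convex_Ici (0 : ℝ)).norm_image_sub_le_of_norm_hasDerivWithin_le
    (fun x _ => (hd x).hasDerivWithinAt) hbd (Set.mem_Ici.2 hb) (Set.mem_Ici.2 ha)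
  rw [one_mul, Real.norm_eq_abs, Real.norm_eq_abs] at h
  exact h

theorem DD_le {lam : ℝ} (hl : 1 < lam) (hl2 : lam ≤ 2) {f : ℕ → ℂ} (hf : ∀ n, ‖f n‖ ≤ 1)
    (t : ℝ) {Y y : ℝ} (hY : 1 ≤ Y) (hy : Y / 8 ≤ y) (hy2 : y ≤ Y) :
    ‖DD lam f t y‖ ^ 2 ≤ 4608 / Y ^ 2 *
      (‖∑ n ∈ win (Real.exp y) (lam * Real.exp y),
        f n * (Real.log n : ℂ) * dt (1 / Y) t n‖ ^ 2 + 1) := by
  have hY0 : 0 < Y := by linarith
  have hy0 : 0 < y := by linarith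
  set σ : ℝ := 1 / Y with hσ
  have hσ0 : 0 < σ := by positivity
  obtain ⟨φ, hφ⟩ : ∃ φ : ℝ → ℝ, ∀ x, φ x = x * Real.exp (-(σ * x)) := ⟨_, fun _ => rfl⟩
  set W := win (Real.exp y) (lam * Real.exp y) with hW
  set g : ℂ := ∑ n ∈ W, f n * (Real.log n : ℂ) * dt σ t n with hg
  have hmem : ∀ n ∈ W, (n : ℕ) ≠ 0 ∧ y ≤ Real.log n ∧ Real.log n ≤ y + 1 := by
    intro n hn
    rw [hW, mem_win (Real.exp_pos y).le] at hn
    obtain ⟨h1, h2⟩ := hn
    have hn0 : (0 : ℝ) < n := (Real.exp_pos y).trans h1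
    refine ⟨?_, ?_, ?_⟩
    · rintro rfl
      simp at hn0
    · rw [Real.le_log_iff_exp_le hn0]
      exact h1.le
    · rw [Real.log_le_iff_le_exp hn0, Real.exp_add]
      have h3 := Real.add_one_le_exp (1 : ℝ)
      have h4 : lam ≤ Real.exp 1 := by linarith
      calc (n : ℝ) ≤ lam * Real.exp y := h2
        _ ≤ Real.exp 1 * Real.exp y := by gcongr
        _ = Real.exp y * Real.exp 1 := mul_comm _ _
  have hterm : ∀ n ∈ W, f n * (Real.log n : ℂ) * dt σ t n =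
      f n / (n : ℂ) * ph t n * ((φ (Real.log n) : ℝ) : ℂ) := by
    intro n hn
    obtain ⟨hn0, -, -⟩ := hmem n hn
    have hn1 : (0 : ℝ) < n := by exact_mod_cast Nat.pos_of_ne_zero hn0
    have e1 : (n : ℝ) ^ (-σ) = Real.exp (-(σ * Real.log n)) := by
      rw [Real.rpow_def_of_pos hn1]
      congr 1
      ring
    rw [dt_eq_div hn0, hφ, e1]
    push_cast
    ring
  have hdiff : ‖g - ((φ y : ℝ) : ℂ) * DD lam f t y‖ ≤ 2 := by
    have e1 : g - ((φ y : ℝ) : ℂ) * DD lam f t y =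
        ∑ n ∈ W, f n / (n : ℂ) * ph t n * (((φ (Real.log n) - φ y : ℝ)) : ℂ) := by
      rw [DD_eq, Finset.mul_sum, hg, ← Finset.sum_sub_distrib]
      refine Finset.sum_congr rfl fun n hn => ?_
      rw [hterm n hn]
      push_cast
      ring
    rw [e1]
    refine (norm_sum_le _ _).trans ((Finset.sum_le_sum fun n hn => ?_).trans
      (sum_win_le hl hl2 (Real.one_le_exp hy0.le)))
    obtain ⟨hn0, h1, h2⟩ := hmem n hn
    rw [norm_mul, norm_mul, norm_ph, mul_one, norm_div, Complex.norm_natCast, Complex.norm_real,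
      Real.norm_eq_abs]
    have h3 : |φ (Real.log n) - φ y| ≤ 1 := by
      rw [hφ, hφ]
      refine (DDle_mvt hσ0.le (by linarith) hy0.le).trans ?_
      rw [abs_le]
      constructor <;> linarith
    calc ‖f n‖ / n * |φ (Real.log n) - φ y| ≤ 1 / n * 1 := by
          gcongr
          exact hf n
      _ = 1 / (n : ℝ) := mul_one _
  have hφy : Y / 24 ≤ φ y := by
    rw [hφ]
    have h1 : σ * y ≤ 1 := by
      rw [hσ, one_div, inv_mul_le_iff₀ hY0, mul_one]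
      exact hy2
    have h2 : Real.exp (-1) ≤ Real.exp (-(σ * y)) := Real.exp_le_exp.2 (by linarith)
    have h3 : (1 : ℝ) / 3 ≤ Real.exp (-1) := by
      rw [Real.exp_neg, one_div]
      apply inv_anti₀ (Real.exp_pos 1)
      linarith [Real.exp_one_lt_d9]
    calc Y / 24 = Y / 8 * (1 / 3) := by ring
      _ ≤ y * Real.exp (-(σ * y)) := by
          gcongr
          exact h3.trans h2
  have hφ0 : 0 < φ y := lt_of_lt_of_le (by positivity) hφy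
  have h1 : φ y * ‖DD lam f t y‖ ≤ ‖g‖ + 2 := by
    have e1 : φ y * ‖DD lam f t y‖ = ‖((φ y : ℝ) : ℂ) * DD lam f t y‖ := by
      rw [norm_mul, Complex.norm_real, Real.norm_eq_abs, abs_of_pos hφ0]
    rw [e1]
    have e2 : ((φ y : ℝ) : ℂ) * DD lam f t y = g - (g - ((φ y : ℝ) : ℂ) * DD lam f t y) := by ring
    rw [e2]
    exact (norm_sub_le _ _).trans (by linarith)
  have h2 : Y / 24 * ‖DD lam f t y‖ ≤ ‖g‖ + 2 := by
    refine le_trans ?_ h1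
    gcongr
  have h3 : ‖DD lam f t y‖ ≤ 24 / Y * (‖g‖ + 2) := by
    calc ‖DD lam f t y‖ = 24 / Y * (Y / 24 * ‖DD lam f t y‖) := by field_simp
      _ ≤ 24 / Y * (‖g‖ + 2) := by gcongr
  calc ‖DD lam f t y‖ ^ 2 ≤ (24 / Y * (‖g‖ + 2)) ^ 2 := by gcongr
    _ = 576 / Y ^ 2 * (‖g‖ + 2) ^ 2 := by
        field_simp
        ring
    _ ≤ 576 / Y ^ 2 * (8 * (‖g‖ ^ 2 + 1)) := by
        gcongr
        nlinarith [sq_nonneg (‖g‖ - 2), sq_nonneg ‖g‖]
    _ = 4608 / Y ^ 2 * (‖g‖ ^ 2 + 1) := by ring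

end Pool.Agent.MOM
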