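import Pool.Agent.MOM.Hal.PlanFin

/-!
MOM, HAL part 1c: Plancherel inequality for window sums, infinite version.

PROOF of `plancherel_box`. For `N > lam e^{y2}` all windows with `y ≤ y2` are contained in
`range N`, so `∫_{y1}^{y2} ‖∑_{n ∈ win} a n‖² dy ≤ C ∫ ‖∑_{n<N} a n ph ξ n‖²/(1+ξ²)` by `plan_fin`
with
`S = range N` without `0` (`0` is in no window; put `S = (range N).erase 0` and replace `a 0` by
`0`, or note that the windows do not contain `0`; the value `a 0` must be removed on both sides: the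
hypothesis `a 0 = 0` is given).
Let `N → ∞`: `∑_{n<N} a n ph ξ n → ∑' a n ph ξ n` for every `ξ`, dominated by
`(∑' ‖a n‖)²/(1+ξ²)`: `tendsto_integral_of_dominated_convergence`, `ge_of_tendsto`.
-/

set_option autoImplicit false

namespace Pool.Agent.MOM

open Finset MeasureTheory

private theorem sum_erase_eq (a : ℕ → ℂ) (h0 : a 0 = 0) (N : ℕ) (ξ : ℝ) :
    ∑ n ∈ (Finset.range N).erase 0, a n * ph ξ n = ∑ n ∈ Finset.range N, a n * ph ξ n := by
  refine Finset.sum_erase _ ?_
  rw [h0, zero_mul]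

private theorem summable_term {a : ℕ → ℂ} (hs : Summable (fun n => ‖a n‖)) (ξ : ℝ) :
    Summable (fun n => a n * ph ξ n) := by
  refine Summable.of_norm ?_
  have : (fun n => ‖a n * ph ξ n‖) = fun n => ‖a n‖ := by
    funext n
    rw [norm_mul, norm_ph, mul_one]
  rw [this]
  exact hs

private theorem norm_part_le {a : ℕ → ℂ} (hs : Summable (fun n => ‖a n‖)) (N : ℕ) (ξ : ℝ) :
    ‖∑ n ∈ Finset.range N, a n * ph ξ n‖ ≤ ∑' n, ‖a n‖ := by
  refine (norm_sum_le _ _).trans ?_
  have h1 : ∑ n ∈ Finset.range N, ‖a n * ph ξ n‖ = ∑ n ∈ Finset.range N, ‖a n‖ := by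
    refine Finset.sum_congr rfl fun n _ => ?_
    rw [norm_mul, norm_ph, mul_one]
  rw [h1]
  exact hs.sum_le_tsum _ fun n _ => norm_nonneg _

private theorem tendsto_int {a : ℕ → ℂ} (h0 : a 0 = 0) (hs : Summable (fun n => ‖a n‖)) :
    Filter.Tendsto (fun N : ℕ => ∫ ξ : ℝ,
      ‖∑ n ∈ (Finset.range N).erase 0, a n * ph ξ n‖ ^ 2 / (1 + ξ ^ 2)) Filter.atTop
      (nhds (∫ ξ : ℝ, ‖∑' n, a n * ph ξ n‖ ^ 2 / (1 + ξ ^ 2))) := by
  refine tendsto_integral_of_dominated_convergence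
    (fun ξ : ℝ => (∑' n, ‖a n‖) ^ 2 * (1 + ξ ^ 2)⁻¹) ?_ ?_ ?_ ?_
  · intro N
    refine Continuous.aestronglyMeasurable ?_
    refine Continuous.div ?_ (by fun_prop) ?_
    · refine Continuous.pow (Continuous.norm ?_) 2
      exact continuous_finsetSum _ fun n _ => continuous_const.mul (continuous_ph n)
    · intro ξ
      positivity
  · exact integrable_inv_one_add_sq.const_mul _
  · intro N
    refine Filter.Eventually.of_forall fun ξ => ?_
    rw [sum_erase_eq a h0, Real.norm_of_nonneg (by positivity), div_eq_mul_inv]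
    refine mul_le_mul_of_nonneg_right ?_ (by positivity)
    exact pow_le_pow_left₀ (norm_nonneg _) (norm_part_le hs N ξ) 2
  · refine Filter.Eventually.of_forall fun ξ => ?_
    have h1 := (summable_term hs ξ).hasSum.tendsto_sum_nat
    have h2 : Filter.Tendsto (fun N : ℕ =>
        ‖∑ n ∈ Finset.range N, a n * ph ξ n‖ ^ 2 / (1 + ξ ^ 2)) Filter.atTop
        (nhds (‖∑' n, a n * ph ξ n‖ ^ 2 / (1 + ξ ^ 2))) :=
      ((h1.norm).pow 2).div_const _
    refine h2.congr fun N => ?_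
    rw [sum_erase_eq a h0]

theorem plancherel_box : ∃ C : ℝ, 0 < C ∧ ∀ lam : ℝ, 1 < lam → lam ≤ 2 → ∀ a : ℕ → ℂ,
    a 0 = 0 → Summable (fun n => ‖a n‖) → ∀ y1 y2 : ℝ, y1 ≤ y2 →
      ∫ y in y1..y2, ‖∑ n ∈ win (Real.exp y) (lam * Real.exp y), a n‖ ^ 2 ≤
        C * ∫ ξ : ℝ, ‖∑' n, a n * ph ξ n‖ ^ 2 / (1 + ξ ^ 2) := by
  refine ⟨5 / (2 * c0), div_pos (by norm_num) (mul_pos (by norm_num) c0_pos), ?_⟩
  intro lam hl hl2 a h0 hs y1 y2 hy
  have ht := (tendsto_int h0 hs).const_mul (5 / (2 * c0))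
  refine ge_of_tendsto ht ?_
  filter_upwards [Filter.eventually_gt_atTop ⌊lam * Real.exp y2⌋₊] with N hN
  have hfin := plan_fin hl hl2 ((Finset.range N).erase 0) (by simp) a y1 y2 hy
  refine le_trans (le_of_eq ?_) hfin
  refine intervalIntegral.integral_congr fun y hyy => ?_
  rw [Set.uIcc_of_le hy] at hyy
  have hfil : ((Finset.range N).erase 0).filter (· ∈ win (Real.exp y) (lam * Real.exp y)) =
      win (Real.exp y) (lam * Real.exp y) := by
    ext n
    rw [Finset.mem_filter, and_iff_right_iff_imp]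
    intro hn
    have hn2 := (mem_win (Real.exp_pos y).le).1 hn
    rw [Finset.mem_erase, Finset.mem_range]
    refine ⟨?_, ?_⟩
    · rintro rfl
      have := Real.exp_pos y
      have h3 := hn2.1
      rw [Nat.cast_zero] at h3
      linarith
    · refine lt_of_le_of_lt (Nat.le_floor ?_) hN
      refine hn2.2.trans ?_
      refine mul_le_mul_of_nonneg_left (Real.exp_le_exp.2 hyy.2) (by linarith)
  simp only [hfil]

end Pool.Agent.MOM
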