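import Pool.Agent.MOM.Hal.FLms
import Pool.Agent.MOM.Hal.Plan
import Pool.Agent.MOM.Hal.DDle

/-!
MOM, HAL part 8b: mean square of the window sums.
-/

set_option autoImplicit false

namespace Pool.Agent.MOM

open Finset MeasureTheory

theorem DD_ms {lam : ℝ} (hl : 1 < lam) (hl2 : lam ≤ 2) (ε A δ : ℝ) (hε : 0 < ε) (hε1 : ε < 1)
    (hA : 1 ≤ A) (hδ : 0 < δ) :
    ∃ Y0 : ℝ, 1 ≤ Y0 ∧ ∀ Y : ℝ, Y0 ≤ Y → ∀ Q : Finset ℕ,
      (∀ p ∈ Q, p.Prime ∧ Real.exp (ε ^ 2 * Y) ≤ p ∧ (p : ℝ) < Real.exp (ε * Y)) →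
      ∀ θ : ℝ, 0 ≤ θ → θ ≤ 1 → ∀ t : ℝ, |t| ≤ Real.exp (A * Y) →
        ∫ y in (Y / 8)..Y, ‖DD lam (ff Q θ) t y‖ ^ 2 ≤ δ * Y := by
  obtain ⟨C, hC, hplan⟩ := plancherel_box
  obtain ⟨Y1, hY1, hFL⟩ := FL_ms ε A (δ / (9216 * C)) hε hε1 hA (by positivity)
  refine ⟨max Y1 (9216 / δ), le_max_of_le_left hY1, fun Y hY Q hQ θ h0 h1 t ht => ?_⟩
  have hYY1 : Y1 ≤ Y := (le_max_left _ _).trans hY
  have hYd : 9216 / δ ≤ Y := (le_max_right _ _).trans hY
  have hY : 1 ≤ Y := hY1.trans hYY1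
  have hY0 : 0 < Y := by linarith
  have hσ : 0 < 1 / Y := by positivity
  have hf : ∀ n, ‖ff Q θ n‖ ≤ 1 := fun n => norm_ff_le Q h0 h1 n
  set a : ℕ → ℂ := fun n => ff Q θ n * (Real.log n : ℂ) * dt (1 / Y) t n with ha
  have hsum : Summable fun n => ‖a n‖ := summable_FL hf hσ t
  have ha0 : a 0 = 0 := by
    simp only [ha]
    rw [ff_zero, zero_mul, zero_mul]
  set g : ℝ → ℝ := fun y => ‖∑ n ∈ win (Real.exp y) (lam * Real.exp y), a n‖ ^ 2 with hg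
  have hgm : Measurable g := (measurable_winSum lam a).norm.pow_const 2
  have hgb : ∀ y, g y ≤ (∑' n, ‖a n‖) ^ 2 := by
    intro y
    refine pow_le_pow_left₀ (norm_nonneg _) ?_ 2
    exact (norm_sum_le _ _).trans (hsum.sum_le_tsum _ fun n _ => norm_nonneg _)
  have hg0 : ∀ y, 0 ≤ g y := fun y => by positivity
  have hle : Y / 8 ≤ Y := by linarith
  have hgi : IntervalIntegrable g volume (Y / 8) Y := by
    refine (intervalIntegrable_const (c := (∑' n, ‖a n‖) ^ 2)).mono_fun'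
      hgm.aestronglyMeasurable (Filter.Eventually.of_forall fun y => ?_)
    show ‖g y‖ ≤ _
    rw [Real.norm_eq_abs, abs_of_nonneg (hg0 y)]
    exact hgb y
  have hGi : IntervalIntegrable (fun y => 4608 / Y ^ 2 * (g y + 1)) volume (Y / 8) Y :=
    (hgi.add intervalIntegrable_const).const_mul _
  have hDi : IntervalIntegrable (fun y => ‖DD lam (ff Q θ) t y‖ ^ 2) volume (Y / 8) Y := by
    refine hGi.mono_fun' ((measurable_DD lam _ t).norm.pow_const 2).aestronglyMeasurable ?_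
    rw [Set.uIoc_of_le hle]
    filter_upwards [ae_restrict_mem measurableSet_Ioc] with y hy
    rw [Real.norm_eq_abs, abs_of_nonneg (by positivity)]
    exact DD_le hl hl2 hf t hY hy.1.le hy.2
  have hmono : ∫ y in (Y / 8)..Y, ‖DD lam (ff Q θ) t y‖ ^ 2 ≤
      ∫ y in (Y / 8)..Y, 4608 / Y ^ 2 * (g y + 1) :=
    intervalIntegral.integral_mono_on hle hDi hGi fun y hy =>
      DD_le hl hl2 hf t hY hy.1 hy.2
  refine hmono.trans ?_
  rw [intervalIntegral.integral_const_mul, intervalIntegral.integral_add hgi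
    intervalIntegrable_const]
  have hp := hplan lam hl hl2 a ha0 hsum (Y / 8) Y hle
  have hF := hFL Y hYY1 Q hQ θ h0 h1 t ht
  have heq : ∀ ξ : ℝ, ∑' n, a n * ph ξ n = FL (ff Q θ) (1 / Y) (t + ξ) := by
    intro ξ
    unfold FL
    refine tsum_congr fun n => ?_
    simp only [ha]
    rw [dt_add]
    ring
  simp_rw [heq] at hp
  have h2 : ∫ y in (Y / 8)..Y, g y ≤ C * (δ / (9216 * C) * Y ^ 3) :=
    hp.trans (mul_le_mul_of_nonneg_left hF hC.le)
  have h3 : ∫ y in (Y / 8)..Y, (1 : ℝ) ≤ Y := by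
    simp only [intervalIntegral.integral_const, smul_eq_mul, mul_one]
    linarith
  have h4 : C * (δ / (9216 * C) * Y ^ 3) = δ / 9216 * Y ^ 3 := by field_simp
  have h5 : 4608 / Y ^ 2 * ((∫ y in (Y / 8)..Y, g y) + ∫ y in (Y / 8)..Y, (1 : ℝ)) ≤
      4608 / Y ^ 2 * (δ / 9216 * Y ^ 3 + Y) := by
    refine mul_le_mul_of_nonneg_left ?_ (by positivity)
    rw [h4] at h2
    exact add_le_add h2 h3
  refine h5.trans ?_
  have h6 : 4608 / Y ^ 2 * (δ / 9216 * Y ^ 3 + Y) = δ * Y / 2 + 4608 / Y := by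
    field_simp
    ring
  rw [h6]
  have h7 : 9216 ≤ δ * Y := by
    rw [div_le_iff₀ hδ] at hYd
    linarith
  have h8 : 4608 / Y ≤ 4608 := by
    rw [div_le_iff₀ hY0]
    nlinarith
  linarith

end Pool.Agent.MOM
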