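import Pool.Agent.MOM.Hal.Base

/-!
MOM, HAL part 4a: Euler product upper bound for `∑ f(n) n^{-1-σ-it}`, `f = μ θ^{ω_Q}`.

PROOF. Apply Mathlib `EulerProduct.eulerProduct_hasProd` (or `EulerProduct.eulerProduct`, the
version
with `tendsto` of finite products over `Nat.primesBelow N`) to `g n = f n * dt σ t n`: `g 1 = 1`,
`g 0 = 0`, multiplicative on coprime pairs (`ff_mul`, `dt_mul`), norm summable (`summable_FF`). For
a
prime `p`: `∑' e, g (p^e) = 1 + z_p`, `z_p = f p dt σ t p` (for `e ≥ 2`, `p^e` is not squarefree: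
`ff_of_not_squarefree`). For complex `z`: `‖1+z‖² = 1 + 2 Re z + ‖z‖² ≤ exp(2 Re z + ‖z‖²)`, so
`‖∏_{p<N} (1+z_p)‖ ≤ exp(∑_{p<N} Re z_p + (1/2) ∑_{p<N} ‖z_p‖²) ≤ exp(∑_{p<N} Re z_p + 1)`
(`‖z_p‖ ≤ 1/p`, `∑_{n≥1} 1/n² ≤ 2`). Let `N → ∞`: `∑_{p<N} Re z_p → PR f σ t` (`summable_PR`,
as a sum over `Nat.Primes`).
-/

set_option autoImplicit false

namespace Pool.Agent.MOM

open Finset

private theorem norm_one_add_le (z : ℂ) : ‖1 + z‖ ≤ Real.exp (z.re + ‖z‖ ^ 2 / 2) := by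
  rw [← sq_le_sq₀ (norm_nonneg _) (Real.exp_pos _).le]
  have h1 : ‖1 + z‖ ^ 2 = 1 + 2 * z.re + ‖z‖ ^ 2 := by
    rw [Complex.sq_norm, Complex.sq_norm, Complex.normSq_apply, Complex.normSq_apply]
    simp only [Complex.add_re, Complex.one_re, Complex.add_im, Complex.one_im]
    ring
  have h2 : Real.exp (z.re + ‖z‖ ^ 2 / 2) ^ 2 = Real.exp (2 * z.re + ‖z‖ ^ 2) := by
    rw [← Real.exp_nat_mul]
    congr 1
    push_cast
    ring
  rw [h1, h2]
  have h3 := Real.add_one_le_exp (2 * z.re + ‖z‖ ^ 2)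
  linarith

private theorem sum_sq_le (s : Finset Nat.Primes) : ∑ p ∈ s, 1 / ((p : ℕ) : ℝ) ^ 2 ≤ 2 := by
  have h1 : ∑ p ∈ s, 1 / ((p : ℕ) : ℝ) ^ 2 =
      ∑ n ∈ s.map ⟨fun p : Nat.Primes => (p : ℕ), Nat.Primes.coe_nat_injective⟩,
        1 / (n : ℝ) ^ 2 := by
    rw [Finset.sum_map]
    rfl
  rw [h1]
  have h2 := sum_le_hasSum (s.map ⟨fun p : Nat.Primes => (p : ℕ), Nat.Primes.coe_nat_injective⟩)
    (fun n _ => by positivity) hasSum_zeta_two
  have h3 : Real.pi ^ 2 / 6 ≤ 2 := by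
    have h4 := Real.pi_lt_d2
    have h5 := Real.pi_pos
    nlinarith
  exact h2.trans h3

theorem FF_euler {Q : Finset ℕ} (hQ : ∀ p ∈ Q, p.Prime) {θ : ℝ} (h0 : 0 ≤ θ)
    (h1 : θ ≤ 1) {σ : ℝ} (hσ : 0 < σ) (t : ℝ) :
    ‖FF (ff Q θ) σ t‖ ≤ Real.exp (PR (ff Q θ) σ t + 1) := by
  have hf := norm_ff_le Q h0 h1
  set g : ℕ → ℂ := fun n => ff Q θ n * dt σ t n with hg
  have hg1 : g 1 = 1 := by
    simp only [hg]
    rw [ff_one hQ, dt_one_right, one_mul]
  have hg0 : g 0 = 0 := by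
    simp only [hg]
    rw [ff_zero, zero_mul]
  have hgm : ∀ {m n : ℕ}, Nat.Coprime m n → g (m * n) = g m * g n := by
    intro m n hmn
    simp only [hg]
    rw [ff_mul hQ θ hmn, dt_mul hσ]
    ring
  have hprod := EulerProduct.eulerProduct_hasProd hg1 hgm (summable_FF hf hσ t) hg0
  have hfac : ∀ p : Nat.Primes, ∑' e, g ((p : ℕ) ^ e) = 1 + g p := by
    intro p
    rw [tsum_eq_sum (s := Finset.range 2)]
    · rw [Finset.sum_range_succ, Finset.sum_range_one, pow_zero, pow_one, hg1]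
    · intro e he
      have he2 : 2 ≤ e := by
        by_contra h
        exact he (Finset.mem_range.2 (by omega))
      have hns : ¬ Squarefree ((p : ℕ) ^ e) := by
        intro hsq
        have h2 : (p : ℕ) * (p : ℕ) ∣ (p : ℕ) ^ e := by
          rw [← sq]
          exact pow_dvd_pow _ he2
        exact p.2.one_lt.ne' (Nat.isUnit_iff.1 (hsq _ h2))
      simp only [hg]
      rw [ff_of_not_squarefree Q θ hns, zero_mul]
  simp only [hfac] at hprod
  have hbd : ∀ s : Finset Nat.Primes, ‖∏ p ∈ s, (1 + g p)‖ ≤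
      Real.exp ((∑ p ∈ s, (g p).re) + 1) := by
    intro s
    rw [norm_prod]
    have h2 : ∏ p ∈ s, ‖1 + g p‖ ≤ ∏ p ∈ s, Real.exp ((g p).re + ‖g p‖ ^ 2 / 2) :=
      Finset.prod_le_prod (fun p _ => norm_nonneg _) (fun p _ => norm_one_add_le _)
    refine h2.trans ?_
    rw [← Real.exp_sum, Finset.sum_add_distrib]
    apply Real.exp_le_exp.2
    have h3 : ∑ p ∈ s, ‖g p‖ ^ 2 / 2 ≤ ∑ p ∈ s, (1 / ((p : ℕ) : ℝ) ^ 2) / 2 := by
      refine Finset.sum_le_sum fun p _ => ?_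
      have hp0 : (0 : ℝ) < ((p : ℕ) : ℝ) := by exact_mod_cast p.2.pos
      have hp1 : (1 : ℝ) ≤ ((p : ℕ) : ℝ) := by exact_mod_cast p.2.one_lt.le
      have h4 : ‖g p‖ ≤ 1 / ((p : ℕ) : ℝ) := by
        simp only [hg]
        rw [norm_mul, norm_dt]
        refine (mul_le_of_le_one_left (Real.rpow_nonneg hp0.le _) (hf p)).trans ?_
        rw [one_div, ← Real.rpow_neg_one]
        exact Real.rpow_le_rpow_of_exponent_le hp1 (by linarith)
      have h5 : ‖g p‖ ^ 2 ≤ (1 / ((p : ℕ) : ℝ)) ^ 2 := pow_le_pow_left₀ (norm_nonneg _) h4 2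
      rw [div_pow, one_pow] at h5
      linarith
    rw [← Finset.sum_div] at h3
    have h6 := sum_sq_le s
    rw [← Finset.sum_div] at h3
    rw [← Finset.sum_div]
    linarith
  have hsum : HasSum (fun p : Nat.Primes => (g p).re) (PR (ff Q θ) σ t) :=
    (summable_PR hf hσ t).hasSum
  have hl1 : Filter.Tendsto (fun s : Finset Nat.Primes => ‖∏ p ∈ s, (1 + g p)‖) Filter.atTop
      (nhds ‖FF (ff Q θ) σ t‖) := by
    have h7 : Filter.Tendsto (fun s : Finset Nat.Primes => ∏ p ∈ s, (1 + g p)) Filter.atTop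
        (nhds (FF (ff Q θ) σ t)) := by
      have hFF : FF (ff Q θ) σ t = ∑' n, g n := rfl
      rw [hFF]
      simpa [HasProd] using hprod
    exact h7.norm
  have hl2 : Filter.Tendsto (fun s : Finset Nat.Primes => Real.exp ((∑ p ∈ s, (g p).re) + 1))
      Filter.atTop (nhds (Real.exp (PR (ff Q θ) σ t + 1))) := by
    have h8 : Filter.Tendsto (fun s : Finset Nat.Primes => ∑ p ∈ s, (g p).re) Filter.atTop
        (nhds (PR (ff Q θ) σ t)) := by
      simpa [HasSum] using hsum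
    exact (Real.continuous_exp.tendsto _).comp (h8.add_const 1)
  exact le_of_tendsto_of_tendsto' hl1 hl2 hbd

end Pool.Agent.MOM
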