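import Pool.Agent.MOM.Hal.Base

/-!
MOM, HAL part 4b: `FF 1` is the Riemann zeta function; its Euler product.

PROOF of `FF_one_eq_zeta`: Mathlib `zeta_eq_tsum_one_div_nat_cpow`; termwise for `n ≥ 1`:
`n^{-(1+σ+it)} = exp(-(1+σ+it) log n)` (`Complex.cpow_def`, `Complex.natCast_log`,
`Real.rpow_def_of_pos`), for `n = 0` both are `0`.
PROOF of `zeta_euler`: Mathlib `riemannZeta_eulerProduct_exp_log` (`exp (∑' p, -log (1 - p^{-s})) =
ζ(s)`) or the finite products. With `z_p = dt σ t p`, `‖z_p‖ ≤ 1/p ≤ 1/2`: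
`‖-log(1 - z_p) - z_p‖ ≤ ‖z_p‖²` (Mathlib `Complex.norm_log_one_add_sub_self_le` at `-z_p`:
`‖z‖² (1-‖z‖)⁻¹/2`) and `∑_p ‖z_p‖² ≤ ∑_{n ≥ 2} 1/n² ≤ 1`; `‖exp w‖ = exp (Re w)`.
-/

set_option autoImplicit false

namespace Pool.Agent.MOM

open Finset

private theorem eulZ_re (σ t : ℝ) : (1 + (σ : ℂ) + (t : ℂ) * Complex.I).re = 1 + σ := by
  simp

private theorem eulZ_dt (σ t : ℝ) {n : ℕ} (hn : n ≠ 0) :
    dt σ t n = (n : ℂ) ^ (-(1 + (σ : ℂ) + (t : ℂ) * Complex.I)) := by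
  have hn0 : (0 : ℝ) < n := by exact_mod_cast Nat.pos_of_ne_zero hn
  have hnc : (n : ℂ) ≠ 0 := by exact_mod_cast hn
  unfold dt ph
  rw [Complex.cpow_def_of_ne_zero hnc, Real.rpow_def_of_pos hn0, Complex.ofReal_exp,
    ← Complex.exp_add, ← Complex.natCast_log]
  congr 1
  push_cast
  ring

theorem FF_one_eq_zeta {σ : ℝ} (hσ : 0 < σ) (t : ℝ) :
    FF (fun _ => 1) σ t = riemannZeta (1 + (σ : ℂ) + (t : ℂ) * Complex.I) := by
  have hre : 1 < (1 + (σ : ℂ) + (t : ℂ) * Complex.I).re := by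
    rw [eulZ_re]
    linarith
  rw [zeta_eq_tsum_one_div_nat_cpow hre]
  unfold FF
  refine tsum_congr fun n => ?_
  rw [one_mul]
  rcases eq_or_ne n 0 with rfl | hn
  · rw [dt_zero_right hσ, Nat.cast_zero, Complex.zero_cpow, div_zero]
    intro h
    rw [h, Complex.zero_re] at hre
    linarith
  · rw [eulZ_dt σ t hn, Complex.cpow_neg, one_div]

private theorem eulZ_sq_hasSum :
    HasSum (fun n : ℕ => 1 / (n : ℝ) ^ 2 - if n = 1 then (1 : ℝ) else 0)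
      (Real.pi ^ 2 / 6 - 1) :=
  hasSum_zeta_two.sub (hasSum_ite_eq 1 1)

private theorem eulZ_sq : (Summable fun p : Nat.Primes => 1 / (p : ℝ) ^ 2) ∧
    ∑' p : Nat.Primes, 1 / (p : ℝ) ^ 2 ≤ 1 := by
  have h0 : ∀ n : ℕ, 0 ≤ 1 / (n : ℝ) ^ 2 - if n = 1 then (1 : ℝ) else 0 := by
    intro n
    split_ifs with h
    · subst h
      norm_num
    · rw [sub_zero]
      positivity
  have h1 : ∀ p : Nat.Primes, (1 / ((p : ℕ) : ℝ) ^ 2 - if (p : ℕ) = 1 then (1 : ℝ) else 0) =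
      1 / ((p : ℕ) : ℝ) ^ 2 := by
    intro p
    rw [if_neg p.2.one_lt.ne', sub_zero]
  have h2 : Summable fun p : Nat.Primes =>
      (1 / ((p : ℕ) : ℝ) ^ 2 - if (p : ℕ) = 1 then (1 : ℝ) else 0) :=
    eulZ_sq_hasSum.summable.subtype {p : ℕ | p.Prime}
  have h3 : ∑' p : Nat.Primes,
      (1 / ((p : ℕ) : ℝ) ^ 2 - if (p : ℕ) = 1 then (1 : ℝ) else 0) ≤ Real.pi ^ 2 / 6 - 1 := by
    rw [← eulZ_sq_hasSum.tsum_eq]
    exact Summable.tsum_subtype_le _ {p : ℕ | p.Prime} h0 eulZ_sq_hasSum.summable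
  simp only [h1] at h2 h3
  refine ⟨h2, h3.trans ?_⟩
  have h4 := Real.pi_lt_d2
  have h5 := Real.pi_pos
  nlinarith

theorem zeta_euler {σ : ℝ} (hσ : 0 < σ) (t : ℝ) :
    Real.exp (PR (fun _ => 1) σ t - 1) ≤ ‖FF (fun _ => 1) σ t‖ ∧
      ‖FF (fun _ => 1) σ t‖ ≤ Real.exp (PR (fun _ => 1) σ t + 1) := by
  have hre : 1 < (1 + (σ : ℂ) + (t : ℂ) * Complex.I).re := by
    rw [eulZ_re]
    linarith
  have h1 := riemannZeta_eulerProduct_exp_log hre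
  have h2 : ∀ p : Nat.Primes,
      ((p : ℕ) : ℂ) ^ (-(1 + (σ : ℂ) + (t : ℂ) * Complex.I)) = dt σ t p :=
    fun p => (eulZ_dt σ t p.2.ne_zero).symm
  simp only [h2] at h1
  rw [FF_one_eq_zeta hσ, ← h1, Complex.norm_exp]
  set z : Nat.Primes → ℂ := fun p => dt σ t p with hz
  set e : Nat.Primes → ℂ := fun p => -Complex.log (1 - z p) - z p with he
  have hzn : ∀ p, ‖z p‖ ≤ 1 / ((p : ℕ) : ℝ) := by
    intro p
    have hp1 : (1 : ℝ) ≤ ((p : ℕ) : ℝ) := by exact_mod_cast p.2.one_lt.le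
    rw [hz]
    simp only
    rw [norm_dt, one_div, ← Real.rpow_neg_one]
    exact Real.rpow_le_rpow_of_exponent_le hp1 (by linarith)
  have hz2 : ∀ p, ‖z p‖ ≤ 1 / 2 := by
    intro p
    have hp2 : (2 : ℝ) ≤ ((p : ℕ) : ℝ) := by exact_mod_cast p.2.two_le
    exact (hzn p).trans (one_div_le_one_div_of_le (by norm_num) hp2)
  have hen : ∀ p, ‖e p‖ ≤ 1 / ((p : ℕ) : ℝ) ^ 2 := by
    intro p
    have h3 := Complex.norm_log_one_add_sub_self_le (z := -z p) (by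
      rw [norm_neg]
      linarith [hz2 p])
    rw [norm_neg] at h3
    have h4 : e p = -(Complex.log (1 + -z p) - -z p) := by
      rw [he]
      simp only
      rw [← sub_eq_add_neg]
      ring
    rw [h4, norm_neg]
    have h5 : (1 - ‖z p‖)⁻¹ / 2 ≤ 1 := by
      have h6 : (1 - ‖z p‖)⁻¹ ≤ 2 := by
        have h7 : (1 : ℝ) / 2 ≤ 1 - ‖z p‖ := by linarith [hz2 p]
        calc (1 - ‖z p‖)⁻¹ ≤ ((1 : ℝ) / 2)⁻¹ := inv_anti₀ (by norm_num) h7
          _ = 2 := by norm_num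
      linarith
    have h6 : ‖z p‖ ^ 2 ≤ 1 / ((p : ℕ) : ℝ) ^ 2 := by
      calc ‖z p‖ ^ 2 ≤ (1 / ((p : ℕ) : ℝ)) ^ 2 := pow_le_pow_left₀ (norm_nonneg _) (hzn p) 2
        _ = _ := by rw [div_pow, one_pow]
    calc ‖Complex.log (1 + -z p) - -z p‖ ≤ ‖z p‖ ^ 2 * (1 - ‖z p‖)⁻¹ / 2 := h3
      _ = ‖z p‖ ^ 2 * ((1 - ‖z p‖)⁻¹ / 2) := by ring
      _ ≤ ‖z p‖ ^ 2 * 1 := mul_le_mul_of_nonneg_left h5 (sq_nonneg _)
      _ ≤ 1 / ((p : ℕ) : ℝ) ^ 2 := by rw [mul_one]; exact h6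
  obtain ⟨hs, hs1⟩ := eulZ_sq
  have hes : Summable e := Summable.of_norm_bounded hs hen
  have hzs : Summable z := by
    have h3 : Summable fun p : Nat.Primes => ‖(fun _ : ℕ => (1 : ℂ)) p * dt σ t p‖ :=
      (summable_FF (f := fun _ => 1) (fun _ => by simp) hσ t).subtype {p : ℕ | p.Prime}
    refine Summable.of_norm_bounded h3 fun p => ?_
    simp only [one_mul]
    exact le_rfl
  have hsplit : ∑' p : Nat.Primes, -Complex.log (1 - dt σ t p) = ∑' p, z p + ∑' p, e p := by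
    rw [← hzs.tsum_add hes]
    refine tsum_congr fun p => ?_
    simp only [he, hz]
    ring
  have hPR : PR (fun _ => 1) σ t = (∑' p, z p).re := by
    rw [Complex.re_tsum hzs]
    unfold PR
    refine tsum_congr fun p => ?_
    rw [one_mul]
  have hee : |(∑' p, e p).re| ≤ 1 := by
    refine (Complex.abs_re_le_norm _).trans ?_
    refine (norm_tsum_le_tsum_norm hes.norm).trans ?_
    exact (hes.norm.tsum_le_tsum hen hs).trans hs1
  rw [abs_le] at hee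
  rw [hsplit, Complex.add_re, hPR]
  constructor
  · exact Real.exp_le_exp.2 (by linarith [hee.1])
  · exact Real.exp_le_exp.2 (by linarith [hee.2])

end Pool.Agent.MOM
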