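import Pool.Agent.MOM.Hal.Mult

/-!
MOM, HAL part 3b: the logarithmic derivative bound
`|∑ f(n) log n n^{-s}| ≤ |F(s)| (|∑_p f(p) log p p^{-s}| + 8)`.

PROOF. `f = ff Q θ`, `z_p = f p dt σ t p`, `G_p = ∑' n, if p ∣ n then f n dt n else 0`; (1) is
`multiples_sum`: `‖G_p - z_p F‖ ≤ (2/p²) ‖F‖`.
(2) For squarefree `n`: `log n = ∑_{p ∣ n} log p` (`n = ∏_{p ∈ n.primeFactors} p`,
`Nat.prod_primeFactors_of_squarefree`, `Real.log_prod`), and `f n = 0` otherwise; so
`FL f σ t = ∑' n, ∑_{p ∈ n.primeFactors} log p f n dt n = ∑' n, ∑' p : Nat.Primes,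
(if p ∣ n then log p f n dt n else 0)`. The double family is absolutely summable:
`∑_p ‖..‖ ≤ log n · n^{-(1+σ)}` if `n` is squarefree (zero otherwise) and `summable_log_rpow`. So it
may
be summed in the other order (`Summable.tsum_comm`): `FL = ∑' p, log p G_p`.
(3) `‖FL - F·PP f σ t‖ = ‖∑' p, log p (G_p - z_p F)‖ ≤ ‖F‖ ∑'_p 2 log p/p² ≤ 4 ‖F‖`
(`2 log p/p² ≤ 2·(2 √p)/p² = 4 p^{-3/2}` is too big to sum to `4`; use instead `∑_p log p/p² ≤ 2`:
for instance `log p ≤ 2 √p` gives `∑_{n ≥ 2} 2 n^{-3/2} ≤ 2·(∫_1^∞ x^{-3/2} dx) = 4`; so the constant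
`8` is what this crude estimate gives: the statement uses `8`).
-/

set_option autoImplicit false

namespace Pool.Agent.MOM

open Finset

private theorem step_le (N : ℕ) :
    Real.log ((N + 2 : ℕ) : ℝ) / ((N + 2 : ℕ) : ℝ) ^ 2 ≤
      4 / Real.sqrt (N + 1) - 4 / Real.sqrt (N + 2) := by
  have hs0 : 0 < Real.sqrt ((N : ℝ) + 1) := Real.sqrt_pos.2 (by positivity)
  have hu0 : 0 < Real.sqrt ((N : ℝ) + 2) := Real.sqrt_pos.2 (by positivity)
  have hs : Real.sqrt ((N : ℝ) + 1) ^ 2 = N + 1 := Real.sq_sqrt (by positivity)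
  have hu : Real.sqrt ((N : ℝ) + 2) ^ 2 = N + 2 := Real.sq_sqrt (by positivity)
  have hsu : Real.sqrt ((N : ℝ) + 1) ≤ Real.sqrt ((N : ℝ) + 2) :=
    Real.sqrt_le_sqrt (by linarith)
  generalize Real.sqrt ((N : ℝ) + 1) = s at *
  generalize Real.sqrt ((N : ℝ) + 2) = u at *
  have hne : ((N + 2 : ℕ) : ℝ) = u ^ 2 := by
    push_cast
    exact hu.symm
  have hlog : Real.log (u ^ 2) ≤ 2 * u := by
    have h1 := Real.log_le_sub_one_of_pos hu0
    rw [Real.log_pow]
    push_cast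
    linarith
  have h3 : 0 ≤ 4 * u ^ 2 * (u - s) - 2 * s := by
    have h4 : (u - s) * (u + s) = 1 := by nlinarith
    have h5 : 1 ≤ 2 * u * (u - s) := by nlinarith [mul_nonneg (sub_nonneg.2 hsu) (sub_nonneg.2 hsu)]
    nlinarith
  rw [hne]
  have h6 : 4 / s - 4 / u - 2 * u / (u ^ 2) ^ 2 =
      (4 * u ^ 2 * (u - s) - 2 * s) / (s * u ^ 3) := by
    field_simp
  have h7 : 0 ≤ 4 / s - 4 / u - 2 * u / (u ^ 2) ^ 2 := by
    rw [h6]
    positivity
  have h8 : Real.log (u ^ 2) / (u ^ 2) ^ 2 ≤ 2 * u / (u ^ 2) ^ 2 :=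
    div_le_div_of_nonneg_right hlog (by positivity)
  linarith

private theorem part_le (N : ℕ) :
    ∑ i ∈ range (N + 2), Set.indicator {p : ℕ | p.Prime}
      (fun i : ℕ => Real.log i / (i : ℝ) ^ 2) i ≤ 4 - 4 / Real.sqrt (N + 1) := by
  induction N with
  | zero =>
    rw [Finset.sum_eq_zero]
    · simp
    · intro i hi
      refine Set.indicator_of_notMem ?_ _
      intro hp
      have hp2 : 2 ≤ i := Nat.Prime.two_le hp
      rw [mem_range] at hi
      omega
  | succ N ih =>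
    rw [show N + 1 + 2 = (N + 2) + 1 from rfl, Finset.sum_range_succ]
    have h1 : Set.indicator {p : ℕ | p.Prime} (fun i : ℕ => Real.log i / (i : ℝ) ^ 2) (N + 2) ≤
        Real.log ((N + 2 : ℕ) : ℝ) / ((N + 2 : ℕ) : ℝ) ^ 2 := by
      by_cases hp : (N + 2) ∈ {p : ℕ | p.Prime}
      · rw [Set.indicator_of_mem hp]
      · rw [Set.indicator_of_notMem hp]
        exact div_nonneg (Real.log_natCast_nonneg _) (by positivity)
    have h2 := step_le N
    have h3 : (((N + 1 : ℕ) : ℝ) + 1) = (N : ℝ) + 2 := by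
      push_cast
      ring
    rw [h3]
    linarith

private theorem hasSum_logsq :
    Summable (fun p : Nat.Primes => Real.log (p : ℕ) / ((p : ℕ) : ℝ) ^ 2) ∧
    ∑' p : Nat.Primes, Real.log (p : ℕ) / ((p : ℕ) : ℝ) ^ 2 ≤ 4 := by
  have h0 : ∀ n : ℕ, 0 ≤ Set.indicator {p : ℕ | p.Prime}
      (fun i : ℕ => Real.log i / (i : ℝ) ^ 2) n := by
    intro n
    refine Set.indicator_nonneg (fun i _ => ?_) n
    exact div_nonneg (Real.log_natCast_nonneg _) (by positivity)
  have h1 : ∀ n : ℕ, ∑ i ∈ range n, Set.indicator {p : ℕ | p.Prime}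
      (fun i : ℕ => Real.log i / (i : ℝ) ^ 2) i ≤ 4 := by
    intro n
    refine le_trans (Finset.sum_le_sum_of_subset_of_nonneg
      (Finset.range_mono (by omega : n ≤ n + 2)) fun i _ _ => h0 i) ?_
    refine (part_le n).trans ?_
    have : 0 ≤ 4 / Real.sqrt ((n : ℝ) + 1) := by positivity
    linarith
  have h2 := summable_of_sum_range_le h0 h1
  constructor
  · exact (summable_subtype_iff_indicator (f := fun i : ℕ => Real.log i / (i : ℝ) ^ 2)
      (s := {p : ℕ | p.Prime})).2 h2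
  · have h3 := Real.tsum_le_of_sum_range_le h0 h1
    rwa [← tsum_subtype {p : ℕ | p.Prime} (fun i : ℕ => Real.log i / (i : ℝ) ^ 2)] at h3

private theorem hasSum_log {n : ℕ} (hn : Squarefree n) :
    HasSum (fun p : Nat.Primes => if (p : ℕ) ∣ n then Real.log (p : ℕ) else 0)
      (Real.log n) := by
  have h1 : HasSum (fun p : ℕ => if p ∈ n.primeFactors then Real.log p else 0)
      (∑ p ∈ n.primeFactors, if p ∈ n.primeFactors then Real.log p else 0) :=
    hasSum_sum_of_ne_finset_zero fun b hb => if_neg hb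
  have h2 : (∑ p ∈ n.primeFactors, if p ∈ n.primeFactors then Real.log p else 0) =
      Real.log n := by
    rw [Finset.sum_congr rfl fun p hp => if_pos hp, ← Real.log_prod]
    · congr 1
      rw [← Nat.cast_prod, Nat.prod_primeFactors_of_squarefree hn]
    · intro p hp
      exact_mod_cast (Nat.prime_of_mem_primeFactors hp).ne_zero
  rw [h2] at h1
  have h3 : Function.support (fun p : ℕ => if p ∈ n.primeFactors then Real.log p else 0) ⊆
      {p : ℕ | p.Prime} := by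
    intro p hp
    by_cases h : p ∈ n.primeFactors
    · exact Nat.prime_of_mem_primeFactors h
    · exact absurd (if_neg h) hp
  have h4 := (hasSum_subtype_iff_of_support_subset h3).2 h1
  have h6 : (fun p : Nat.Primes => if (p : ℕ) ∣ n then Real.log (p : ℕ) else 0) =
      (fun p : ℕ => if p ∈ n.primeFactors then Real.log p else 0) ∘
        (Subtype.val : {p : ℕ | p.Prime} → ℕ) := by
    funext p
    have h5 : (p : ℕ) ∣ n ↔ (p : ℕ) ∈ n.primeFactors := by
      rw [Nat.mem_primeFactors]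
      exact ⟨fun h => ⟨p.2, h, hn.ne_zero⟩, fun h => h.2.1⟩
    by_cases h : (p : ℕ) ∣ n
    · rw [if_pos h]
      exact (if_pos (h5.1 h)).symm
    · rw [if_neg h]
      exact (if_neg fun h7 => h (h5.2 h7)).symm
  rw [h6]
  exact h4

theorem FL_le {Q : Finset ℕ} (hQ : ∀ p ∈ Q, p.Prime) {θ : ℝ} (h0 : 0 ≤ θ)
    (h1 : θ ≤ 1) {σ : ℝ} (hσ : 0 < σ) (t : ℝ) :
    ‖FL (ff Q θ) σ t‖ ≤ ‖FF (ff Q θ) σ t‖ * (‖PP (ff Q θ) σ t‖ + 8) := by
  set a : ℕ → ℂ := fun n => ff Q θ n * dt σ t n with ha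
  set w : ℕ → Nat.Primes → ℂ := fun n p =>
    (Real.log (p : ℕ) : ℂ) * (if (p : ℕ) ∣ n then a n else 0) with hw
  set F : ℂ := FF (ff Q θ) σ t with hF
  have hw1 : ∀ n p, w n p = ((if (p : ℕ) ∣ n then Real.log (p : ℕ) else 0 : ℝ) : ℂ) * a n := by
    intro n p
    simp only [hw]
    split_ifs <;> simp
  have hz : ∀ n, ¬ Squarefree n → a n = 0 := by
    intro n hn
    simp only [ha]
    rw [ff_of_not_squarefree Q θ hn, zero_mul]
  have hA : ∀ n, HasSum (fun p => w n p) ((Real.log n : ℂ) * a n) := by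
    intro n
    simp only [hw1]
    by_cases hn : Squarefree n
    · have h2 : HasSum (fun p : Nat.Primes =>
          ((if (p : ℕ) ∣ n then Real.log (p : ℕ) else 0 : ℝ) : ℂ)) (Real.log n : ℂ) :=
        Complex.hasSum_ofReal.2 (hasSum_log hn)
      exact h2.mul_right _
    · rw [hz n hn]
      simp only [mul_zero]
      exact hasSum_zero
  have hB : ∀ n, HasSum (fun p => ‖w n p‖) (Real.log n * ‖a n‖) := by
    intro n
    have e1 : ∀ p, ‖w n p‖ = (if (p : ℕ) ∣ n then Real.log (p : ℕ) else 0) * ‖a n‖ := by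
      intro p
      rw [hw1, norm_mul, Complex.norm_real, Real.norm_eq_abs, abs_of_nonneg]
      split_ifs
      · exact Real.log_natCast_nonneg _
      · exact le_rfl
    simp only [e1]
    by_cases hn : Squarefree n
    · exact (hasSum_log hn).mul_right _
    · rw [hz n hn]
      simp only [norm_zero, mul_zero]
      exact hasSum_zero
  have hlogs : Summable fun n : ℕ => Real.log n * ‖a n‖ := by
    refine (summable_FL (norm_ff_le Q h0 h1) hσ t).congr fun n => ?_
    simp only [ha]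
    rw [norm_mul, norm_mul, norm_mul, Complex.norm_real, Real.norm_eq_abs,
      abs_of_nonneg (Real.log_natCast_nonneg n)]
    ring
  have hsum : Summable (Function.uncurry w) := by
    refine Summable.of_norm ?_
    rw [summable_prod_of_nonneg fun q => norm_nonneg _]
    refine ⟨fun n => (hB n).summable, ?_⟩
    refine hlogs.congr fun n => ?_
    exact ((hB n).tsum_eq).symm
  have hFL : FL (ff Q θ) σ t = ∑' p : Nat.Primes, ∑' n, w n p := by
    rw [hsum.tsum_comm]
    unfold FL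
    refine tsum_congr fun n => ?_
    rw [(hA n).tsum_eq]
    simp only [ha]
    ring
  have hG : ∀ p : Nat.Primes, ∑' n, w n p =
      (Real.log (p : ℕ) : ℂ) * ∑' n : ℕ, (if (p : ℕ) ∣ n then a n else 0) := by
    intro p
    simp only [hw]
    rw [tsum_mul_left]
  have hs1 : Summable fun p : Nat.Primes => ∑' n, w n p := hsum.prod_symm.prod
  have hs2 : Summable fun p : Nat.Primes =>
      ff Q θ p * (Real.log (p : ℕ) : ℂ) * dt σ t p * F :=
    (summable_PP (norm_ff_le Q h0 h1) hσ t).of_norm.mul_right F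
  have hdiff : FL (ff Q θ) σ t - PP (ff Q θ) σ t * F =
      ∑' p : Nat.Primes, ((∑' n, w n p) -
        ff Q θ p * (Real.log (p : ℕ) : ℂ) * dt σ t p * F) := by
    rw [hs1.tsum_sub hs2, hFL]
    congr 1
    unfold PP
    rw [tsum_mul_right]
  obtain ⟨hq1, hq2⟩ := hasSum_logsq
  have hbd : ‖FL (ff Q θ) σ t - PP (ff Q θ) σ t * F‖ ≤
      (∑' p : Nat.Primes, Real.log (p : ℕ) / ((p : ℕ) : ℝ) ^ 2) * (2 * ‖F‖) := by
    rw [hdiff]
    refine tsum_of_norm_bounded (hq1.hasSum.mul_right (2 * ‖F‖)) fun p => ?_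
    rw [hG p]
    have h2 := multiples_sum hQ h0 h1 hσ t p.2
    have h3 : (Real.log (p : ℕ) : ℂ) * ∑' n : ℕ, (if (p : ℕ) ∣ n then a n else 0) -
        ff Q θ p * (Real.log (p : ℕ) : ℂ) * dt σ t p * F =
        (Real.log (p : ℕ) : ℂ) * (∑' n : ℕ, (if (p : ℕ) ∣ n then ff Q θ n * dt σ t n else 0) -
          ff Q θ p * dt σ t p * FF (ff Q θ) σ t) := by
      simp only [ha, hF]
      ring
    rw [h3, norm_mul, Complex.norm_real, Real.norm_eq_abs,
      abs_of_nonneg (Real.log_natCast_nonneg _)]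
    calc Real.log (p : ℕ) * ‖∑' n : ℕ, (if (p : ℕ) ∣ n then ff Q θ n * dt σ t n else 0) -
          ff Q θ p * dt σ t p * FF (ff Q θ) σ t‖
        ≤ Real.log (p : ℕ) * (2 / ((p : ℕ) : ℝ) ^ 2 * ‖FF (ff Q θ) σ t‖) :=
          mul_le_mul_of_nonneg_left h2 (Real.log_natCast_nonneg _)
      _ = Real.log (p : ℕ) / ((p : ℕ) : ℝ) ^ 2 * (2 * ‖F‖) := by
          rw [hF]
          ring
  have hbd2 : ‖FL (ff Q θ) σ t - PP (ff Q θ) σ t * F‖ ≤ 4 * (2 * ‖F‖) :=
    hbd.trans (mul_le_mul_of_nonneg_right hq2 (by positivity))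
  have hfin : ‖FL (ff Q θ) σ t‖ ≤ ‖FL (ff Q θ) σ t - PP (ff Q θ) σ t * F‖ +
      ‖PP (ff Q θ) σ t * F‖ := by
    have h5 := norm_add_le (FL (ff Q θ) σ t - PP (ff Q θ) σ t * F) (PP (ff Q θ) σ t * F)
    rwa [sub_add_cancel] at h5
  rw [norm_mul] at hfin
  nlinarith

end Pool.Agent.MOM
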