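import Pool.Agent.MOM.Hal.PPfin

/-!
MOM, HAL part 2d: mean square of `PP` over unit intervals.

PROOF of `PP_ms`. `PP f σ t = ∑' p : Nat.Primes, ...` is the limit of the partial sums over
`S_N = primes < N`, `‖PP f σ t - ∑_{S_N}‖ ≤ ∑_{n ≥ N} log n n^{-(1+σ)} → 0` uniformly in `t`
(`summable_log_rpow`); so `∫_u^{u+1} ‖∑_{S_N}‖² → ∫_u^{u+1} ‖PP‖²` (dominated convergence:
`intervalIntegral.tendsto_integral_filter_of_dominated_convergence`, bound
`(∑' log n n^{-(1+σ)})²`), and each term is `≤ C/σ` by `PP_ms_fin`.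
-/

set_option autoImplicit false

namespace Pool.Agent.MOM

open Finset MeasureTheory

theorem PP_ms : ∃ C : ℝ, 0 < C ∧ ∀ f : ℕ → ℂ, (∀ n, ‖f n‖ ≤ 1) → ∀ σ : ℝ, 0 < σ → σ ≤ 1 →
    ∀ u : ℝ, ∫ t in u..(u + 1), ‖PP f σ t‖ ^ 2 ≤ C / σ := by
  obtain ⟨C, hC, h⟩ := PP_ms_fin
  refine ⟨C, hC, fun f hf σ hσ hσ1 u => ?_⟩
  set b : Nat.Primes → ℝ := fun p => Real.log p * ((p : ℕ) : ℝ) ^ (-(1 + σ)) with hbdef
  have hb : Summable b := (summable_log_rpow hσ).subtype {p : ℕ | p.Prime}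
  have hb0 : ∀ p, 0 ≤ b p := fun p =>
    mul_nonneg (Real.log_natCast_nonneg _) (Real.rpow_nonneg (Nat.cast_nonneg _) _)
  have hlim : Filter.Tendsto (fun T : Finset Nat.Primes =>
      ∫ t in u..(u + 1), ‖∑ p ∈ T, f p * (Real.log p : ℂ) * dt σ t p‖ ^ 2) Filter.atTop
      (nhds (∫ t in u..(u + 1), ‖PP f σ t‖ ^ 2)) := by
    refine intervalIntegral.tendsto_integral_filter_of_dominated_convergence
      (fun _ => (∑' p, b p) ^ 2) ?_ ?_ ?_ ?_
    · filter_upwards with T
      have h1 : Continuous fun t => ‖∑ p ∈ T, f p * (Real.log p : ℂ) * dt σ t p‖ ^ 2 :=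
        (continuous_finsetSum T fun (p : Nat.Primes) _ =>
          continuous_const.mul (continuous_dt σ (p : ℕ))).norm.pow 2
      exact h1.aestronglyMeasurable
    · filter_upwards with T
      filter_upwards with t _
      rw [Real.norm_eq_abs, abs_of_nonneg (by positivity)]
      refine pow_le_pow_left₀ (norm_nonneg _) ?_ 2
      refine (norm_sum_le _ _).trans ?_
      refine (Finset.sum_le_sum fun (p : Nat.Primes) _ =>
        norm_FL_term hf σ t (p : ℕ)).trans ?_
      exact hb.sum_le_tsum T fun p _ => hb0 p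
    · exact intervalIntegrable_const
    · filter_upwards with t _
      exact (((summable_PP hf hσ t).of_norm.hasSum).norm).pow 2
  refine le_of_tendsto' hlim fun T => ?_
  have h2 := h (T.map ⟨fun p : Nat.Primes => (p : ℕ), Subtype.val_injective⟩) (by
    intro p hp
    obtain ⟨q, _, rfl⟩ := Finset.mem_map.1 hp
    exact q.2) f hf σ hσ hσ1 u
  simpa only [Finset.sum_map, Function.Embedding.coeFn_mk] using h2

end Pool.Agent.MOM
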