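import Pool.Agent.MOM.Hal.Base

/-!
MOM, HAL part 4d: the trivial bound `‖FF f σ t‖ ≤ 1 + 1/σ`.
-/

set_option autoImplicit false

namespace Pool.Agent.MOM

open Finset

private theorem step (σ : ℝ) (hσ : 0 < σ) (n : ℕ) (hn : 1 ≤ n) :
    ((n + 1 : ℕ) : ℝ) ^ (-(1 + σ)) ≤
      (1 / σ) * ((n : ℝ) ^ (-σ) - ((n + 1 : ℕ) : ℝ) ^ (-σ)) := by
  have hn0 : (0 : ℝ) < n := by exact_mod_cast hn
  have hn1 : (0 : ℝ) < ((n + 1 : ℕ) : ℝ) := by positivity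
  have hlt : (n : ℝ) < ((n + 1 : ℕ) : ℝ) := by push_cast; linarith
  obtain ⟨ξ, hξ, hξe⟩ := exists_hasDerivAt_eq_slope (fun x : ℝ => x ^ (-σ))
    (fun x : ℝ => -σ * x ^ (-σ - 1)) hlt
    (fun x hx => (Real.continuousAt_rpow_const x (-σ)
      (Or.inl (lt_of_lt_of_le hn0 hx.1).ne')).continuousWithinAt)
    (fun x hx => Real.hasDerivAt_rpow_const (Or.inl (hn0.trans hx.1).ne'))
  have hξ0 : 0 < ξ := hn0.trans hξ.1
  have h1 : ((n + 1 : ℕ) : ℝ) - n = 1 := by push_cast; ring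
  rw [h1, div_one] at hξe
  have h2 : ((n + 1 : ℕ) : ℝ) ^ (-(1 + σ)) ≤ ξ ^ (-(1 + σ)) :=
    Real.rpow_le_rpow_of_nonpos hξ0 hξ.2.le (by linarith)
  have h3 : ξ ^ (-(1 + σ)) = ξ ^ (-σ - 1) := by congr 1; ring
  rw [h3] at h2
  have h4 : (n : ℝ) ^ (-σ) - ((n + 1 : ℕ) : ℝ) ^ (-σ) = σ * ξ ^ (-σ - 1) := by linarith
  rw [h4]
  calc ((n + 1 : ℕ) : ℝ) ^ (-(1 + σ)) ≤ ξ ^ (-σ - 1) := h2
    _ = 1 / σ * (σ * ξ ^ (-σ - 1)) := by field_simp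

private theorem part (σ : ℝ) (hσ : 0 < σ) (N : ℕ) :
    ∑ n ∈ range (N + 2), (n : ℝ) ^ (-(1 + σ)) ≤
      1 + (1 / σ) * (1 - ((N + 1 : ℕ) : ℝ) ^ (-σ)) := by
  induction N with
  | zero =>
    have h0 : (0 : ℝ) ^ (-(1 + σ)) = 0 := Real.zero_rpow (by linarith)
    rw [Finset.sum_range_succ, Finset.sum_range_one]
    simp only [Nat.cast_zero, Nat.cast_one, zero_add, h0, Real.one_rpow]
    simp
  | succ N ih =>
    rw [Finset.sum_range_succ]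
    have h1 := step σ hσ (N + 1) (by omega)
    have h2 : (1 / σ) * (1 - ((N + 1 : ℕ) : ℝ) ^ (-σ)) +
        (1 / σ) * (((N + 1 : ℕ) : ℝ) ^ (-σ) - ((N + 1 + 1 : ℕ) : ℝ) ^ (-σ)) =
        (1 / σ) * (1 - ((N + 1 + 1 : ℕ) : ℝ) ^ (-σ)) := by ring
    have h3 : N + 2 = N + 1 + 1 := rfl
    rw [h3] at *
    linarith

theorem FF_triv {f : ℕ → ℂ} (hf : ∀ n, ‖f n‖ ≤ 1) {σ : ℝ} (hσ : 0 < σ) (t : ℝ) :
    ‖FF f σ t‖ ≤ 1 + 1 / σ := by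
  unfold FF
  refine (norm_tsum_le_tsum_norm (summable_FF hf hσ t)).trans ?_
  refine (Summable.tsum_le_tsum (fun n => ?_) (summable_FF hf hσ t) (summable_rpow hσ)).trans ?_
  · rw [norm_mul, norm_dt]
    exact mul_le_of_le_one_left (Real.rpow_nonneg (Nat.cast_nonneg n) _) (hf n)
  · refine (summable_rpow hσ).tsum_le_of_sum_range_le fun N => ?_
    have h1 : ∑ n ∈ range N, (n : ℝ) ^ (-(1 + σ)) ≤
        ∑ n ∈ range (N + 2), (n : ℝ) ^ (-(1 + σ)) :=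
      Finset.sum_le_sum_of_subset_of_nonneg (Finset.range_mono (by omega))
        fun _ _ _ => Real.rpow_nonneg (Nat.cast_nonneg _) _
    have h2 := part σ hσ N
    have h3 : 0 ≤ (1 / σ) * ((N + 1 : ℕ) : ℝ) ^ (-σ) :=
      mul_nonneg (by positivity) (Real.rpow_nonneg (Nat.cast_nonneg _) _)
    have h4 : (1 / σ) * (1 - ((N + 1 : ℕ) : ℝ) ^ (-σ)) = 1 / σ - (1 / σ) * ((N + 1 : ℕ) : ℝ) ^ (-σ) := by ring
    linarith

end Pool.Agent.MOM
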