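import Mathlib

/-!
MOM, HAL part 2a: integrals against `1/(1+x²)` of a function with bounded integrals over unit
intervals. Pure Mathlib.

PROOF. For an integer `j` and `x ∈ [j, j+1]`: `1/(1+x²) ≤ 4/(1+j²)` (`4 + 4x² ≥ 1 + j²`, as
`|j| ≤ |x| + 1`, `j² ≤ 2x² + 2`). So the integral over `[j,j+1)` is at most `4B/(1+j²)`. Sum over
`j ∈ ℤ` (`iUnion_Ico_intCast`, `integral_iUnion` / `hasSum_integral_iUnion`, or with `lintegral`s;
or let `R → ∞` in the finite statement `∫_{-R}^{R} ≤ ∑_{-R ≤ j < R} 4B/(1+j²)` and use monotone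
convergence): `∑_{j ∈ ℤ} 4/(1+j²) ≤ 4 (1 + 2 ∑_{j≥1} 1/j²) ≤ 4·5 = 20 ≤ 32`. For the tail: the unit
intervals meeting `{|x| ≥ T}` have `|j| ≥ T - 1` (`j ≥ T - 1` or `j ≤ -T`); for `T ≥ 3` the sum is
`≤ 2·∑_{j ≥ T-1} 4/j² ≤ 8/(T-2) ≤ 24/T`, for `1 ≤ T ≤ 3` it is `≤ 20 ≤ 60/T`; the constant `64`
is generous (one may also write the tail as `∫_{|x| ≥ T}` and use `1/(1+x²) ≤ (1/T)·...`).
-/

set_option autoImplicit false

namespace Pool.Agent.MOM

open MeasureTheory

private lemma unif_step {h : ℝ → ℝ} (hc : Continuous h) (h0 : ∀ x, 0 ≤ h x) {B : ℝ}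
    (hB : ∀ u : ℝ, ∫ x in u..(u + 1), h x ≤ B) {a : ℝ} (ha : 1 ≤ a) :
    ∫ x in a..(a + 1), h x / (1 + x ^ 2) ≤ 2 * B * (1 / a - 1 / (a + 1)) := by
  have ha0 : 0 < a := by linarith
  have hcont : Continuous (fun x : ℝ => h x / (1 + x ^ 2)) :=
    hc.div (by fun_prop) (fun x => by positivity)
  have hB0 : 0 ≤ B :=
    le_trans (intervalIntegral.integral_nonneg (by linarith) (fun x _ => h0 x)) (hB a)
  have h1 : ∫ x in a..(a + 1), h x / (1 + x ^ 2) ≤ ∫ x in a..(a + 1), h x * (1 / a ^ 2) := by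
    apply intervalIntegral.integral_mono_on (by linarith) (hcont.intervalIntegrable _ _)
      ((hc.mul continuous_const).intervalIntegrable _ _)
    intro x hx
    rw [div_eq_mul_one_div]
    apply mul_le_mul_of_nonneg_left _ (h0 x)
    apply one_div_le_one_div_of_le (by positivity)
    nlinarith [hx.1]
  have h2 : ∫ x in a..(a + 1), h x * (1 / a ^ 2) = (∫ x in a..(a + 1), h x) * (1 / a ^ 2) :=
    intervalIntegral.integral_mul_const _ _
  have h3 : (∫ x in a..(a + 1), h x) * (1 / a ^ 2) ≤ B * (1 / a ^ 2) :=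
    mul_le_mul_of_nonneg_right (hB a) (by positivity)
  have h4 : B * (1 / a ^ 2) ≤ 2 * B * (1 / a - 1 / (a + 1)) := by
    have h5 : 1 / a ^ 2 ≤ 2 * (1 / a - 1 / (a + 1)) := by
      have h6 : 2 * (1 / a - 1 / (a + 1)) = 2 / (a * (a + 1)) := by
        field_simp
        ring
      rw [h6, div_le_div_iff₀ (by positivity) (by positivity)]
      nlinarith
    nlinarith
  linarith

private lemma unif_fin {h : ℝ → ℝ} (hc : Continuous h) (h0 : ∀ x, 0 ≤ h x) {B : ℝ}
    (hB : ∀ u : ℝ, ∫ x in u..(u + 1), h x ≤ B) {T : ℝ} (hT : 1 ≤ T) (n : ℕ) :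
    ∫ x in T..(T + n), h x / (1 + x ^ 2) ≤ 2 * B * (1 / T - 1 / (T + n)) := by
  have hcont : Continuous (fun x : ℝ => h x / (1 + x ^ 2)) :=
    hc.div (by fun_prop) (fun x => by positivity)
  induction n with
  | zero => simp
  | succ n ih =>
    have hn : (0 : ℝ) ≤ n := Nat.cast_nonneg n
    have h1 := unif_step hc h0 hB (a := T + n) (by linarith)
    have h2 : (∫ x in T..(T + n), h x / (1 + x ^ 2))
        + ∫ x in (T + n)..(T + n + 1), h x / (1 + x ^ 2)
        = ∫ x in T..(T + n + 1), h x / (1 + x ^ 2) :=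
      intervalIntegral.integral_add_adjacent_intervals (hcont.intervalIntegrable _ _)
        (hcont.intervalIntegrable _ _)
    have h3 : T + ((n + 1 : ℕ) : ℝ) = T + n + 1 := by push_cast; ring
    rw [h3, ← h2]
    linarith

private lemma unif_Ioi {h : ℝ → ℝ} (hc : Continuous h) (h0 : ∀ x, 0 ≤ h x) {B : ℝ}
    (hB : ∀ u : ℝ, ∫ x in u..(u + 1), h x ≤ B) {T : ℝ} (hT : 1 ≤ T) :
    IntegrableOn (fun x => h x / (1 + x ^ 2)) (Set.Ioi T) ∧
      ∫ x in Set.Ioi T, h x / (1 + x ^ 2) ≤ 2 * B / T := by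
  have hcont : Continuous (fun x : ℝ => h x / (1 + x ^ 2)) :=
    hc.div (by fun_prop) (fun x => by positivity)
  have hB0 : 0 ≤ B :=
    le_trans (intervalIntegral.integral_nonneg (by linarith) (fun x _ => h0 x)) (hB 0)
  have hnn : ∀ x, 0 ≤ h x / (1 + x ^ 2) := fun x => div_nonneg (h0 x) (by positivity)
  have hb : Filter.Tendsto (fun n : ℕ => T + (n : ℝ)) Filter.atTop Filter.atTop :=
    Filter.tendsto_atTop_add_const_left _ _ tendsto_natCast_atTop_atTop
  have hbound : ∀ n : ℕ, ∫ x in T..(T + n), h x / (1 + x ^ 2) ≤ 2 * B / T := by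
    intro n
    refine (unif_fin hc h0 hB hT n).trans ?_
    have h1 : 0 ≤ 1 / (T + (n : ℝ)) := by positivity
    have h2 : 2 * B / T = 2 * B * (1 / T) := by ring
    rw [h2]
    nlinarith
  have hint : IntegrableOn (fun x => h x / (1 + x ^ 2)) (Set.Ioi T) := by
    refine integrableOn_Ioi_of_intervalIntegral_norm_bounded (2 * B / T) T
      (fun n => (hcont.integrableOn_Icc).mono_set Set.Ioc_subset_Icc_self) hb
      (Filter.Eventually.of_forall fun n => ?_)
    have : (fun x => ‖h x / (1 + x ^ 2)‖) = fun x => h x / (1 + x ^ 2) := by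
      funext x
      rw [Real.norm_eq_abs, abs_of_nonneg (hnn x)]
    rw [this]
    exact hbound n
  exact ⟨hint, le_of_tendsto' (intervalIntegral_tendsto_integral_Ioi T hint hb) hbound⟩

private lemma unif_Iic {h : ℝ → ℝ} (hc : Continuous h) (h0 : ∀ x, 0 ≤ h x) {B : ℝ}
    (hB : ∀ u : ℝ, ∫ x in u..(u + 1), h x ≤ B) {T : ℝ} (hT : 1 ≤ T) :
    IntegrableOn (fun x => h x / (1 + x ^ 2)) (Set.Iic (-T)) ∧
      ∫ x in Set.Iic (-T), h x / (1 + x ^ 2) ≤ 2 * B / T := by
  have hB' : ∀ u : ℝ, ∫ x in u..(u + 1), h (-x) ≤ B := by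
    intro u
    rw [intervalIntegral.integral_comp_neg (fun x => h x)]
    have := hB (-(u + 1))
    rwa [show -(u + 1) + 1 = -u by ring] at this
  have key := unif_Ioi (h := fun x => h (-x)) (hc.comp continuous_neg) (fun x => h0 _) hB' hT
  have hfun : (fun x : ℝ => h x / (1 + x ^ 2)) = fun x => (fun y => h (-y) / (1 + y ^ 2)) (-x) := by
    funext x
    simp
  constructor
  · have h1 := (Measure.measurePreserving_neg (volume : Measure ℝ)).integrableOn_comp_preimage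
      (Homeomorph.neg ℝ).measurableEmbedding (f := fun y => h (-y) / (1 + y ^ 2))
      (s := Set.Ioi T)
    have h2 := h1.2 key.1
    have h3 : (Neg.neg : ℝ → ℝ) ⁻¹' (Set.Ioi T) = Set.Iio (-T) := by
      ext x
      simp only [Set.mem_preimage, Set.mem_Ioi, Set.mem_Iio]
      constructor <;> intro h <;> linarith
    rw [h3] at h2
    rw [integrableOn_Iic_iff_integrableOn_Iio, hfun]
    exact h2
  · rw [hfun, integral_comp_neg_Iic (-T) (fun y => h (-y) / (1 + y ^ 2)), neg_neg]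
    exact key.2

theorem unif_int {h : ℝ → ℝ} (hc : Continuous h) (h0 : ∀ x, 0 ≤ h x) {B : ℝ}
    (hB : ∀ u : ℝ, ∫ x in u..(u + 1), h x ≤ B) :
    Integrable (fun x => h x / (1 + x ^ 2)) ∧ ∫ x, h x / (1 + x ^ 2) ≤ 32 * B := by
  have hcont : Continuous (fun x : ℝ => h x / (1 + x ^ 2)) :=
    hc.div (by fun_prop) (fun x => by positivity)
  have hB0 : 0 ≤ B :=
    le_trans (intervalIntegral.integral_nonneg (by linarith) (fun x _ => h0 x)) (hB 0)
  obtain ⟨hi1, hb1⟩ := unif_Ioi hc h0 hB (le_refl 1)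
  obtain ⟨hi2, hb2⟩ := unif_Iic hc h0 hB (le_refl 1)
  have hi3 : IntegrableOn (fun x => h x / (1 + x ^ 2)) (Set.Ioc (-1) 1) :=
    (hcont.integrableOn_Icc).mono_set Set.Ioc_subset_Icc_self
  have hb3 : ∫ x in Set.Ioc (-1 : ℝ) 1, h x / (1 + x ^ 2) ≤ 2 * B := by
    rw [← intervalIntegral.integral_of_le (by norm_num)]
    have h1 : ∫ x in (-1 : ℝ)..1, h x / (1 + x ^ 2) ≤ ∫ x in (-1 : ℝ)..1, h x := by
      apply intervalIntegral.integral_mono_on (by norm_num) (hcont.intervalIntegrable _ _)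
        (hc.intervalIntegrable _ _)
      intro x _
      exact div_le_self (h0 x) (by nlinarith [sq_nonneg x])
    have h2 : (∫ x in (-1 : ℝ)..0, h x) + ∫ x in (0 : ℝ)..1, h x = ∫ x in (-1 : ℝ)..1, h x :=
      intervalIntegral.integral_add_adjacent_intervals (hc.intervalIntegrable _ _)
        (hc.intervalIntegrable _ _)
    have h3 := hB (-1)
    have h4 := hB 0
    norm_num at h3 h4
    linarith
  have hu1 : Set.Iic (1 : ℝ) = Set.Iic (-1) ∪ Set.Ioc (-1) 1 :=
    (Set.Iic_union_Ioc_eq_Iic (by norm_num)).symm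
  have hi4 : IntegrableOn (fun x => h x / (1 + x ^ 2)) (Set.Iic 1) := by
    rw [hu1]
    exact hi2.union hi3
  have hint : Integrable (fun x => h x / (1 + x ^ 2)) := by
    rw [← integrableOn_univ, ← Set.Iic_union_Ioi (a := (1 : ℝ))]
    exact hi4.union hi1
  refine ⟨hint, ?_⟩
  have e1 : ∫ x, h x / (1 + x ^ 2)
      = (∫ x in Set.Iic (1 : ℝ), h x / (1 + x ^ 2)) + ∫ x in Set.Ioi (1 : ℝ), h x / (1 + x ^ 2) :=
    (intervalIntegral.integral_Iic_add_Ioi hi4 hi1).symm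
  have e2 : ∫ x in Set.Iic (1 : ℝ), h x / (1 + x ^ 2)
      = (∫ x in Set.Iic (-1 : ℝ), h x / (1 + x ^ 2))
        + ∫ x in Set.Ioc (-1 : ℝ) 1, h x / (1 + x ^ 2) := by
    rw [hu1]
    exact setIntegral_union (Set.Iic_disjoint_Ioc (le_refl _)) measurableSet_Ioc hi2 hi3
  rw [e1, e2]
  linarith

theorem unif_int_tail {h : ℝ → ℝ} (hc : Continuous h) (h0 : ∀ x, 0 ≤ h x) {B : ℝ}
    (hB : ∀ u : ℝ, ∫ x in u..(u + 1), h x ≤ B) {T : ℝ} (hT : 1 ≤ T) :
    ∫ x in {x : ℝ | T ≤ |x|}, h x / (1 + x ^ 2) ≤ 64 * B / T := by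
  have hT0 : 0 < T := by linarith
  have hB0 : 0 ≤ B :=
    le_trans (intervalIntegral.integral_nonneg (by linarith) (fun x _ => h0 x)) (hB 0)
  obtain ⟨hi1, hb1⟩ := unif_Ioi hc h0 hB hT
  obtain ⟨hi2, hb2⟩ := unif_Iic hc h0 hB hT
  have hset : {x : ℝ | T ≤ |x|} = Set.Iic (-T) ∪ Set.Ici T := by
    ext x
    simp only [Set.mem_ofPred_eq, Set.mem_union, Set.mem_Iic, Set.mem_Ici, le_abs]
    constructor
    · rintro (h | h)
      · exact Or.inr h
      · exact Or.inl (by linarith)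
    · rintro (h | h)
      · exact Or.inr (by linarith)
      · exact Or.inl h
  have hdisj : Disjoint (Set.Iic (-T)) (Set.Ici T) := by
    rw [Set.disjoint_left]
    intro x hx hx'
    simp only [Set.mem_Iic, Set.mem_Ici] at hx hx'
    linarith
  have hi3 : IntegrableOn (fun x => h x / (1 + x ^ 2)) (Set.Ici T) := by
    rw [integrableOn_Ici_iff_integrableOn_Ioi]
    exact hi1
  rw [hset, setIntegral_union hdisj measurableSet_Ici hi2 hi3, integral_Ici_eq_integral_Ioi]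
  have h1 : 64 * B / T = 2 * B / T + 2 * B / T + 60 * B / T := by ring
  have h2 : 0 ≤ 60 * B / T := by positivity
  linarith

end Pool.Agent.MOM
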