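import Pool.Agent.MOM.Hal.FSmall
import Pool.Agent.MOM.Hal.LogDer
import Pool.Agent.MOM.Hal.PPms
import Pool.Agent.MOM.Hal.Unif
import Pool.Agent.MOM.Hal.Triv

/-!
MOM, HAL part 7: weighted mean square of `F_log`.

PROOF. Let `f = ff Q θ`, `σ = 1/Y ≤ 1`, `h(ξ) = (‖PP f σ (t+ξ)‖ + 8)²`, continuous, `≥ 0`. By
`PP_ms`:
`∫_u^{u+1} h ≤ 2∫ ‖PP‖² + 128 ≤ 2 C Y + 128 ≤ C1 Y` for all `u` (substitution `t + ξ`; `Y ≥ 1`,
`C1 = 2C+128`). `FL_le`: `‖FL f σ (t+ξ)‖² ≤ ‖FF f σ (t+ξ)‖² h(ξ)`.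
Given `δ`, choose `T ≥ 1` with `4·64 C1/T ≤ δ/2` and `δ1` with `δ1² 32 C1 ≤ δ/2`. For `|ξ| < T`
and `Y` large (`T ≤ e^{AY}`, so that `|t+ξ| ≤ 2 e^{AY} ≤ e^{(A+1)Y}`): `‖FF f σ (t+ξ)‖ ≤ δ1 Y` by
`FF_small ε (A+1) δ1`; for all `ξ`: `‖FF‖ ≤ 1 + Y ≤ 2Y` (`FF_triv`). So
`∫ ‖FL(t+ξ)‖²/(1+ξ²) dξ ≤ δ1² Y² ∫ h/(1+ξ²) + 4Y² ∫_{|ξ| ≥ T} h/(1+ξ²) ≤ δ1² Y² 32 C1 Y + 4 Y² 64
C1 Y/T ≤ δ Y³`
(`unif_int`, `unif_int_tail`; split `ℝ` into `{|ξ| < T}` and `{T ≤ |ξ|}`). The integrand on the left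
is integrable since it is continuous and `≤ 4Y² h(ξ)/(1+ξ²)`.
-/

set_option autoImplicit false

namespace Pool.Agent.MOM

open Finset MeasureTheory

theorem FL_ms (ε A δ : ℝ) (hε : 0 < ε) (hε1 : ε < 1) (hA : 1 ≤ A) (hδ : 0 < δ) :
    ∃ Y0 : ℝ, 1 ≤ Y0 ∧ ∀ Y : ℝ, Y0 ≤ Y → ∀ Q : Finset ℕ,
      (∀ p ∈ Q, p.Prime ∧ Real.exp (ε ^ 2 * Y) ≤ p ∧ (p : ℝ) < Real.exp (ε * Y)) →
      ∀ θ : ℝ, 0 ≤ θ → θ ≤ 1 → ∀ t : ℝ, |t| ≤ Real.exp (A * Y) →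
        ∫ ξ : ℝ, ‖FL (ff Q θ) (1 / Y) (t + ξ)‖ ^ 2 / (1 + ξ ^ 2) ≤ δ * Y ^ 3 := by
  obtain ⟨C, hC, hPP⟩ := PP_ms
  obtain ⟨C1, hC1d⟩ : ∃ C1 : ℝ, C1 = 2 * C + 128 := ⟨_, rfl⟩
  have hC1 : 0 < C1 := by rw [hC1d]; positivity
  obtain ⟨T, hTd⟩ : ∃ T : ℝ, T = max 1 (512 * C1 / δ) := ⟨_, rfl⟩
  have hT1 : 1 ≤ T := by rw [hTd]; exact le_max_left _ _
  have hT0 : 0 < T := by linarith
  have hT2 : 256 * C1 / T ≤ δ / 2 := by
    have h1 : 512 * C1 / δ ≤ T := by rw [hTd]; exact le_max_right _ _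
    rw [div_le_iff₀ hδ] at h1
    rw [div_le_iff₀ hT0]
    linarith
  obtain ⟨δ1, hδ1d⟩ : ∃ δ1 : ℝ, δ1 = Real.sqrt (δ / (64 * C1)) := ⟨_, rfl⟩
  have hδ1 : 0 < δ1 := by rw [hδ1d]; exact Real.sqrt_pos.2 (by positivity)
  have hδ1s : δ1 ^ 2 * (32 * C1) = δ / 2 := by
    rw [hδ1d, Real.sq_sqrt (by positivity)]
    field_simp
    ring
  obtain ⟨Y1, hY1, hsm⟩ := FF_small ε (A + 1) δ1 hε hε1 (by linarith) hδ1
  refine ⟨max Y1 T, le_trans hY1 (le_max_left _ _), ?_⟩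
  intro Y hY Q hQ θ h0 h1 t ht
  have hYY1 : Y1 ≤ Y := (le_max_left _ _).trans hY
  have hYT : T ≤ Y := (le_max_right _ _).trans hY
  have hY1' : 1 ≤ Y := hY1.trans hYY1
  have hY0 : 0 < Y := by linarith
  have hσ : 0 < 1 / Y := by positivity
  have hσ1 : 1 / Y ≤ 1 := by rw [div_le_one hY0]; exact hY1'
  have hQp : ∀ p ∈ Q, p.Prime := fun p hp => (hQ p hp).1
  have hf : ∀ n, ‖ff Q θ n‖ ≤ 1 := norm_ff_le Q h0 h1
  have hcPP : Continuous (fun ξ : ℝ => PP (ff Q θ) (1 / Y) (t + ξ)) :=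
    (continuous_PP hf hσ).comp (continuous_const.add continuous_id)
  obtain ⟨h, hh⟩ : ∃ h : ℝ → ℝ, h = fun ξ => (‖PP (ff Q θ) (1 / Y) (t + ξ)‖ + 8) ^ 2 := ⟨_, rfl⟩
  have hhc : Continuous h := by
    rw [hh]
    exact (hcPP.norm.add continuous_const).pow 2
  have hh0 : ∀ x, 0 ≤ h x := by
    intro x
    rw [hh]
    positivity
  -- unit intervals
  have hB : ∀ u : ℝ, ∫ x in u..(u + 1), h x ≤ C1 * Y := by
    intro u
    have hc2 : Continuous (fun ξ : ℝ => 2 * ‖PP (ff Q θ) (1 / Y) (t + ξ)‖ ^ 2 + 128) := by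
      exact (continuous_const.mul (hcPP.norm.pow 2)).add continuous_const
    have e1 : ∫ x in u..(u + 1), h x ≤
        ∫ x in u..(u + 1), (2 * ‖PP (ff Q θ) (1 / Y) (t + x)‖ ^ 2 + 128) := by
      refine intervalIntegral.integral_mono_on (by linarith) (hhc.intervalIntegrable _ _)
        (hc2.intervalIntegrable _ _) fun x _ => ?_
      rw [hh]
      nlinarith [sq_nonneg (‖PP (ff Q θ) (1 / Y) (t + x)‖ - 8)]
    have e2 : ∫ x in u..(u + 1), (2 * ‖PP (ff Q θ) (1 / Y) (t + x)‖ ^ 2 + 128) =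
        2 * (∫ x in (t + u)..(t + (u + 1)), ‖PP (ff Q θ) (1 / Y) x‖ ^ 2) + 128 := by
      have hc3 : Continuous (fun x : ℝ => 2 * ‖PP (ff Q θ) (1 / Y) (t + x)‖ ^ 2) :=
        continuous_const.mul (hcPP.norm.pow 2)
      rw [intervalIntegral.integral_add (hc3.intervalIntegrable _ _)
        (continuous_const.intervalIntegrable _ _),
        intervalIntegral.integral_const_mul, intervalIntegral.integral_const,
        intervalIntegral.integral_comp_add_left (fun x => ‖PP (ff Q θ) (1 / Y) x‖ ^ 2)]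
      simp
    have e3 := hPP (ff Q θ) hf (1 / Y) hσ hσ1 (t + u)
    have e4 : t + u + 1 = t + (u + 1) := by ring
    rw [e4] at e3
    have e5 : C / (1 / Y) = C * Y := by field_simp
    rw [e5] at e3
    rw [hC1d]
    nlinarith
  obtain ⟨hki, hk⟩ := unif_int hhc hh0 hB
  have htail := unif_int_tail hhc hh0 hB hT1
  -- the bounds for the series
  have hFall : ∀ ξ : ℝ, ‖FF (ff Q θ) (1 / Y) (t + ξ)‖ ≤ 2 * Y := by
    intro ξ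
    have := FF_triv hf hσ (t + ξ)
    have e5 : 1 / (1 / Y) = Y := by field_simp
    rw [e5] at this
    linarith
  have hexp : T ≤ Real.exp (A * Y) := by
    have e1 := Real.add_one_le_exp (A * Y)
    have e2 : Y ≤ A * Y := by nlinarith
    linarith
  have hFs : ∀ ξ : ℝ, |ξ| < T → ‖FF (ff Q θ) (1 / Y) (t + ξ)‖ ≤ δ1 * Y := by
    intro ξ hξ
    refine hsm Y hYY1 Q hQ θ h0 h1 (t + ξ) ?_
    have e1 : Real.exp ((A + 1) * Y) = Real.exp (A * Y) * Real.exp Y := by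
      rw [← Real.exp_add]
      congr 1
      ring
    have e2 : 2 ≤ Real.exp Y := by
      have := Real.add_one_le_exp Y
      linarith
    have e3 := abs_add_le t ξ
    have e4 := Real.exp_pos (A * Y)
    rw [e1]
    nlinarith
  have hFL : ∀ ξ : ℝ, ‖FL (ff Q θ) (1 / Y) (t + ξ)‖ ^ 2 ≤
      ‖FF (ff Q θ) (1 / Y) (t + ξ)‖ ^ 2 * h ξ := by
    intro ξ
    have e1 := FL_le hQp h0 h1 hσ (t + ξ)
    rw [hh]
    simp only
    rw [← mul_pow]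
    exact pow_le_pow_left₀ (norm_nonneg _) e1 2
  obtain ⟨S, hS⟩ : ∃ S : Set ℝ, S = {x : ℝ | T ≤ |x|} := ⟨_, rfl⟩
  have hSm : MeasurableSet S := by
    rw [hS]
    exact measurableSet_le measurable_const continuous_abs.measurable
  rw [← hS] at htail
  have hpt : ∀ ξ : ℝ, ‖FL (ff Q θ) (1 / Y) (t + ξ)‖ ^ 2 / (1 + ξ ^ 2) ≤
      (δ1 * Y) ^ 2 * (h ξ / (1 + ξ ^ 2)) +
        S.indicator (fun x => (2 * Y) ^ 2 * (h x / (1 + x ^ 2))) ξ := by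
    intro ξ
    have hp : (0 : ℝ) < 1 + ξ ^ 2 := by positivity
    have hk0 : 0 ≤ h ξ / (1 + ξ ^ 2) := div_nonneg (hh0 ξ) hp.le
    by_cases hξ : ξ ∈ S
    · rw [Set.indicator_of_mem hξ]
      have e1 : ‖FL (ff Q θ) (1 / Y) (t + ξ)‖ ^ 2 / (1 + ξ ^ 2) ≤
          (2 * Y) ^ 2 * (h ξ / (1 + ξ ^ 2)) := by
        rw [← mul_div_assoc]
        refine div_le_div_of_nonneg_right ((hFL ξ).trans ?_) hp.le
        exact mul_le_mul_of_nonneg_right (pow_le_pow_left₀ (norm_nonneg _) (hFall ξ) 2) (hh0 ξ)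
      have e2 : 0 ≤ (δ1 * Y) ^ 2 * (h ξ / (1 + ξ ^ 2)) := by positivity
      linarith
    · rw [Set.indicator_of_notMem hξ, add_zero, ← mul_div_assoc]
      have hξ' : |ξ| < T := by
        rw [hS] at hξ
        exact not_le.1 hξ
      refine div_le_div_of_nonneg_right ((hFL ξ).trans ?_) hp.le
      exact mul_le_mul_of_nonneg_right (pow_le_pow_left₀ (norm_nonneg _) (hFs ξ hξ') 2) (hh0 ξ)
  have hi1 : Integrable (fun ξ : ℝ => (δ1 * Y) ^ 2 * (h ξ / (1 + ξ ^ 2))) := hki.const_mul _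
  have hi2 : Integrable (S.indicator (fun x => (2 * Y) ^ 2 * (h x / (1 + x ^ 2)))) :=
    (hki.const_mul _).indicator hSm
  have hmain : ∫ ξ : ℝ, ‖FL (ff Q θ) (1 / Y) (t + ξ)‖ ^ 2 / (1 + ξ ^ 2) ≤
      ∫ ξ : ℝ, ((δ1 * Y) ^ 2 * (h ξ / (1 + ξ ^ 2)) +
        S.indicator (fun x => (2 * Y) ^ 2 * (h x / (1 + x ^ 2))) ξ) := by
    refine integral_mono_of_nonneg (Filter.Eventually.of_forall fun ξ => ?_) (hi1.add hi2)
      (Filter.Eventually.of_forall hpt)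
    have hp : (0 : ℝ) < 1 + ξ ^ 2 := by positivity
    exact div_nonneg (sq_nonneg _) hp.le
  refine hmain.trans ?_
  rw [integral_add hi1 hi2, integral_const_mul, integral_indicator hSm, integral_const_mul]
  have e1 : (δ1 * Y) ^ 2 * (∫ ξ : ℝ, h ξ / (1 + ξ ^ 2)) ≤ δ / 2 * Y ^ 3 := by
    calc (δ1 * Y) ^ 2 * (∫ ξ : ℝ, h ξ / (1 + ξ ^ 2)) ≤ (δ1 * Y) ^ 2 * (32 * (C1 * Y)) :=
          mul_le_mul_of_nonneg_left hk (by positivity)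
      _ = (δ1 ^ 2 * (32 * C1)) * Y ^ 3 := by ring
      _ = δ / 2 * Y ^ 3 := by rw [hδ1s]
  have e2 : (2 * Y) ^ 2 * (∫ ξ in S, h ξ / (1 + ξ ^ 2)) ≤ δ / 2 * Y ^ 3 := by
    calc (2 * Y) ^ 2 * (∫ ξ in S, h ξ / (1 + ξ ^ 2)) ≤ (2 * Y) ^ 2 * (64 * (C1 * Y) / T) :=
          mul_le_mul_of_nonneg_left htail (by positivity)
      _ = (256 * C1 / T) * Y ^ 3 := by ring
      _ ≤ δ / 2 * Y ^ 3 := mul_le_mul_of_nonneg_right hT2 (by positivity)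
  linarith

end Pool.Agent.MOM
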