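import Pool.Agent.MOM.Hal.EulZ

/-!
MOM, HAL part 4c: the zeta function is bounded below near the real axis (black box
`FF_one_eq_zeta` of EulZ).

PROOF of `zeta_low`. `g(s) = (s-1) ζ(s)` for `s ≠ 1`, `g(1) = 1` is continuous on the compact set
`K = {1 ≤ Re s ≤ 2, |Im s| ≤ 1}` (`riemannZeta_residue_one`, `differentiableAt_riemannZeta`;
`Function.update`) and has no zero there (`riemannZeta_ne_zero_of_one_le_re`), so `‖g‖ ≥ c > 0` on
`K`;
`‖s - 1‖ ≤ 2` on `K`, hence `‖ζ(s)‖ ≥ c/2` for `s ∈ K`, `s ≠ 1`.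
-/

set_option autoImplicit false

namespace Pool.Agent.MOM

open Finset

theorem zeta_low : ∃ c : ℝ, 0 < c ∧ ∀ σ : ℝ, 0 < σ → σ ≤ 1 → ∀ t : ℝ, |t| ≤ 1 →
    c ≤ ‖FF (fun _ => 1) σ t‖ := by
  set g : ℂ → ℂ := Function.update (fun s : ℂ => (s - 1) * riemannZeta s) 1 1 with hg
  set K : Set ℂ := Set.Icc 1 2 ×ℂ Set.Icc (-1) 1 with hK
  have hKc : IsCompact K := isCompact_Icc.reProdIm isCompact_Icc
  have hg1 : g 1 = 1 := by simp [hg]
  have hgs : ∀ s : ℂ, s ≠ 1 → g s = (s - 1) * riemannZeta s := by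
    intro s hs
    simp [hg, Function.update_of_ne hs]
  have hcont : Continuous g := by
    rw [continuous_iff_continuousAt]
    intro s
    by_cases hs : s = 1
    · subst hs
      rw [hg, continuousAt_update_same]
      exact riemannZeta_residue_one
    · have h1 : ContinuousAt (fun s : ℂ => (s - 1) * riemannZeta s) s :=
        (continuousAt_id.sub continuousAt_const).mul (differentiableAt_riemannZeta hs).continuousAt
      refine h1.congr ?_
      filter_upwards [isOpen_ne.mem_nhds hs] with z hz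
      exact (hgs z hz).symm
  have hne : ∀ s ∈ K, g s ≠ 0 := by
    intro s hs
    by_cases h1 : s = 1
    · rw [h1, hg1]
      exact one_ne_zero
    · rw [hgs s h1]
      exact mul_ne_zero (sub_ne_zero.2 h1) (riemannZeta_ne_zero_of_one_le_re hs.1.1)
  have hKne : K.Nonempty := ⟨1, by simp [hK, Complex.mem_reProdIm]⟩
  obtain ⟨s0, hs0, hmin⟩ := hKc.exists_isMinOn hKne (continuous_norm.comp hcont).continuousOn
  have hpos : 0 < ‖g s0‖ := norm_pos_iff.2 (hne s0 hs0)
  refine ⟨‖g s0‖ / 2, by positivity, ?_⟩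
  intro σ hσ hσ1 t ht
  rw [FF_one_eq_zeta hσ]
  set s : ℂ := 1 + (σ : ℂ) + (t : ℂ) * Complex.I with hs
  have hre : s.re = 1 + σ := by simp [hs]
  have him : s.im = t := by simp [hs]
  have hsK : s ∈ K := by
    rw [hK, Complex.mem_reProdIm, hre, him]
    exact ⟨⟨by linarith, by linarith⟩, abs_le.1 ht⟩
  have hs1 : s ≠ 1 := by
    intro h
    rw [h, Complex.one_re] at hre
    linarith
  have h1 : ‖g s0‖ ≤ ‖g s‖ := hmin hsK
  rw [hgs s hs1, norm_mul] at h1
  have h2 : ‖s - 1‖ ≤ 2 := by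
    refine (Complex.norm_le_abs_re_add_abs_im _).trans ?_
    rw [Complex.sub_re, Complex.sub_im, hre, him, Complex.one_re, Complex.one_im, sub_zero,
      add_sub_cancel_left, abs_of_pos hσ]
    linarith
  have h3 : ‖s - 1‖ * ‖riemannZeta s‖ ≤ 2 * ‖riemannZeta s‖ :=
    mul_le_mul_of_nonneg_right h2 (norm_nonneg _)
  linarith

end Pool.Agent.MOM
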