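import Pool.Agent.MOM.Hal.Base

/-!
MOM, HAL part 5b: the tail of the zeta series beyond `|t|`.

PROOF. Let `s = 1 + σ + it`, `φ(x) = x^{-s} = exp(-s log x)` for `x > 0` (so `φ(n) = dt σ t n` for
`n ≥ 1`), an antiderivative is `Φ(x) = x^{1-s}/(1-s)`, `1 - s = -(σ+it) ≠ 0`, `‖Φ(x)‖ =
x^{-σ}/‖σ+it‖
≤ 1/|t| ≤ 2` for `x ≥ 1`. `φ'(x) = -s x^{-s-1}`, `‖φ'(x)‖ = ‖s‖ x^{-2-σ} ≤ ‖s‖ x^{-2}`. For
`n ≥ 1`, `x ∈ [n, n+1]`: `‖φ(n) - φ(x)‖ ≤ ‖s‖ n^{-2}` (mean value inequality,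
`Convex.norm_image_sub_le_of_norm_hasDerivWithin_le` or `norm_image_sub_le_of_norm_deriv_le_segment'`),
so `‖φ(n) - (Φ(n+1) - Φ(n))‖ = ‖∫_n^{n+1} (φ(n) - φ(x)) dx‖ ≤ ‖s‖ n^{-2}` (or apply the mean value
inequality to `x ↦ φ(n) x - Φ(x)` on `[n,n+1]`, no integral needed). Summing `N ≤ n < N + R`:
`‖∑ φ(n)‖ ≤ ‖Φ(N+R)‖ + ‖Φ(N)‖ + ‖s‖ ∑_{n≥N} n^{-2} ≤ 4 + ‖s‖ 2/N ≤ 4 + 2(2+|t|)/N ≤ 10`, since
`‖s‖ ≤ 1 + σ + |t| ≤ 2 + |t|`, `∑_{n ≥ N} n^{-2} ≤ 2/N`, `|t| ≤ N`, `N ≥ 1`. Let `R → ∞`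
(`(summable).hasSum.tendsto_sum_nat`, `le_of_tendsto`).
-/

set_option autoImplicit false

namespace Pool.Agent.MOM

open Finset

/-- `exp (c log x)` -/
private noncomputable def ztE (c : ℂ) (x : ℝ) : ℂ := Complex.exp (c * (Real.log x : ℂ))

private theorem ztE_deriv (c : ℂ) {x : ℝ} (hx : 0 < x) :
    HasDerivAt (ztE c) (ztE c x * (c * ((x⁻¹ : ℝ) : ℂ))) x := by
  unfold ztE
  have h1 : HasDerivAt (fun y : ℝ => (Real.log y : ℂ)) ((x⁻¹ : ℝ) : ℂ) x :=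
    (Real.hasDerivAt_log hx.ne').ofReal_comp
  exact (h1.const_mul c).cexp

private theorem ztE_norm (c : ℂ) (x : ℝ) : ‖ztE c x‖ = Real.exp (c.re * Real.log x) := by
  unfold ztE
  rw [Complex.norm_exp, Complex.re_mul_ofReal]

private theorem ztE_succ (c : ℂ) {x : ℝ} (hx : 0 < x) : ztE (c + 1) x = ztE c x * (x : ℂ) := by
  unfold ztE
  rw [add_mul, Complex.exp_add, one_mul, ← Complex.ofReal_exp, Real.exp_log hx]

private theorem ztE_anti {c : ℂ} (hc : c + 1 ≠ 0) {x : ℝ} (hx : 0 < x) :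
    HasDerivAt (fun y => ztE (c + 1) y / (c + 1)) (ztE c x) x := by
  have h1 := (ztE_deriv (c + 1) hx).div_const (c + 1)
  have h2 : ztE (c + 1) x * ((c + 1) * ((x⁻¹ : ℝ) : ℂ)) / (c + 1) = ztE c x := by
    have hx' : (x : ℂ) ≠ 0 := by exact_mod_cast hx.ne'
    rw [ztE_succ c hx]
    push_cast
    field_simp
  rw [h2] at h1
  exact h1

private theorem ztE_le {c : ℂ} (hc : c.re ≤ -1) {x : ℝ} (hx : 1 ≤ x) : ‖ztE c x‖ ≤ x⁻¹ := by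
  have h0 : 0 < x := by linarith
  have h1 : Real.exp (-Real.log x) = x⁻¹ := by rw [Real.exp_neg, Real.exp_log h0]
  rw [ztE_norm, ← h1]
  apply Real.exp_le_exp.2
  have h2 := Real.log_nonneg hx
  nlinarith

private theorem ztE_le_one {c : ℂ} (hc : c.re ≤ 0) {x : ℝ} (hx : 1 ≤ x) : ‖ztE c x‖ ≤ 1 := by
  rw [ztE_norm]
  apply Real.exp_le_one_iff.2
  exact mul_nonpos_of_nonpos_of_nonneg hc (Real.log_nonneg hx)

private theorem zt_step1 {c : ℂ} (hc : c.re ≤ -1) {a : ℝ} (ha : 1 ≤ a) {x : ℝ}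
    (hx : x ∈ Set.Icc a (a + 1)) : ‖ztE c x - ztE c a‖ ≤ ‖c‖ * (a⁻¹ * a⁻¹) := by
  have h1 := norm_image_sub_le_of_norm_deriv_le_segment' (f := ztE c) (a := a) (b := a + 1)
    (f' := fun y => ztE c y * (c * ((y⁻¹ : ℝ) : ℂ))) (C := ‖c‖ * (a⁻¹ * a⁻¹))
    (fun y hy => (ztE_deriv c (by linarith [hy.1])).hasDerivWithinAt)
    (fun y hy => by
      have hy0 : 0 < y := by linarith [hy.1]
      have hy1 : y⁻¹ ≤ a⁻¹ := inv_anti₀ (by linarith) hy.1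
      have hy2 : 0 < y⁻¹ := inv_pos.2 hy0
      rw [norm_mul, norm_mul, Complex.norm_real, Real.norm_eq_abs, abs_of_pos hy2]
      have h2 : ‖ztE c y‖ ≤ a⁻¹ := (ztE_le hc (by linarith [hy.1])).trans hy1
      calc ‖ztE c y‖ * (‖c‖ * y⁻¹) = ‖c‖ * (‖ztE c y‖ * y⁻¹) := by ring
        _ ≤ ‖c‖ * (a⁻¹ * a⁻¹) :=
          mul_le_mul_of_nonneg_left (mul_le_mul h2 hy1 hy2.le (by positivity)) (norm_nonneg _))
    x hx
  refine h1.trans ?_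
  have h3 : 0 ≤ ‖c‖ * (a⁻¹ * a⁻¹) := by positivity
  exact mul_le_of_le_one_right h3 (by linarith [hx.2])

private theorem zt_step2 {c : ℂ} (hc : c.re ≤ -1) (hc1 : c + 1 ≠ 0) {a : ℝ} (ha : 1 ≤ a) :
    ‖ztE c a - (ztE (c + 1) (a + 1) / (c + 1) - ztE (c + 1) a / (c + 1))‖ ≤
      ‖c‖ * (a⁻¹ * a⁻¹) := by
  have hd : ∀ y, 0 < y → HasDerivAt (fun y : ℝ => ztE c a * (y : ℂ) - ztE (c + 1) y / (c + 1))
      (ztE c a - ztE c y) y := by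
    intro y hy
    have h1 : HasDerivAt (fun y : ℝ => ztE c a * (y : ℂ)) (ztE c a * 1) y :=
      ((hasDerivAt_id y).ofReal_comp).const_mul _
    rw [mul_one] at h1
    exact h1.sub (ztE_anti hc1 hy)
  have h1 := norm_image_sub_le_of_norm_deriv_le_segment'
    (f := fun y : ℝ => ztE c a * (y : ℂ) - ztE (c + 1) y / (c + 1)) (a := a) (b := a + 1)
    (f' := fun y => ztE c a - ztE c y) (C := ‖c‖ * (a⁻¹ * a⁻¹))
    (fun y hy => (hd y (by linarith [hy.1])).hasDerivWithinAt)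
    (fun y hy => by
      rw [norm_sub_rev]
      exact zt_step1 hc ha ⟨hy.1, hy.2.le⟩)
    (a + 1) ⟨by linarith, le_rfl⟩
  have h2 : a + 1 - a = 1 := by ring
  rw [h2, mul_one] at h1
  have h3 : ztE c a - (ztE (c + 1) (a + 1) / (c + 1) - ztE (c + 1) a / (c + 1)) =
      ztE c a * ((a + 1 : ℝ) : ℂ) - ztE (c + 1) (a + 1) / (c + 1) -
        (ztE c a * (a : ℂ) - ztE (c + 1) a / (c + 1)) := by
    push_cast
    ring
  rw [h3]
  exact h1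

private theorem zt_sum {c : ℂ} (hc : c.re ≤ -1) (hc1 : c + 1 ≠ 0) {N : ℕ} (hN : 1 ≤ N)
    (R : ℕ) : ‖∑ k ∈ range R, ztE c ((k + N : ℕ) : ℝ) -
      (ztE (c + 1) ((R + N : ℕ) : ℝ) / (c + 1) - ztE (c + 1) (N : ℝ) / (c + 1))‖ ≤
      2 * ‖c‖ * ((N : ℝ)⁻¹ - ((R + N : ℕ) : ℝ)⁻¹) := by
  induction R with
  | zero => simp
  | succ R ih =>
    have hp : (1 : ℝ) ≤ ((R + N : ℕ) : ℝ) := by exact_mod_cast (by omega : 1 ≤ R + N)
    have h1 := zt_step2 hc hc1 hp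
    have h2 : ((R + N : ℕ) : ℝ) + 1 = ((R + 1 + N : ℕ) : ℝ) := by
      push_cast
      ring
    rw [h2] at h1
    have h3 : (((R + N : ℕ) : ℝ)⁻¹ * ((R + N : ℕ) : ℝ)⁻¹) ≤
        2 * (((R + N : ℕ) : ℝ)⁻¹ - ((R + 1 + N : ℕ) : ℝ)⁻¹) := by
      rw [← h2]
      generalize ((R + N : ℕ) : ℝ) = a at hp
      have ha : 0 < a := by linarith
      have h4 : a⁻¹ - (a + 1)⁻¹ = a⁻¹ * (a + 1)⁻¹ := by
        field_simp
        ring
      have h5 : a⁻¹ ≤ 2 * (a + 1)⁻¹ := by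
        have h8 : 2 * (a + 1)⁻¹ - a⁻¹ = (a - 1) / (a * (a + 1)) := by
          field_simp
          ring
        have h9 : 0 ≤ (a - 1) / (a * (a + 1)) := div_nonneg (by linarith) (by positivity)
        linarith
      rw [h4]
      calc a⁻¹ * a⁻¹ ≤ a⁻¹ * (2 * (a + 1)⁻¹) :=
            mul_le_mul_of_nonneg_left h5 (inv_nonneg.2 ha.le)
        _ = 2 * (a⁻¹ * (a + 1)⁻¹) := by ring
    have h6 := mul_le_mul_of_nonneg_left h3 (norm_nonneg c)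
    rw [Finset.sum_range_succ]
    have h7 : ∑ k ∈ range R, ztE c ((k + N : ℕ) : ℝ) + ztE c ((R + N : ℕ) : ℝ) -
        (ztE (c + 1) ((R + 1 + N : ℕ) : ℝ) / (c + 1) - ztE (c + 1) (N : ℝ) / (c + 1)) =
        (∑ k ∈ range R, ztE c ((k + N : ℕ) : ℝ) -
          (ztE (c + 1) ((R + N : ℕ) : ℝ) / (c + 1) - ztE (c + 1) (N : ℝ) / (c + 1))) +
        (ztE c ((R + N : ℕ) : ℝ) - (ztE (c + 1) ((R + 1 + N : ℕ) : ℝ) / (c + 1) -
          ztE (c + 1) ((R + N : ℕ) : ℝ) / (c + 1))) := by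
      ring
    rw [h7]
    refine (norm_add_le _ _).trans ?_
    linarith

private theorem zt_dt (σ t : ℝ) {n : ℕ} (hn : 1 ≤ n) :
    dt σ t n = ztE (((-(1 + σ) : ℝ) : ℂ) + ((-t : ℝ) : ℂ) * Complex.I) (n : ℝ) := by
  have hn0 : (0 : ℝ) < (n : ℝ) := by exact_mod_cast hn
  unfold dt ph ztE
  rw [Real.rpow_def_of_pos hn0, Complex.ofReal_exp, ← Complex.exp_add]
  congr 1
  push_cast
  ring

theorem zeta_tail {σ : ℝ} (hσ : 0 < σ) (hσ1 : σ ≤ 1) {t : ℝ} (ht : 1 / 2 ≤ |t|) {N : ℕ}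
    (hN : 1 ≤ N) (htN : |t| ≤ N) : ‖∑' n : ℕ, dt σ t (n + N)‖ ≤ 10 := by
  obtain ⟨c, hc⟩ : ∃ c : ℂ, c = ((-(1 + σ) : ℝ) : ℂ) + ((-t : ℝ) : ℂ) * Complex.I := ⟨_, rfl⟩
  have hre : c.re = -(1 + σ) := by
    rw [hc]
    simp
  have him : c.im = -t := by
    rw [hc]
    simp
  have hc0 : c.re ≤ -1 := by
    rw [hre]
    linarith
  have him1 : |t| ≤ ‖c + 1‖ := by
    have h1 := Complex.abs_im_le_norm (c + 1)
    have h2 : (c + 1).im = -t := by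
      rw [Complex.add_im, him, Complex.one_im, add_zero]
    rw [h2, abs_neg] at h1
    exact h1
  have hcn : 1 / 2 ≤ ‖c + 1‖ := ht.trans him1
  have hc1 : c + 1 ≠ 0 := by
    intro h
    rw [h, norm_zero] at hcn
    linarith
  have hcle : ‖c‖ ≤ 3 * N := by
    have h1 := Complex.norm_le_abs_re_add_abs_im c
    have hN' : (1 : ℝ) ≤ N := by exact_mod_cast hN
    rw [hre, him, abs_neg, abs_neg, abs_of_pos (by linarith : 0 < 1 + σ)] at h1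
    linarith
  have hPhi : ∀ m : ℕ, 1 ≤ m → ‖ztE (c + 1) (m : ℝ) / (c + 1)‖ ≤ 2 := by
    intro m hm
    have hm' : (1 : ℝ) ≤ m := by exact_mod_cast hm
    have h1 : ‖ztE (c + 1) (m : ℝ)‖ ≤ 1 := by
      refine ztE_le_one ?_ hm'
      rw [Complex.add_re, hre, Complex.one_re]
      linarith
    rw [norm_div, div_le_iff₀ (by linarith)]
    linarith
  have hbd : ∀ R : ℕ, ‖∑ k ∈ range R, dt σ t (k + N)‖ ≤ 10 := by
    intro R
    have h1 := zt_sum hc0 hc1 hN R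
    have h2 : ∑ k ∈ range R, dt σ t (k + N) = ∑ k ∈ range R, ztE c ((k + N : ℕ) : ℝ) :=
      Finset.sum_congr rfl fun k _ => by
        rw [hc]
        exact zt_dt σ t (by omega)
    rw [h2]
    have hA := hPhi (R + N) (by omega)
    have hB := hPhi N hN
    have hN' : (0 : ℝ) < N := by exact_mod_cast hN
    have h3 : 2 * ‖c‖ * ((N : ℝ)⁻¹ - ((R + N : ℕ) : ℝ)⁻¹) ≤ 6 := by
      have h4 : (0 : ℝ) ≤ ((R + N : ℕ) : ℝ)⁻¹ := inv_nonneg.2 (Nat.cast_nonneg _)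
      have h5 : 2 * ‖c‖ * ((N : ℝ)⁻¹ - ((R + N : ℕ) : ℝ)⁻¹) ≤ 2 * ‖c‖ * (N : ℝ)⁻¹ :=
        mul_le_mul_of_nonneg_left (by linarith) (by positivity)
      have h6 : 2 * ‖c‖ * (N : ℝ)⁻¹ ≤ 2 * (3 * N) * (N : ℝ)⁻¹ :=
        mul_le_mul_of_nonneg_right (by linarith) (by positivity)
      have h7 : 2 * (3 * (N : ℝ)) * (N : ℝ)⁻¹ = 6 := by
        field_simp
        norm_num
      linarith
    have h8 : ∀ z a b : ℂ, ‖z‖ ≤ ‖z - (a - b)‖ + (‖a‖ + ‖b‖) := by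
      intro z a b
      calc ‖z‖ = ‖(z - (a - b)) + (a - b)‖ := by rw [sub_add_cancel]
        _ ≤ ‖z - (a - b)‖ + ‖a - b‖ := norm_add_le _ _
        _ ≤ ‖z - (a - b)‖ + (‖a‖ + ‖b‖) := by
          have := norm_sub_le a b
          linarith
    have h9 := h8 (∑ k ∈ range R, ztE c ((k + N : ℕ) : ℝ))
      (ztE (c + 1) ((R + N : ℕ) : ℝ) / (c + 1)) (ztE (c + 1) (N : ℝ) / (c + 1))
    linarith
  have hsum : Summable fun n : ℕ => dt σ t n := by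
    refine Summable.of_norm ?_
    refine (summable_rpow hσ).congr fun n => ?_
    rw [norm_dt]
  have hsum' : Summable fun n : ℕ => dt σ t (n + N) := (summable_nat_add_iff N).2 hsum
  exact le_of_tendsto hsum'.hasSum.tendsto_sum_nat.norm (Filter.Eventually.of_forall hbd)

end Pool.Agent.MOM
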