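import Pool.Agent.MOM.Hal.ZBlock
import Pool.Agent.MOM.Hal.ZTail

/-!
MOM, HAL part 5c: `|ζ(1 + 1/Y + it)| ≤ Y/K` for `1/2 ≤ |t| ≤ e^{AY}`, `Y` large.

PROOF. `σ = 1/Y ≤ 1`. Let `N1 = ⌈exp(Y/(2K))⌉₊`, so `exp(Y/(2K)) ≤ N1 ≤ 2 exp(Y/(2K))`.
(1) `‖∑_{n<N1} dt σ t n‖ ≤ ∑_{1 ≤ n < N1} 1/n ≤ 1 + log N1 ≤ Y/(2K) + 2` (`harmonic_le_one_add_log`).
(2) Let `I` be the least natural number with `|t|³ ≤ N1 2^I`. For `i < I`: `M_i = N1 2^i` satisfies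
`M_i < |t|³`, i.e. `M_i^{1/3} ≤ |t|`, and `|t| ≤ e^{AY} ≤ M_i^{2AK}` as `M_i ≥ exp(Y/(2K))`; so
`zeta_block (2AK)` gives `‖∑_{n ∈ Ico M_i (2 M_i)} dt σ t n‖ ≤ C M_i^{-c}` and the sum over `i < I`
is at most `C ∑_i (2^i)^{-c} = C/(1 - 2^{-c}) =: C'` (`N1 ≥ 1`).
(3) `N = N1 2^I ≥ 1`, `N ≥ |t|`: since `N ≥ |t|³` and either `|t| ≥ 1` (then `|t|³ ≥ |t|`) or
`|t| < 1 ≤ N`. So `zeta_tail`: the rest is `≤ 10`.
Total `≤ Y/(2K) + 12 + C'(K,A) ≤ Y/K` for `Y ≥ Y0 = max 1 (2K(12 + C'))`. The series is split with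
`Summable.sum_add_tsum_nat_add` (`FF (fun _ => 1) σ t = ∑' n, 1 * dt σ t n`), and `range N = range
N1 ∪ ⋃_{i<I} Ico (N1 2^i) (N1 2^{i+1})` (induction on `I`, `Finset.sum_range_add_sum_Ico` or similar).
-/

set_option autoImplicit false

namespace Pool.Agent.MOM

open Finset

private theorem ZSmall_head {σ : ℝ} (hσ : 0 < σ) (t : ℝ) (N : ℕ) (hN : 1 ≤ N) :
    ‖∑ n ∈ range N, dt σ t n‖ ≤ 1 + Real.log N := by
  obtain ⟨m, rfl⟩ : ∃ m, N = m + 1 := ⟨N - 1, by omega⟩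
  rw [sum_range_succ', dt_zero_right hσ, add_zero]
  refine (norm_sum_le _ _).trans ?_
  have h1 : ∀ n ∈ range m, ‖dt σ t (n + 1)‖ ≤ ((n + 1 : ℕ) : ℝ)⁻¹ := by
    intro n _
    rw [norm_dt]
    have h2 : (1 : ℝ) ≤ ((n + 1 : ℕ) : ℝ) := by
      push_cast
      have : (0 : ℝ) ≤ n := Nat.cast_nonneg n
      linarith
    calc ((n + 1 : ℕ) : ℝ) ^ (-(1 + σ)) ≤ ((n + 1 : ℕ) : ℝ) ^ (-1 : ℝ) :=
          Real.rpow_le_rpow_of_exponent_le h2 (by linarith)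
      _ = ((n + 1 : ℕ) : ℝ)⁻¹ := Real.rpow_neg_one _
  refine (sum_le_sum h1).trans ?_
  have h3 : ∑ n ∈ range m, ((n + 1 : ℕ) : ℝ)⁻¹ = ((harmonic m : ℚ) : ℝ) := by
    unfold harmonic
    push_cast
    rfl
  rw [h3]
  refine (harmonic_le_one_add_log m).trans ?_
  rcases Nat.eq_zero_or_pos m with rfl | hm
  · simp
  · have h4 : Real.log (m : ℝ) ≤ Real.log ((m + 1 : ℕ) : ℝ) := by
      apply Real.log_le_log (by exact_mod_cast hm)
      push_cast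
      linarith
    linarith

private theorem ZSmall_split (x : ℕ → ℂ) (N1 I : ℕ) :
    ∑ n ∈ range (N1 * 2 ^ I), x n = ∑ n ∈ range N1, x n +
      ∑ i ∈ range I, ∑ n ∈ Ico (N1 * 2 ^ i) (N1 * 2 ^ (i + 1)), x n := by
  induction I with
  | zero => simp
  | succ I ih =>
    rw [sum_range_succ _ I, ← add_assoc, ← ih]
    symm
    refine Finset.sum_range_add_sum_Ico _ ?_
    exact Nat.mul_le_mul_left _ (Nat.pow_le_pow_right (by norm_num) (by omega))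

theorem zeta_small (K A : ℝ) (hK : 1 ≤ K) (hA : 1 ≤ A) : ∃ Y0 : ℝ, 1 ≤ Y0 ∧ ∀ Y : ℝ, Y0 ≤ Y →
    ∀ t : ℝ, 1 / 2 ≤ |t| → |t| ≤ Real.exp (A * Y) → ‖FF (fun _ => 1) (1 / Y) t‖ ≤ Y / K := by
  have hK2 : 1 ≤ 2 * A * K := by nlinarith
  obtain ⟨c, hc, hc1, C, hC, hblock⟩ := zeta_block (2 * A * K) hK2
  have hr0 : (0 : ℝ) < 2 ^ (-c) := by positivity
  have hr1 : (2 : ℝ) ^ (-c) < 1 := Real.rpow_lt_one_of_one_lt_of_neg (by norm_num) (by linarith)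
  have hC' : 0 < C / (1 - 2 ^ (-c)) := div_pos hC (by linarith)
  refine ⟨max 1 (2 * K * (12 + C / (1 - 2 ^ (-c)))), le_max_left _ _, ?_⟩
  intro Y hY t ht htA
  have hY1 : 1 ≤ Y := (le_max_left _ _).trans hY
  have hY2 : 2 * K * (12 + C / (1 - 2 ^ (-c))) ≤ Y := (le_max_right _ _).trans hY
  have hK0 : 0 < K := by linarith
  have hσ : 0 < 1 / Y := by positivity
  have hσ1 : 1 / Y ≤ 1 := by
    rw [div_le_one (by linarith)]
    exact hY1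
  -- the cut
  have he1 : 1 ≤ Real.exp (Y / (2 * K)) := Real.one_le_exp (by positivity)
  obtain ⟨N1, hN1⟩ : ∃ N1 : ℕ, N1 = ⌈Real.exp (Y / (2 * K))⌉₊ := ⟨_, rfl⟩
  have hN1a : Real.exp (Y / (2 * K)) ≤ N1 := by
    rw [hN1]
    exact Nat.le_ceil _
  have hN1b : (N1 : ℝ) ≤ 2 * Real.exp (Y / (2 * K)) := by
    have := Nat.ceil_lt_add_one (Real.exp_pos (Y / (2 * K))).le
    rw [← hN1] at this
    linarith
  have hN1c : (1 : ℝ) ≤ N1 := he1.trans hN1a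
  have hN1d : 1 ≤ N1 := by exact_mod_cast hN1c
  have hhead : ‖∑ n ∈ range N1, dt (1 / Y) t n‖ ≤ Y / (2 * K) + 2 := by
    refine (ZSmall_head hσ t N1 hN1d).trans ?_
    have h1 : Real.log N1 ≤ Real.log (2 * Real.exp (Y / (2 * K))) :=
      Real.log_le_log (by linarith) hN1b
    rw [Real.log_mul (by norm_num) (Real.exp_pos _).ne', Real.log_exp] at h1
    have h2 : Real.log 2 ≤ 1 := by
      have := Real.log_two_lt_d9
      linarith
    linarith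
  -- the number of blocks
  have hex : ∃ I : ℕ, |t| ^ 3 ≤ (N1 : ℝ) * 2 ^ I := by
    obtain ⟨I, hI⟩ := pow_unbounded_of_one_lt (|t| ^ 3) (by norm_num : (1 : ℝ) < 2)
    refine ⟨I, hI.le.trans ?_⟩
    have : (0 : ℝ) < 2 ^ I := by positivity
    nlinarith
  classical
  obtain ⟨I, hI1, hI2⟩ : ∃ I : ℕ, |t| ^ 3 ≤ (N1 : ℝ) * 2 ^ I ∧
      ∀ i < I, (N1 : ℝ) * 2 ^ i < |t| ^ 3 :=
    ⟨Nat.find hex, Nat.find_spec hex, fun i hi => not_le.1 (Nat.find_min hex hi)⟩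
  have hmid : ‖∑ i ∈ range I, ∑ n ∈ Ico (N1 * 2 ^ i) (N1 * 2 ^ (i + 1)), dt (1 / Y) t n‖ ≤
      C / (1 - 2 ^ (-c)) := by
    have hb : ∀ i ∈ range I, ‖∑ n ∈ Ico (N1 * 2 ^ i) (N1 * 2 ^ (i + 1)), dt (1 / Y) t n‖ ≤
        C * ((2 : ℝ) ^ (-c)) ^ i := by
      intro i hi
      have hi' := hI2 i (mem_range.1 hi)
      have h2i : (1 : ℝ) ≤ 2 ^ i := one_le_pow₀ (by norm_num)
      have hM1 : (1 : ℝ) ≤ (N1 : ℝ) * 2 ^ i := by nlinarith
      have hM2 : Real.exp (Y / (2 * K)) ≤ (N1 : ℝ) * 2 ^ i := by nlinarith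
      have h3 : ((N1 : ℝ) * 2 ^ i) ^ (1 / 3 : ℝ) ≤ |t| := by
        have h4 : ((N1 : ℝ) * 2 ^ i) ^ (1 / 3 : ℝ) ≤ (|t| ^ 3) ^ (1 / 3 : ℝ) :=
          Real.rpow_le_rpow (by linarith) hi'.le (by norm_num)
        have h5 : (|t| ^ 3) ^ (1 / 3 : ℝ) = |t| := by
          rw [← Real.rpow_natCast, ← Real.rpow_mul (abs_nonneg t)]
          norm_num
        rwa [h5] at h4
      have h6 : |t| ≤ ((N1 : ℝ) * 2 ^ i) ^ (2 * A * K) := by
        refine htA.trans ?_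
        have h7 : Real.exp (A * Y) = Real.exp (Y / (2 * K)) ^ (2 * A * K) := by
          rw [← Real.exp_mul]
          congr 1
          field_simp
        rw [h7]
        exact Real.rpow_le_rpow (Real.exp_pos _).le hM2 (by linarith)
      have h8 := hblock ((N1 : ℝ) * 2 ^ i) hM1 t h3 h6 (1 / Y) hσ.le hσ1 (N1 * 2 ^ i)
        (N1 * 2 ^ (i + 1)) (by push_cast; exact le_rfl)
        (by push_cast; rw [pow_succ]; linarith)
      refine h8.trans ?_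
      refine mul_le_mul_of_nonneg_left ?_ hC.le
      have h9 : ((2 : ℝ) ^ (-c)) ^ i = ((2 : ℝ) ^ i) ^ (-c) := by
        rw [← Real.rpow_natCast, ← Real.rpow_natCast, ← Real.rpow_mul (by norm_num),
          ← Real.rpow_mul (by norm_num), mul_comm]
      rw [h9]
      exact Real.rpow_le_rpow_of_nonpos (by positivity) (by nlinarith) (by linarith)
    refine (norm_sum_le _ _).trans ((sum_le_sum hb).trans ?_)
    rw [← mul_sum, div_eq_mul_inv]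
    refine mul_le_mul_of_nonneg_left ?_ hC.le
    rw [← tsum_geometric_of_lt_one hr0.le hr1]
    exact Summable.sum_le_tsum _ (fun i _ => by positivity)
      (summable_geometric_of_lt_one hr0.le hr1)
  have htail : ‖∑' n : ℕ, dt (1 / Y) t (n + N1 * 2 ^ I)‖ ≤ 10 := by
    have h2I : 1 ≤ 2 ^ I := Nat.one_le_two_pow
    have hN : 1 ≤ N1 * 2 ^ I := Nat.one_le_iff_ne_zero.2 (by positivity)
    refine zeta_tail hσ hσ1 ht hN ?_
    have h1 : ((N1 * 2 ^ I : ℕ) : ℝ) = (N1 : ℝ) * 2 ^ I := by push_cast; rfl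
    have h2 : (1 : ℝ) ≤ ((N1 * 2 ^ I : ℕ) : ℝ) := by exact_mod_cast hN
    rcases le_total 1 |t| with h3 | h3
    · rw [h1]
      refine le_trans ?_ hI1
      calc |t| = |t| ^ 1 := (pow_one _).symm
        _ ≤ |t| ^ 3 := pow_le_pow_right₀ h3 (by norm_num)
    · exact h3.trans h2
  have hsum : Summable fun n : ℕ => dt (1 / Y) t n := by
    refine Summable.of_norm ?_
    simp_rw [norm_dt]
    exact summable_rpow hσ
  have hFF : FF (fun _ => 1) (1 / Y) t = ∑ n ∈ range (N1 * 2 ^ I), dt (1 / Y) t n +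
      ∑' n : ℕ, dt (1 / Y) t (n + N1 * 2 ^ I) := by
    unfold FF
    simp_rw [one_mul]
    exact (hsum.sum_add_tsum_nat_add _).symm
  rw [hFF, ZSmall_split]
  have hfin : Y / (2 * K) + 2 + C / (1 - 2 ^ (-c)) + 10 ≤ Y / K := by
    have h1 : Y / K = Y / (2 * K) + Y / (2 * K) := by
      field_simp
      norm_num
    have h2 : 12 + C / (1 - 2 ^ (-c)) ≤ Y / (2 * K) := by
      rw [le_div_iff₀ (by positivity)]
      linarith
    linarith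
  refine le_trans ?_ hfin
  refine (norm_add_le _ _).trans (add_le_add ?_ htail)
  exact (norm_add_le _ _).trans (add_le_add hhead hmid)

end Pool.Agent.MOM
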