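import Pool.Agent.MOM.Hal.EulF
import Pool.Agent.MOM.Hal.ZLow
import Pool.Agent.MOM.Hal.Triv
import Pool.Agent.MOM.Hal.ZSmall
import Pool.Agent.MOM.NT.Mertens

/-!
MOM, HAL part 6: `F = FF (ff Q θ) (1/Y)` is `≤ δ Y` on `|t| ≤ e^{AY}`.

PROOF. Let `σ = 1/Y ≤ 1`, `f = ff Q θ`, `P1(t) = PR (fun _ => 1) σ t = ∑'_p p^{-(1+σ)} cos(t log p)`
(real part of `dt σ t p`). For primes `p ∉ Q`: `f p = -1`; for `p ∈ Q`: `f p = -θ` (`ff_prime`), so
`PR f σ t = -P1(t) + ∑_{p ∈ Q} (1-θ) Re dt σ t p ≤ -P1(t) + qs Q` (`‖dt σ t p‖ ≤ 1/p`).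
`qs Q ≤ qs (prs (e^{ε²Y}) (e^{εY})) ≤ log(1/ε) + C/(ε² Y) ≤ log(1/ε) + 1` for `Y` large by
`mertens_qs`
(`log (e^{εY})/log (e^{ε²Y}) = 1/ε`; `e^{ε² Y} ≥ 2`). So by `FF_euler`:
(*) `‖F(t)‖ ≤ exp(-P1(t) + log(1/ε) + 2)`.
Case `|t| ≤ 1`: by `zeta_euler` (upper bound) and `zeta_low`: `c ≤ ‖ζ‖ ≤ exp(P1(t)+1)`, so
`-P1(t) ≤ 1 - log c` and `‖F(t)‖ ≤ e³/(c ε) ≤ δ Y` for `Y` large.
Case `|t| ≥ 1`: pointwise `-cos a ≤ 3/4 + cos(2a)/4` (`(1 + cos a)² ≥ 0`, `cos 2a = 2cos² a - 1`),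
so
termwise `-P1(t) ≤ (3/4) P1(0) + (1/4) P1(2t)` (all series summable: `summable_PR`). `zeta_euler`
(lower bound) at `0` and `FF_triv`: `P1(0) ≤ 1 + log(1+Y) ≤ 1 + log(2Y)`; at `2t` and `zeta_small K
(A+1)` (`1/2 ≤ |2t| ≤ 2e^{AY} ≤ e^{(A+1)Y}` for `Y ≥ 1`): `P1(2t) ≤ 1 + log(Y/K)`. Hence
`‖F(t)‖ ≤ exp(log(1/ε) + 3 + (3/4) log(2Y) + (1/4) log(Y/K)) ≤ (2e³/ε) Y K^{-1/4}`, which is `≤ δ
Y` if
`K ≥ (2e³/(ε δ))⁴` (choose `K` first).
-/

set_option autoImplicit false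

namespace Pool.Agent.MOM

open Finset

private theorem dt_re (σ t : ℝ) (n : ℕ) :
    (dt σ t n).re = (n : ℝ) ^ (-(1 + σ)) * Real.cos (t * Real.log n) := by
  unfold dt ph
  rw [Complex.re_ofReal_mul, Complex.exp_ofReal_mul_I_re, Real.cos_neg]

private theorem P1_eq (σ t : ℝ) : PR (fun _ => 1) σ t =
    ∑' p : Nat.Primes, ((p : ℕ) : ℝ) ^ (-(1 + σ)) * Real.cos (t * Real.log (p : ℕ)) := by
  unfold PR
  refine tsum_congr fun p => ?_
  rw [one_mul, dt_re]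

private theorem P1_summable {σ : ℝ} (hσ : 0 < σ) (t : ℝ) : Summable fun p : Nat.Primes =>
    ((p : ℕ) : ℝ) ^ (-(1 + σ)) * Real.cos (t * Real.log (p : ℕ)) := by
  have h := summable_PR (f := fun _ => 1) (fun _ => by simp) hσ t
  refine h.congr fun p => ?_
  rw [one_mul, dt_re]

/-- the inequality of Mertens -/
private theorem P1_mertens {σ : ℝ} (hσ : 0 < σ) (t : ℝ) : -PR (fun _ => 1) σ t ≤
    3 / 4 * PR (fun _ => 1) σ 0 + 1 / 4 * PR (fun _ => 1) σ (2 * t) := by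
  rw [P1_eq, P1_eq, P1_eq, ← tsum_neg, ← tsum_mul_left, ← tsum_mul_left,
    ← ((P1_summable hσ 0).mul_left (3 / 4)).tsum_add ((P1_summable hσ (2 * t)).mul_left (1 / 4))]
  refine ((P1_summable hσ t).neg).tsum_le_tsum ?_
    (((P1_summable hσ 0).mul_left (3 / 4)).add ((P1_summable hσ (2 * t)).mul_left (1 / 4)))
  intro p
  have h0 : (0 : ℝ) ≤ ((p : ℕ) : ℝ) ^ (-(1 + σ)) := Real.rpow_nonneg (Nat.cast_nonneg _) _
  have h1 : Real.cos (2 * t * Real.log (p : ℕ)) =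
      2 * Real.cos (t * Real.log (p : ℕ)) ^ 2 - 1 := by
    rw [mul_assoc, Real.cos_two_mul]
  rw [h1, zero_mul, Real.cos_zero]
  have h2 : 0 ≤ ((p : ℕ) : ℝ) ^ (-(1 + σ)) * (1 + Real.cos (t * Real.log (p : ℕ))) ^ 2 :=
    mul_nonneg h0 (sq_nonneg _)
  nlinarith

private theorem PR_le {Q : Finset ℕ} (hQ : ∀ p ∈ Q, p.Prime) {θ : ℝ} (h0 : 0 ≤ θ) (h1 : θ ≤ 1)
    {σ : ℝ} (hσ : 0 < σ) (t : ℝ) :
    PR (ff Q θ) σ t ≤ -PR (fun _ => 1) σ t + qs Q := by
  have s1 := summable_PR (norm_ff_le Q h0 h1) hσ t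
  have s2 := summable_PR (f := fun _ => 1) (fun _ => by simp) hσ t
  let g : ℕ → ℝ := fun n => if n ∈ Q then 1 / (n : ℝ) else 0
  have hg0 : ∀ n, 0 ≤ g n := by
    intro n
    change 0 ≤ if n ∈ Q then 1 / (n : ℝ) else 0
    split_ifs
    · positivity
    · exact le_rfl
  have hgs : Summable g := by
    refine summable_of_ne_finset_zero (s := Q) fun n hn => ?_
    change (if n ∈ Q then 1 / (n : ℝ) else 0) = 0
    rw [if_neg hn]
  have hgp : Summable fun p : Nat.Primes => g p := hgs.subtype {p : ℕ | p.Prime}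
  have h2 : ∑' p : Nat.Primes, g p ≤ qs Q := by
    have h3 : ∑' n, g n = qs Q := by
      rw [tsum_eq_sum (s := Q)]
      · unfold qs
        refine Finset.sum_congr rfl fun n hn => ?_
        change (if n ∈ Q then 1 / (n : ℝ) else 0) = _
        rw [if_pos hn]
      · intro n hn
        change (if n ∈ Q then 1 / (n : ℝ) else 0) = 0
        rw [if_neg hn]
    rw [← h3]
    exact tsum_comp_le_tsum_of_inj hgs hg0 (i := fun p : Nat.Primes => (p : ℕ))
      Subtype.val_injective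
  have h4 : PR (ff Q θ) σ t + PR (fun _ => 1) σ t ≤ ∑' p : Nat.Primes, g p := by
    unfold PR
    rw [← s1.tsum_add s2]
    refine (s1.add s2).tsum_le_tsum (fun p => ?_) hgp
    change (ff Q θ p * dt σ t p).re + (1 * dt σ t p).re ≤
      if (p : ℕ) ∈ Q then 1 / ((p : ℕ) : ℝ) else 0
    rw [ff_prime hQ θ p.2]
    split_ifs with hp
    · have e : (-(θ : ℂ) * dt σ t p).re + (1 * dt σ t p).re = (1 - θ) * (dt σ t p).re := by
        rw [neg_mul, Complex.neg_re, Complex.re_ofReal_mul, one_mul]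
        ring
      rw [e]
      have h5 : (dt σ t p).re ≤ 1 / ((p : ℕ) : ℝ) := by
        refine (Complex.re_le_norm _).trans ?_
        rw [norm_dt, one_div, ← Real.rpow_neg_one]
        have hp1 : (1 : ℝ) ≤ ((p : ℕ) : ℝ) := by exact_mod_cast p.2.one_lt.le
        exact Real.rpow_le_rpow_of_exponent_le hp1 (by linarith)
      have hp0 : (0 : ℝ) ≤ 1 / ((p : ℕ) : ℝ) := by positivity
      nlinarith
    · have e : (-1 * dt σ t p).re + (1 * dt σ t p).re = 0 := by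
        rw [neg_one_mul, Complex.neg_re, one_mul]
        ring
      rw [e]
  linarith

theorem FF_small (ε A δ : ℝ) (hε : 0 < ε) (hε1 : ε < 1) (hA : 1 ≤ A) (hδ : 0 < δ) :
    ∃ Y0 : ℝ, 1 ≤ Y0 ∧ ∀ Y : ℝ, Y0 ≤ Y → ∀ Q : Finset ℕ,
      (∀ p ∈ Q, p.Prime ∧ Real.exp (ε ^ 2 * Y) ≤ p ∧ (p : ℝ) < Real.exp (ε * Y)) →
      ∀ θ : ℝ, 0 ≤ θ → θ ≤ 1 → ∀ t : ℝ, |t| ≤ Real.exp (A * Y) →
        ‖FF (ff Q θ) (1 / Y) t‖ ≤ δ * Y := by
  obtain ⟨C, hC0, hC⟩ := mertens_qs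
  obtain ⟨c, hc, hlow⟩ := zeta_low
  set K : ℝ := max 1 (Real.exp (4 * (4 - Real.log ε - Real.log δ))) with hK
  have hK1 : 1 ≤ K := le_max_left _ _
  have hKl : 4 * (4 - Real.log ε - Real.log δ) ≤ Real.log K := by
    rw [Real.le_log_iff_exp_le (by linarith)]
    exact le_max_right _ _
  obtain ⟨Y1, hY1, hsm⟩ := zeta_small K (A + 1) hK1 (by linarith)
  set Y2 : ℝ := Real.exp (3 - Real.log c - Real.log ε - Real.log δ) with hY2
  set Y3 : ℝ := (C + 1) / ε ^ 2 with hY3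
  refine ⟨max Y1 (max Y2 Y3), hY1.trans (le_max_left _ _), ?_⟩
  intro Y hY Q hQ θ h0 h1 t ht
  have hYY1 : Y1 ≤ Y := (le_max_left _ _).trans hY
  have hYY2 : Y2 ≤ Y := ((le_max_left _ _).trans (le_max_right _ _)).trans hY
  have hYY3 : Y3 ≤ Y := ((le_max_right _ _).trans (le_max_right _ _)).trans hY
  have hY1' : 1 ≤ Y := hY1.trans hYY1
  have hYp : 0 < Y := by linarith
  have hσ : 0 < 1 / Y := by positivity
  have hσ1 : 1 / Y ≤ 1 := by
    rw [div_le_one hYp]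
    exact hY1'
  have hε2 : 0 < ε ^ 2 := by positivity
  have hεY : C + 1 ≤ ε ^ 2 * Y := by
    rw [hY3, div_le_iff₀ hε2] at hYY3
    linarith
  have hlogε : Real.log ε < 0 := Real.log_neg hε hε1
  -- the sum over `Q`
  have hqs : qs Q ≤ -Real.log ε + 1 := by
    have a1 : (2 : ℝ) ≤ Real.exp (ε ^ 2 * Y) := by
      have h3 := Real.add_one_le_exp (ε ^ 2 * Y)
      linarith
    have a2 : Real.exp (ε ^ 2 * Y) ≤ Real.exp (ε * Y) := by
      apply Real.exp_le_exp.2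
      have : ε ^ 2 ≤ ε := by nlinarith
      exact mul_le_mul_of_nonneg_right this hYp.le
    have h3 := (abs_le.1 (hC _ _ a1 a2)).2
    rw [Real.log_exp, Real.log_exp] at h3
    have e : ε * Y / (ε ^ 2 * Y) = ε⁻¹ := by
      field_simp
    rw [e, Real.log_inv] at h3
    have h4 : C / (ε ^ 2 * Y) ≤ 1 := by
      rw [div_le_one (by positivity)]
      linarith
    have h5 : qs Q ≤ qs (prs (Real.exp (ε ^ 2 * Y)) (Real.exp (ε * Y))) := by
      unfold qs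
      refine Finset.sum_le_sum_of_subset_of_nonneg (fun p hp => ?_) fun p _ _ => by positivity
      exact mem_prs.2 ⟨(hQ p hp).2, (hQ p hp).1⟩
    linarith
  have hF : ‖FF (ff Q θ) (1 / Y) t‖ ≤
      Real.exp (-PR (fun _ => 1) (1 / Y) t - Real.log ε + 2) := by
    refine (FF_euler (fun p hp => (hQ p hp).1) h0 h1 hσ t).trans (Real.exp_le_exp.2 ?_)
    have h3 := PR_le (fun p hp => (hQ p hp).1) h0 h1 hσ t
    linarith
  refine hF.trans ?_
  rw [← Real.le_log_iff_exp_le (by positivity), Real.log_mul hδ.ne' hYp.ne']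
  by_cases ht1 : |t| ≤ 1
  · have h3 := hlow (1 / Y) hσ hσ1 t ht1
    have h4 := h3.trans (zeta_euler hσ t).2
    rw [← Real.log_le_iff_le_exp hc] at h4
    have h5 : 3 - Real.log c - Real.log ε - Real.log δ ≤ Real.log Y := by
      rw [Real.le_log_iff_exp_le hYp]
      exact hYY2
    linarith
  · push Not at ht1
    have h3 := P1_mertens hσ t
    have h4 : PR (fun _ => 1) (1 / Y) 0 ≤ 1 + (1 + Real.log Y) := by
      have h5 := (zeta_euler hσ 0).1.trans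
        (FF_triv (f := fun _ => 1) (fun _ => by simp) hσ 0)
      rw [one_div_one_div] at h5
      have h6 : 1 + Y ≤ 2 * Y := by linarith
      have h7 := h5.trans h6
      rw [← Real.le_log_iff_exp_le (by positivity), Real.log_mul two_ne_zero hYp.ne'] at h7
      have h8 : Real.log 2 ≤ 1 := by
        have := Real.log_two_lt_d9
        linarith
      linarith
    have h5 : PR (fun _ => 1) (1 / Y) (2 * t) ≤ 1 + (Real.log Y - Real.log K) := by
      have b1 : 1 / 2 ≤ |2 * t| := by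
        rw [abs_mul, abs_two]
        linarith
      have b2 : |2 * t| ≤ Real.exp ((A + 1) * Y) := by
        rw [abs_mul, abs_two, add_mul, Real.exp_add, one_mul, mul_comm (Real.exp (A * Y))]
        have b3 : (2 : ℝ) ≤ Real.exp Y := by
          have := Real.add_one_le_exp Y
          linarith
        exact mul_le_mul b3 ht (abs_nonneg _) (by positivity)
      have h6 := (zeta_euler hσ (2 * t)).1.trans (hsm Y hYY1 (2 * t) b1 b2)
      rw [← Real.le_log_iff_exp_le (by positivity),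
        Real.log_div hYp.ne' (by linarith : K ≠ 0)] at h6
      linarith
    linarith

end Pool.Agent.MOM
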