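import Pool.Agent.MOM.Hal.TKU

/-!
MOM, HAL part 9b: from a window to the windows divided by primes.

PROOF. `X = e^y ≥ 1`, `f = ff Q θ`, `c n = f n/n · ph t n`, `DD(y) = ∑_{win X (lam X)} c n`.
(1) `qs W · DD(y) = ∑_{win} c n ω_W(n) - ∑_{win} c n (ω_W(n) - qs W)`, and the second sum is at most
`√(2(qs W+16))` by `tk_first` (`‖c n‖ ≤ 1/n`).
(2) `∑_{win} c n ω_W(n) = ∑_{p ∈ W} ∑_{n ∈ win, p ∣ n} c n`, and `n = pm` with `m ∈ win (X/p)
(lam X/p)`. For `p ∤ m`: `f (pm) = f p f m = -f m` (`ff_mul`, `ff_prime`, `p ∉ Q`), for `p ∣ m`: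
`f (pm) = 0`. So (`ph t (pm) = ph t p ph t m`) the inner sum is `-(1/p) ph t p (DD(y - log p) -
∑_{m ∈ win (X/p) (lam X/p), p ∣ m} c m)` (`e^{y - log p} = X/p`), and the last sum is at most
`(1/p) ∑_{k ∈ win (X/p²) (lam X/p²)} 1/k ≤ 2/p` (`sum_win_le` with `X/p² ≥ 1`; `m = pk`). So
`‖∑_{win} c n ω_W(n)‖ ≤ ∑_{p ∈ W} (1/p) (‖DD(y - log p)‖ + 2/p)` and `∑_{p ∈ W} 2/p² ≤ 2`
(`∑_{n ≥ 2} 1/n² ≤ 1`).
-/

set_option autoImplicit false

namespace Pool.Agent.MOM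

open Finset

private theorem ram_image {X Y : ℝ} (hX : 0 ≤ X) {p : ℕ} (hp : 0 < p) :
    (win X Y).filter (p ∣ ·) = (win (X / p) (Y / p)).image (p * ·) := by
  have hp' : (0 : ℝ) < p := by exact_mod_cast hp
  ext n
  rw [mem_filter, mem_win hX, mem_image]
  constructor
  · rintro ⟨⟨h1, h2⟩, m, rfl⟩
    refine ⟨m, ?_, rfl⟩
    rw [mem_win (by positivity), div_lt_iff₀ hp', le_div_iff₀ hp']
    push_cast at h1 h2
    constructor <;> linarith [mul_comm (p : ℝ) m]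
  · rintro ⟨m, hm, rfl⟩
    rw [mem_win (by positivity), div_lt_iff₀ hp', le_div_iff₀ hp'] at hm
    refine ⟨⟨?_, ?_⟩, dvd_mul_right p m⟩
    · push_cast
      linarith [hm.1, mul_comm (p : ℝ) m]
    · push_cast
      linarith [hm.2, mul_comm (p : ℝ) m]

private theorem ram_sum {M : Type} [AddCommMonoid M] {X Y : ℝ} (hX : 0 ≤ X) {p : ℕ}
    (hp : 0 < p) (g : ℕ → M) :
    ∑ n ∈ (win X Y).filter (p ∣ ·), g n = ∑ m ∈ win (X / p) (Y / p), g (p * m) := by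
  rw [ram_image hX hp, Finset.sum_image]
  intro a _ b _ h
  exact Nat.eq_of_mul_eq_mul_left hp h

private theorem ram_sq {W : Finset ℕ} (hW : ∀ p ∈ W, p.Prime) :
    ∑ p ∈ W, 1 / (p : ℝ) * (2 / p) ≤ 2 := by
  have h1 : W ⊆ Ioc 1 (W.sup id + 1) := by
    intro p hp
    rw [mem_Ioc]
    refine ⟨(hW p hp).one_lt, ?_⟩
    have := Finset.le_sup (f := id) hp
    simp only [id] at this
    omega
  have h2 : ∑ i ∈ Ioc 1 (W.sup id + 1), ((i : ℝ) ^ 2)⁻¹ ≤ 1 := by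
    have := sum_Ioc_inv_sq_le_sub (α := ℝ) (k := 1) (n := W.sup id + 1) one_ne_zero
      (by omega)
    refine this.trans ?_
    have h3 : (0 : ℝ) ≤ ((W.sup id + 1 : ℕ) : ℝ)⁻¹ := by positivity
    rw [Nat.cast_one, inv_one]
    linarith
  have h3 : ∑ p ∈ W, ((p : ℝ) ^ 2)⁻¹ ≤ 1 :=
    (Finset.sum_le_sum_of_subset_of_nonneg h1 fun i _ _ => by positivity).trans h2
  have h4 : ∑ p ∈ W, 1 / (p : ℝ) * (2 / p) = 2 * ∑ p ∈ W, ((p : ℝ) ^ 2)⁻¹ := by
    rw [Finset.mul_sum]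
    refine Finset.sum_congr rfl fun p hp => ?_
    have hp0 : (p : ℝ) ≠ 0 := by exact_mod_cast (hW p hp).ne_zero
    field_simp
  rw [h4]
  linarith

/-- the coefficient at `p m` -/
private theorem ram_coef {Q : Finset ℕ} (hQ : ∀ p ∈ Q, p.Prime) (θ t : ℝ) {p m : ℕ}
    (hp : p.Prime) (hpQ : p ∉ Q) (hm : m ≠ 0) :
    ff Q θ (p * m) / ((p * m : ℕ) : ℂ) * ph t (p * m) =
      -(1 / (p : ℂ)) * ph t p * (ff Q θ m / (m : ℂ) * ph t m -
        if p ∣ m then ff Q θ m / (m : ℂ) * ph t m else 0) := by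
  have hp0 : (p : ℂ) ≠ 0 := by exact_mod_cast hp.ne_zero
  have hm0 : (m : ℂ) ≠ 0 := by exact_mod_cast hm
  split_ifs with h
  · have h1 : ¬ Squarefree (p * m) := by
      intro hs
      obtain ⟨k, rfl⟩ := h
      have h2 := hs p ⟨k, by ring⟩
      exact hp.one_lt.ne' (Nat.isUnit_iff.1 h2)
    rw [ff_of_not_squarefree Q θ h1]
    simp
  · have h1 : Nat.Coprime p m := (Nat.Prime.coprime_iff_not_dvd hp).2 h
    rw [ff_mul hQ θ h1, ff_prime hQ θ hp, if_neg hpQ, ph_mul hp.ne_zero hm]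
    push_cast
    field_simp
    ring

/-- the multiples of one prime -/
private theorem ram_one {lam : ℝ} (hl : 1 < lam) (hl2 : lam ≤ 2) {Q : Finset ℕ}
    (hQ : ∀ p ∈ Q, p.Prime) {θ : ℝ} (h0 : 0 ≤ θ) (h1 : θ ≤ 1) (t : ℝ) {y : ℝ} {p : ℕ}
    (hp : p.Prime) (hpQ : p ∉ Q) (hsq : (p : ℝ) ^ 2 ≤ Real.exp y) :
    ‖∑ n ∈ (win (Real.exp y) (lam * Real.exp y)).filter (p ∣ ·),
      ff Q θ n / (n : ℂ) * ph t n‖ ≤
      1 / (p : ℝ) * ‖DD lam (ff Q θ) t (y - Real.log p)‖ + 1 / (p : ℝ) * (2 / p) := by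
  have hpp : (0 : ℝ) < p := by exact_mod_cast hp.pos
  have hX0 : 0 < Real.exp y := Real.exp_pos y
  have hpos : 0 < Real.exp y / p := by positivity
  have hexp : Real.exp (y - Real.log p) = Real.exp y / p := by
    rw [Real.exp_sub, Real.exp_log hpp]
  have hwin : win (Real.exp (y - Real.log p)) (lam * Real.exp (y - Real.log p)) =
      win (Real.exp y / p) (lam * Real.exp y / p) := by
    rw [hexp, mul_div_assoc]
  have e1 : ∑ n ∈ (win (Real.exp y) (lam * Real.exp y)).filter (p ∣ ·),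
      ff Q θ n / (n : ℂ) * ph t n = -(1 / (p : ℂ)) * ph t p *
        (DD lam (ff Q θ) t (y - Real.log p) -
          ∑ m ∈ (win (Real.exp y / p) (lam * Real.exp y / p)).filter (p ∣ ·),
            ff Q θ m / (m : ℂ) * ph t m) := by
    rw [ram_sum hX0.le hp.pos, DD_eq, hwin, Finset.sum_filter, ← Finset.sum_sub_distrib,
      Finset.mul_sum]
    refine Finset.sum_congr rfl fun m hm => ?_
    rw [mem_win hpos.le] at hm
    have hm0 : m ≠ 0 := by
      rintro rfl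
      rw [Nat.cast_zero] at hm
      linarith [hm.1]
    exact ram_coef hQ θ t hp hpQ hm0
  have e2 : ‖∑ m ∈ (win (Real.exp y / p) (lam * Real.exp y / p)).filter (p ∣ ·),
      ff Q θ m / (m : ℂ) * ph t m‖ ≤ 2 / p := by
    have g1 : ‖∑ m ∈ (win (Real.exp y / p) (lam * Real.exp y / p)).filter (p ∣ ·),
        ff Q θ m / (m : ℂ) * ph t m‖ ≤
        ∑ m ∈ (win (Real.exp y / p) (lam * Real.exp y / p)).filter (p ∣ ·), 1 / (m : ℝ) := by
      refine norm_sum_le_of_le _ fun m _ => ?_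
      rw [norm_mul, norm_ph, mul_one, norm_div, Complex.norm_natCast]
      exact div_le_div_of_nonneg_right (norm_ff_le Q h0 h1 m) (Nat.cast_nonneg m)
    refine g1.trans ?_
    rw [ram_sum hpos.le hp.pos]
    have g2 : ∀ m ∈ win (Real.exp y / p / p) (lam * Real.exp y / p / p),
        1 / ((p * m : ℕ) : ℝ) = 1 / (p : ℝ) * (1 / (m : ℝ)) := by
      intro m _
      push_cast
      rw [one_div_mul_one_div]
    rw [Finset.sum_congr rfl g2, ← Finset.mul_sum]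
    have g3 : win (Real.exp y / p / p) (lam * Real.exp y / p / p) =
        win (Real.exp y / p / p) (lam * (Real.exp y / p / p)) := by
      congr 1
      ring
    have g4 : 1 ≤ Real.exp y / p / p := by
      rw [div_div, le_div_iff₀ (by positivity), one_mul]
      nlinarith [hsq]
    rw [g3]
    have g5 := sum_win_le hl hl2 g4
    calc 1 / (p : ℝ) * ∑ m ∈ win (Real.exp y / p / p) (lam * (Real.exp y / p / p)),
          1 / (m : ℝ) ≤ 1 / (p : ℝ) * 2 := mul_le_mul_of_nonneg_left g5 (by positivity)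
      _ = 2 / p := by ring
  rw [e1, norm_mul, norm_mul, norm_neg, norm_div, norm_one, Complex.norm_natCast, norm_ph,
    mul_one, ← mul_add]
  exact mul_le_mul_of_nonneg_left ((norm_sub_le _ _).trans (by gcongr)) (by positivity)

theorem DD_ram {lam : ℝ} (hl : 1 < lam) (hl2 : lam ≤ 2) {Q : Finset ℕ}
    (hQ : ∀ p ∈ Q, p.Prime) {θ : ℝ} (h0 : 0 ≤ θ) (h1 : θ ≤ 1) (W : Finset ℕ)
    (hW : ∀ p ∈ W, p.Prime) (hWQ : ∀ p ∈ W, p ∉ Q) (t : ℝ) {y : ℝ} (hy : 0 ≤ y)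
    (hcard : (W.card : ℝ) ^ 2 ≤ Real.exp y) (hsq : ∀ p ∈ W, (p : ℝ) ^ 2 ≤ Real.exp y) :
    qs W * ‖DD lam (ff Q θ) t y‖ ≤
      ∑ p ∈ W, 1 / (p : ℝ) * ‖DD lam (ff Q θ) t (y - Real.log p)‖ +
        (Real.sqrt (2 * (qs W + 16)) + 2) := by
  have hX : 1 ≤ Real.exp y := Real.one_le_exp hy
  obtain ⟨c, hc⟩ : ∃ c : ℕ → ℂ, ∀ n, c n = ff Q θ n / (n : ℂ) * ph t n := ⟨_, fun _ => rfl⟩
  have hcn : ∀ n, ‖c n‖ ≤ 1 / (n : ℝ) := by
    intro n
    rw [hc, norm_mul, norm_ph, mul_one, norm_div, Complex.norm_natCast]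
    exact div_le_div_of_nonneg_right (norm_ff_le Q h0 h1 n) (Nat.cast_nonneg n)
  have hq0 : 0 ≤ qs W := Finset.sum_nonneg fun p _ => by positivity
  have hDD : DD lam (ff Q θ) t y = ∑ n ∈ win (Real.exp y) (lam * Real.exp y), c n := by
    rw [DD_eq]
    exact Finset.sum_congr rfl fun n _ => (hc n).symm
  have e1 : (qs W : ℂ) * DD lam (ff Q θ) t y =
      ∑ n ∈ win (Real.exp y) (lam * Real.exp y), c n * (om W n : ℂ) -
        ∑ n ∈ win (Real.exp y) (lam * Real.exp y), c n * ((om W n : ℂ) - (qs W : ℂ)) := by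
    rw [hDD, Finset.mul_sum, ← Finset.sum_sub_distrib]
    refine Finset.sum_congr rfl fun n _ => ?_
    ring
  have e2 : ∑ n ∈ win (Real.exp y) (lam * Real.exp y), c n * (om W n : ℂ) =
      ∑ p ∈ W, ∑ n ∈ (win (Real.exp y) (lam * Real.exp y)).filter (p ∣ ·), c n := by
    have g1 : ∀ n, c n * (om W n : ℂ) = ∑ p ∈ W, if p ∣ n then c n else 0 := by
      intro n
      unfold om
      rw [Finset.card_filter]
      push_cast
      rw [Finset.mul_sum]
      refine Finset.sum_congr rfl fun p _ => ?_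
      split_ifs <;> simp
    rw [Finset.sum_congr rfl fun n _ => g1 n, Finset.sum_comm]
    exact Finset.sum_congr rfl fun p _ => (Finset.sum_filter _ _).symm
  have e3 : ‖∑ n ∈ win (Real.exp y) (lam * Real.exp y), c n * ((om W n : ℂ) - (qs W : ℂ))‖ ≤
      Real.sqrt (2 * (qs W + 16)) := by
    refine (norm_sum_le_of_le _ fun n _ => ?_).trans (tk_first hl hl2 W hW hX hcard hsq)
    rw [norm_mul]
    have g1 : ‖(om W n : ℂ) - (qs W : ℂ)‖ = |(om W n : ℝ) - qs W| := by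
      rw [← Real.norm_eq_abs, ← Complex.norm_real]
      push_cast
      rfl
    rw [g1]
    exact mul_le_mul_of_nonneg_right (hcn n) (abs_nonneg _)
  have e4 : ‖∑ n ∈ win (Real.exp y) (lam * Real.exp y), c n * (om W n : ℂ)‖ ≤
      ∑ p ∈ W, (1 / (p : ℝ) * ‖DD lam (ff Q θ) t (y - Real.log p)‖ +
        1 / (p : ℝ) * (2 / p)) := by
    rw [e2]
    refine norm_sum_le_of_le _ fun p hp => ?_
    have g1 := ram_one hl hl2 hQ h0 h1 t (y := y) (hW p hp) (hWQ p hp) (hsq p hp)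
    have g2 : ∑ n ∈ (win (Real.exp y) (lam * Real.exp y)).filter (p ∣ ·), c n =
        ∑ n ∈ (win (Real.exp y) (lam * Real.exp y)).filter (p ∣ ·),
          ff Q θ n / (n : ℂ) * ph t n := Finset.sum_congr rfl fun n _ => hc n
    rw [g2]
    exact g1
  rw [Finset.sum_add_distrib] at e4
  have e5 := ram_sq hW
  have e6 : qs W * ‖DD lam (ff Q θ) t y‖ = ‖(qs W : ℂ) * DD lam (ff Q θ) t y‖ := by
    rw [norm_mul, Complex.norm_real, Real.norm_eq_abs, abs_of_nonneg hq0]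
  rw [e6, e1]
  refine (norm_sub_le _ _).trans ?_
  linarith

end Pool.Agent.MOM
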