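import Pool.Agent.MOM.Hal.DDms
import Pool.Agent.MOM.Hal.Ram
import Pool.Agent.MOM.Hal.Avg

/-!
MOM (MP_2b7f8f_an): HAL of /team-store/MOMO.md (section 4). Architect: helper74.

PROOF. Let `C` be the constant of `DD_avg`. Choose `e1 ≤ min (1/4) ε²` with `L = log(1/e1) - 1 ≥ 1`
so
large that `(√(2(q+16)) + 2)/q ≤ d/4` for all `q ≥ L` (it is `≤ (√(34 q) + 2)/q ≤ 8/√q` for `q ≥
1`), `H` with `5/H ≤ d/4`, `δ` with `C √δ/e1² ≤ d/4`. Let `X0 = e^{Y0}`, `Y0` the maximum of the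
`Y0`'s
of `DD_ms lam ε A δ`, `WW_qs H e1`, `DD_avg` and `1`. For `X ≥ X0` put `Y = log X`, `y = log M ∈
[Y/2, Y]` (`X^{1/2} = e^{Y/2}`), `f = ff Q θ` (definitionally the function of the theorem), `W = WH
H e1 Y`; `X^{ε²} = e^{ε² Y}` etc. `p ∈ W` gives `p < e^{e1 Y} ≤ e^{ε² Y}`, so `p ∉ Q`;
`#W² ≤ e^{2 e1 Y} ≤ e^{Y/2} ≤ e^y`, `p² ≤ e^y`. With `q = qs W ≥ L ≥ 1`, `DD_ram` and `DD_avg`:
`‖DD(y)‖ ≤ (1/q) (C/(e1² Y)) ∫_{Y/8}^{Y} ‖DD‖ + 5/H + (√(2(q+16))+2)/q`, and by Cauchy-Schwarz and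
`DD_ms`: `∫_{Y/8}^Y ‖DD‖ ≤ (Y ∫ ‖DD‖²)^{1/2} ≤ √δ Y` (or `‖DD‖ ≤ (‖DD‖²/√δ + √δ)/2` pointwise,
which gives the same). So `‖DD(y)‖ ≤ C √δ/e1² + d/4 + d/4 ≤ d`.
-/

set_option autoImplicit false

namespace Pool.Agent.MOM

open Finset

private theorem hal_sqrt {d q : ℝ} (hd : 0 < d) (hq1 : 1 ≤ q) (hq : (32 / d) ^ 2 ≤ q) :
    Real.sqrt (2 * (q + 16)) + 2 ≤ d / 4 * q := by
  have hq0 : 0 ≤ q := by linarith
  have hs1 : 1 ≤ Real.sqrt q := by
    rw [Real.one_le_sqrt]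
    exact hq1
  have hs2 : 32 / d ≤ Real.sqrt q := Real.le_sqrt_of_sq_le hq
  have hsq : Real.sqrt q * Real.sqrt q = q := Real.mul_self_sqrt hq0
  have h1 : Real.sqrt (2 * (q + 16)) ≤ 6 * Real.sqrt q := by
    rw [Real.sqrt_le_left (by positivity)]
    nlinarith
  have h2 : 8 * Real.sqrt q ≤ d / 4 * q := by
    have h3 : 32 ≤ d * Real.sqrt q := by
      rw [div_le_iff₀ hd] at hs2
      linarith
    nlinarith
  linarith

private theorem hal_int {lam : ℝ} (hl : 1 < lam) (hl2 : lam ≤ 2) {f : ℕ → ℂ}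
    (hf : ∀ n, ‖f n‖ ≤ 1) (t : ℝ) {Y s : ℝ} (hY : 0 ≤ Y) (hs : 0 < s)
    (hms : ∫ y in (Y / 8)..Y, ‖DD lam f t y‖ ^ 2 ≤ s ^ 2 * Y) :
    ∫ y in (Y / 8)..Y, ‖DD lam f t y‖ ≤ s * Y := by
  have hle : Y / 8 ≤ Y := by linarith
  have hm : Measurable fun y => ‖DD lam f t y‖ := (measurable_DD lam f t).norm
  have hi1 : IntervalIntegrable (fun y => ‖DD lam f t y‖) MeasureTheory.volume (Y / 8) Y := by
    rw [intervalIntegrable_iff_integrableOn_Ioc_of_le hle]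
    refine MeasureTheory.Measure.integrableOn_of_bounded (M := 2) (by simp)
      hm.aestronglyMeasurable ?_
    filter_upwards [MeasureTheory.ae_restrict_mem measurableSet_Ioc] with y hy
    rw [norm_norm]
    exact norm_DD_le hl hl2 hf t (by linarith [hy.1])
  have hi2 : IntervalIntegrable (fun y => ‖DD lam f t y‖ ^ 2) MeasureTheory.volume (Y / 8) Y := by
    rw [intervalIntegrable_iff_integrableOn_Ioc_of_le hle]
    refine MeasureTheory.Measure.integrableOn_of_bounded (M := 4) (by simp)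
      (hm.pow_const 2).aestronglyMeasurable ?_
    filter_upwards [MeasureTheory.ae_restrict_mem measurableSet_Ioc] with y hy
    have h1 := norm_DD_le hl hl2 hf t (y := y) (by linarith [hy.1])
    rw [norm_pow, norm_norm]
    have h2 := norm_nonneg (DD lam f t y)
    nlinarith
  have h1 : ∫ y in (Y / 8)..Y, ‖DD lam f t y‖ ≤
      ∫ y in (Y / 8)..Y, (1 / (2 * s) * ‖DD lam f t y‖ ^ 2 + s / 2) := by
    refine intervalIntegral.integral_mono_on hle hi1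
      ((hi2.const_mul _).add intervalIntegrable_const) fun y _ => ?_
    have h2 : 0 ≤ (‖DD lam f t y‖ - s) ^ 2 / (2 * s) := by positivity
    have h3 : (‖DD lam f t y‖ - s) ^ 2 / (2 * s) =
        1 / (2 * s) * ‖DD lam f t y‖ ^ 2 + s / 2 - ‖DD lam f t y‖ := by
      field_simp
      ring
    linarith
  rw [intervalIntegral.integral_add (hi2.const_mul _) intervalIntegrable_const,
    intervalIntegral.integral_const_mul, intervalIntegral.integral_const, smul_eq_mul] at h1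
  have h4 : 1 / (2 * s) * ∫ y in (Y / 8)..Y, ‖DD lam f t y‖ ^ 2 ≤ 1 / (2 * s) * (s ^ 2 * Y) :=
    mul_le_mul_of_nonneg_left hms (by positivity)
  have h5 : 1 / (2 * s) * (s ^ 2 * Y) = s * Y / 2 := by
    field_simp
  have h6 : (Y - Y / 8) * (s / 2) ≤ s * Y / 2 := by nlinarith
  linarith

theorem hal (lam : ℝ) (hl : 1 < lam) (hl2 : lam ≤ 2) (ε A d : ℝ) (hε : 0 < ε) (hε1 : ε < 1)
    (hA : 1 ≤ A) (hd : 0 < d) : ∃ X0 : ℝ, ∀ X : ℝ, X0 ≤ X → ∀ t : ℝ, |t| ≤ X ^ A →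
      ∀ Q : Finset ℕ, (∀ p ∈ Q, p.Prime ∧ X ^ (ε ^ 2) ≤ p ∧ (p : ℝ) < X ^ ε) →
      ∀ θ : ℝ, 0 ≤ θ → θ ≤ 1 → ∀ M : ℝ, X ^ (1 / 2 : ℝ) ≤ M → M ≤ X →
        ‖dp (win M (lam * M)) (fun n => mu n * (θ : ℂ) ^ om Q n) t‖ ≤ d := by
  obtain ⟨C, hC, hav⟩ := DD_avg
  -- the resolution
  obtain ⟨H, hH⟩ := exists_nat_ge (20 / d + 1)
  have hH1 : 1 ≤ H := by
    have h1 : 0 < 20 / d := by positivity
    have h2 : (1 : ℝ) ≤ H := by linarith
    exact_mod_cast h2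
  have hH0 : (0 : ℝ) < H := by exact_mod_cast hH1
  have hH5 : 5 / (H : ℝ) ≤ d / 4 := by
    rw [div_le_iff₀ hH0]
    have h1 : 20 / d ≤ H := by linarith
    rw [div_le_iff₀ hd] at h1
    linarith
  -- the exponent
  set L : ℝ := max 1 ((32 / d) ^ 2) with hL
  set e1 : ℝ := min (1 / 4) (min (ε ^ 2) (Real.exp (-(L + 1)))) with he1
  have he0 : 0 < e1 := by
    rw [he1]
    exact lt_min (by norm_num) (lt_min (by positivity) (Real.exp_pos _))
  have he4 : e1 ≤ 1 / 4 := min_le_left _ _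
  have heε : e1 ≤ ε ^ 2 := (min_le_right _ _).trans (min_le_left _ _)
  have heL : L ≤ Real.log (1 / e1) - 1 := by
    have h1 : e1 ≤ Real.exp (-(L + 1)) := (min_le_right _ _).trans (min_le_right _ _)
    have h2 := Real.log_le_log he0 h1
    rw [Real.log_exp] at h2
    rw [one_div, Real.log_inv]
    linarith
  set s : ℝ := d * e1 ^ 2 / (4 * C) with hs
  have hs0 : 0 < s := by positivity
  obtain ⟨Y1, hY1, hms⟩ := DD_ms hl hl2 ε A (s ^ 2) hε hε1 hA (by positivity)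
  obtain ⟨Y2, hY2, hqs⟩ := WW_qs H hH1 he0 he4
  obtain ⟨Y3, hY3, hav⟩ := hav H hH1 e1 he0 he4
  refine ⟨Real.exp (max Y1 (max Y2 Y3)), ?_⟩
  intro X hX t ht Q hQ θ h0 h1 M hM hMX
  have hX0 : 0 < X := (Real.exp_pos _).trans_le hX
  obtain ⟨Y, rfl⟩ : ∃ Y, X = Real.exp Y := ⟨Real.log X, (Real.exp_log hX0).symm⟩
  have hYm : max Y1 (max Y2 Y3) ≤ Y := Real.exp_le_exp.1 hX
  have hYY1 : Y1 ≤ Y := (le_max_left _ _).trans hYm
  have hYY2 : Y2 ≤ Y := ((le_max_left _ _).trans (le_max_right _ _)).trans hYm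
  have hYY3 : Y3 ≤ Y := ((le_max_right _ _).trans (le_max_right _ _)).trans hYm
  have hY1' : 1 ≤ Y := hY1.trans hYY1
  have hpow : ∀ a : ℝ, Real.exp Y ^ a = Real.exp (a * Y) := fun a => by
    rw [← Real.exp_mul, mul_comm]
  rw [hpow] at ht hM
  have hM0 : 0 < M := (Real.exp_pos _).trans_le hM
  obtain ⟨y, rfl⟩ : ∃ y, M = Real.exp y := ⟨Real.log M, (Real.exp_log hM0).symm⟩
  have hy1 : Y / 2 ≤ y := by
    have := Real.exp_le_exp.1 hM
    linarith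
  have hy2 : y ≤ Y := Real.exp_le_exp.1 hMX
  have hQ' : ∀ p ∈ Q, p.Prime ∧ Real.exp (ε ^ 2 * Y) ≤ p ∧ (p : ℝ) < Real.exp (ε * Y) := by
    intro p hp
    have h := hQ p hp
    rw [hpow, hpow] at h
    exact h
  have hff : ∀ n, ‖ff Q θ n‖ ≤ 1 := norm_ff_le Q h0 h1
  have hI := hal_int hl hl2 hff t (by linarith : (0 : ℝ) ≤ Y) hs0
    (hms Y hYY1 Q hQ' θ h0 h1 t ht)
  have hexp : Real.exp (e1 * Y) ^ 2 ≤ Real.exp y := by
    rw [← Real.exp_nat_mul]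
    refine Real.exp_le_exp.2 ?_
    push_cast
    nlinarith
  have hram := DD_ram hl hl2 (fun p hp => (hQ p hp).1) h0 h1 (WH H e1 Y)
    (fun p hp => WW_prime hp) (fun p hp hpQ => by
      have h2 := WW_lt hH1 he0 (by linarith) hp
      have h3 := (hQ' p hpQ).2.1
      have h4 : Real.exp (e1 * Y) ≤ Real.exp (ε ^ 2 * Y) :=
        Real.exp_le_exp.2 (mul_le_mul_of_nonneg_right heε (by linarith))
      linarith) t (y := y) (by linarith)
    ((pow_le_pow_left₀ (Nat.cast_nonneg _) (WW_card hH1 he0 (by linarith)) 2).trans hexp)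
    (fun p hp => (pow_le_pow_left₀ (Nat.cast_nonneg _)
      (WW_lt hH1 he0 (by linarith) hp).le 2).trans hexp)
  have hav' := hav Y hYY3 lam hl hl2 (ff Q θ) hff t y hy1 hy2
  have hq := hqs Y hYY2
  set q := qs (WH H e1 Y) with hqdef
  have hqL : L ≤ q := heL.trans hq
  have hq1 : 1 ≤ q := (le_max_left _ _).trans hqL
  have hsq := hal_sqrt hd hq1 ((le_max_right _ _).trans hqL)
  have hCs : C / (e1 ^ 2 * Y) * ∫ u in (Y / 8)..Y, ‖DD lam (ff Q θ) t u‖ ≤ d / 4 := by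
    have h2 : C / (e1 ^ 2 * Y) * ∫ u in (Y / 8)..Y, ‖DD lam (ff Q θ) t u‖ ≤
        C / (e1 ^ 2 * Y) * (s * Y) := mul_le_mul_of_nonneg_left hI (by positivity)
    have h3 : C / (e1 ^ 2 * Y) * (s * Y) = d / 4 := by
      rw [hs]
      have hY0 : Y ≠ 0 := by linarith
      field_simp
    linarith
  have hH6 : q * (5 / (H : ℝ)) ≤ q * (d / 4) := mul_le_mul_of_nonneg_left hH5 (by linarith)
  have hdq : d ≤ q * d := by nlinarith
  have hfin : q * ‖DD lam (ff Q θ) t y‖ ≤ q * d := by linarith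
  exact le_of_mul_le_mul_left hfin (by linarith)

end Pool.Agent.MOM
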