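import Pool.Agent.MOM.Hal.Base

/-!
MOM, HAL part 3a: the sum over the multiples of a prime.

PROOF. Write `f = ff Q θ`, `F = FF f σ t`, `z_p = f(p) dt σ t p`, `‖z_p‖ ≤ p^{-(1+σ)} ≤ 1/2`.
(1) For a prime `p` put `G_p = ∑'_{n, p ∣ n} f n dt n` (`= ∑' m, f (p m) dt (p m)`). If `p ∣ m` then
`p²∣ p m` and `f (p m) = 0` (`ff_of_not_squarefree`); if `p ∤ m` then `f (p m) = f p f m`
(`ff_mul`), and
`dt (p m) = dt p dt m`. So `G_p = z_p ∑'_{m, p ∤ m} f m dt m = z_p (F - G_p)`, hence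
`G_p (1 + z_p) = z_p F`, and `‖G_p - z_p F‖ = ‖z_p²/(1+z_p)‖ ‖F‖ ≤ 2 p^{-2} ‖F‖`.
-/

set_option autoImplicit false

namespace Pool.Agent.MOM

open Finset

/-- (1): the sum over the multiples of a prime. -/
theorem multiples_sum {Q : Finset ℕ} (hQ : ∀ p ∈ Q, p.Prime) {θ : ℝ} (h0 : 0 ≤ θ)
    (h1 : θ ≤ 1) {σ : ℝ} (hσ : 0 < σ) (t : ℝ) {p : ℕ} (hp : p.Prime) :
    ‖∑' n : ℕ, (if p ∣ n then ff Q θ n * dt σ t n else 0) -
      ff Q θ p * dt σ t p * FF (ff Q θ) σ t‖ ≤ 2 / (p : ℝ) ^ 2 * ‖FF (ff Q θ) σ t‖ := by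
  set a : ℕ → ℂ := fun n => ff Q θ n * dt σ t n with ha
  set z : ℂ := ff Q θ p * dt σ t p with hz
  set b : ℕ → ℂ := fun n => if p ∣ n then a n else 0 with hb
  have hsa : Summable a := (summable_FF (norm_ff_le Q h0 h1) hσ t).of_norm
  have hsb : Summable b := by
    refine Summable.of_norm_bounded (summable_FF (norm_ff_le Q h0 h1) hσ t) fun n => ?_
    simp only [hb]
    split_ifs
    · exact le_rfl
    · rw [norm_zero]
      exact norm_nonneg _
  have hF : FF (ff Q θ) σ t = ∑' n, a n := rfl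
  have hinj : Function.Injective fun m : ℕ => p * m := fun x y hxy =>
    Nat.eq_of_mul_eq_mul_left hp.pos hxy
  have hsupp : Function.support b ⊆ Set.range fun m : ℕ => p * m := by
    intro n hn
    by_cases hd : p ∣ n
    · obtain ⟨m, rfl⟩ := hd
      exact ⟨m, rfl⟩
    · exact absurd (if_neg hd) hn
  have hterm : ∀ m, b (p * m) = z * (a m - b m) := by
    intro m
    have e1 : b (p * m) = a (p * m) := if_pos (dvd_mul_right p m)
    rw [e1]
    by_cases hd : p ∣ m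
    · have e2 : b m = a m := if_pos hd
      rw [e2, sub_self, mul_zero]
      have h3 : ¬ Squarefree (p * m) := by
        intro hsq
        have h4 := hsq p (mul_dvd_mul_left p hd)
        exact hp.one_lt.ne' (Nat.isUnit_iff.1 h4)
      simp only [ha]
      rw [ff_of_not_squarefree Q θ h3, zero_mul]
    · have e2 : b m = 0 := if_neg hd
      rw [e2, sub_zero]
      simp only [ha, hz]
      rw [ff_mul hQ θ ((Nat.Prime.coprime_iff_not_dvd hp).2 hd), dt_mul hσ]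
      ring
  have hG : ∑' n, b n = z * (FF (ff Q θ) σ t - ∑' n, b n) := by
    have e1 : ∑' m, b (p * m) = ∑' n, b n := hinj.tsum_eq hsupp
    rw [hF, ← hsa.tsum_sub hsb, ← tsum_mul_left]
    rw [← e1]
    exact tsum_congr hterm
  set G : ℂ := ∑' n, b n with hGd
  set F : ℂ := FF (ff Q θ) σ t with hFd
  have hp2 : (2 : ℝ) ≤ p := by exact_mod_cast hp.two_le
  have hz1 : ‖z‖ ≤ 1 / (p : ℝ) := by
    rw [hz, norm_mul, norm_dt]
    have h3 : (p : ℝ) ^ (-(1 + σ)) ≤ (p : ℝ) ^ (-1 : ℝ) :=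
      Real.rpow_le_rpow_of_exponent_le (by linarith) (by linarith)
    rw [Real.rpow_neg_one] at h3
    have h4 : 0 ≤ (p : ℝ) ^ (-(1 + σ)) := Real.rpow_nonneg (by linarith) _
    calc ‖ff Q θ p‖ * (p : ℝ) ^ (-(1 + σ)) ≤ 1 * (p : ℝ) ^ (-(1 + σ)) :=
          mul_le_mul_of_nonneg_right (norm_ff_le Q h0 h1 p) h4
      _ ≤ 1 / (p : ℝ) := by
          rw [one_mul, one_div]
          exact h3
  have hz2 : ‖z‖ ≤ 1 / 2 := hz1.trans (one_div_le_one_div_of_le (by norm_num) hp2)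
  have hmul : G * (1 + z) = z * F := by
    linear_combination hG
  have h1z : 1 / 2 ≤ ‖1 + z‖ := by
    have h3 : ‖(1 : ℂ)‖ ≤ ‖1 + z‖ + ‖z‖ := by
      have h4 := norm_sub_le (1 + z) z
      rwa [add_sub_cancel_right] at h4
    rw [norm_one] at h3
    linarith
  have hGn : ‖G‖ ≤ 2 * (‖z‖ * ‖F‖) := by
    have h3 := congrArg norm hmul
    rw [norm_mul, norm_mul] at h3
    have h4 : ‖G‖ * (1 / 2) ≤ ‖G‖ * ‖1 + z‖ := mul_le_mul_of_nonneg_left h1z (norm_nonneg G)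
    linarith
  have hfin : G - z * F = -(z * G) := by
    linear_combination hG
  rw [hfin, norm_neg, norm_mul]
  have hzz : ‖z‖ * ‖z‖ ≤ 1 / (p : ℝ) * (1 / (p : ℝ)) :=
    mul_le_mul hz1 hz1 (norm_nonneg _) (by positivity)
  calc ‖z‖ * ‖G‖ ≤ ‖z‖ * (2 * (‖z‖ * ‖F‖)) := mul_le_mul_of_nonneg_left hGn (norm_nonneg z)
    _ = 2 * (‖z‖ * ‖z‖) * ‖F‖ := by ring
    _ ≤ 2 * (1 / (p : ℝ) * (1 / (p : ℝ))) * ‖F‖ := by
        have : 2 * (‖z‖ * ‖z‖) ≤ 2 * (1 / (p : ℝ) * (1 / (p : ℝ))) := by linarith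
        exact mul_le_mul_of_nonneg_right this (norm_nonneg F)
    _ = 2 / (p : ℝ) ^ 2 * ‖F‖ := by
        congr 1
        field_simp

end Pool.Agent.MOM
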