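import Pool.Agent.MOM.Hal.PPker

/-!
MOM, HAL part 2c: mean square of finite sums `∑_{p ∈ S} f(p) log p p^{-1-σ-it}` over unit intervals.

PROOF of `PP_ms_fin`. On `[u, u+1]`: `1 ≤ e·exp(-(t-u)²)`, so the integral is at most
`e ∫_ℝ ‖∑_{p ∈ S} a_p ph t p‖² exp(-(t-u)²) dt` with `a_p = f(p) log p p^{-(1+σ)}`. Expand the
square
(model: `mvt_expand`, `mvt_fourier` in MOM/NT/MVT.lean, there with `u = 0`; the translation by `u`
only multiplies the coefficient `a_p` by `ph u p`, of absolute value `1`: substitute `t = u + x`):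
it is `∑_{p,q} a_p' conj a_q' ∫ e^{-ix(log p - log q)} e^{-x²} dx`, and the integral has absolute
value
`√π e^{-(log p - log q)²/4} ≤ 2 e^{-(log p - log q)²/4}`. Hence it is at most
`2e ∑_{p} α_p ∑_q α_q e^{-(log p - log q)²/4}` with `α_p = log p p^{-(1+σ)} ≤ log p/p`; the inner
sum is `≤ C` by `prime_kernel` (`x = log p`), the outer one `≤ C/σ` by `prime_log_sum`.
-/

set_option autoImplicit false

namespace Pool.Agent.MOM

open Finset MeasureTheory

private theorem ppf_int_exp : Integrable (fun t : ℝ => Real.exp (-(t ^ 2))) := by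
  have h := integrable_exp_neg_mul_sq (b := 1) (by norm_num)
  refine h.congr (Filter.Eventually.of_forall fun t => ?_)
  show Real.exp (-1 * t ^ 2) = Real.exp (-(t ^ 2))
  congr 1
  ring

private theorem ppf_ph_mul (t : ℝ) (m n : ℕ) : ph t m * (starRingEnd ℂ) (ph t n) =
    Complex.exp (Complex.I * ((Real.log n - Real.log m : ℝ) : ℂ) * t) := by
  unfold ph
  rw [← Complex.exp_conj, ← Complex.exp_add]
  congr 1
  simp only [map_mul, Complex.conj_ofReal, Complex.conj_I]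
  push_cast
  ring

private theorem ppf_fourier (x : ℝ) :
    ‖∫ t : ℝ, Complex.exp (Complex.I * (x : ℂ) * t) * ((Real.exp (-(t ^ 2)) : ℝ) : ℂ)‖ ≤
      2 * Real.exp (-(x ^ 2) / 4) := by
  have h := fourierIntegral_gaussian (b := 1) (by simp) (x : ℂ)
  have h2 : ∫ t : ℝ, Complex.exp (Complex.I * (x : ℂ) * t) *
      ((Real.exp (-(t ^ 2)) : ℝ) : ℂ) =
      ∫ t : ℝ, Complex.exp (Complex.I * (x : ℂ) * t) *
      Complex.exp (-(1 : ℂ) * (t : ℂ) ^ 2) := by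
    congr 1
    funext t
    congr 1
    rw [Complex.ofReal_exp]
    congr 1
    push_cast
    ring
  rw [h2, h, norm_mul]
  have h4 : ‖((Real.pi : ℂ) / (1 : ℂ)) ^ (1 / 2 : ℂ)‖ ≤ 2 := by
    rw [div_one, Complex.norm_cpow_eq_rpow_re_of_pos Real.pi_pos]
    have h5 : (1 / 2 : ℂ).re = 1 / 2 := by
      simp
    rw [h5, ← Real.sqrt_eq_rpow]
    have h6 : Real.sqrt Real.pi ≤ Real.sqrt (2 ^ 2) := by
      apply Real.sqrt_le_sqrt
      have := Real.pi_le_four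
      linarith
    rwa [Real.sqrt_sq (by norm_num)] at h6
  have h7 : ‖Complex.exp (-(x : ℂ) ^ 2 / (4 * (1 : ℂ)))‖ = Real.exp (-(x ^ 2) / 4) := by
    have h8 : (-(x : ℂ) ^ 2 / (4 * (1 : ℂ))) = ((-(x ^ 2) / 4 : ℝ) : ℂ) := by
      push_cast
      ring
    rw [h8, ← Complex.ofReal_exp, Complex.norm_real, Real.norm_eq_abs, Real.abs_exp]
  rw [h7]
  exact mul_le_mul_of_nonneg_right h4 (Real.exp_pos _).le

private theorem ppf_cont (S : Finset ℕ) (b : ℕ → ℂ) :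
    Continuous fun t : ℝ => ∑ n ∈ S, b n * ph t n :=
  continuous_finsetSum _ fun n _ => continuous_const.mul (continuous_ph n)

private theorem ppf_integrable (S : Finset ℕ) (b : ℕ → ℂ) :
    Integrable (fun t : ℝ => ‖∑ n ∈ S, b n * ph t n‖ ^ 2 * Real.exp (-(t ^ 2))) := by
  have hc : Continuous fun t : ℝ => ‖∑ n ∈ S, b n * ph t n‖ ^ 2 * Real.exp (-(t ^ 2)) := by
    have := ppf_cont S b
    fun_prop
  refine Integrable.mono' (ppf_int_exp.const_mul ((∑ n ∈ S, ‖b n‖) ^ 2))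
    hc.aestronglyMeasurable (Filter.Eventually.of_forall fun t => ?_)
  rw [Real.norm_eq_abs, abs_of_nonneg (by positivity)]
  refine mul_le_mul_of_nonneg_right ?_ (Real.exp_pos _).le
  refine pow_le_pow_left₀ (norm_nonneg _) ((norm_sum_le _ _).trans ?_) 2
  refine Finset.sum_le_sum fun n _ => ?_
  rw [norm_mul, norm_ph, mul_one]

private theorem ppf_expand (S : Finset ℕ) (b : ℕ → ℂ) :
    ((∫ t : ℝ, ‖∑ n ∈ S, b n * ph t n‖ ^ 2 * Real.exp (-(t ^ 2)) : ℝ) : ℂ) =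
      ∑ m ∈ S, ∑ n ∈ S, b m * (starRingEnd ℂ) (b n) *
        ∫ t : ℝ, Complex.exp (Complex.I * ((Real.log n - Real.log m : ℝ) : ℂ) * t) *
          ((Real.exp (-(t ^ 2)) : ℝ) : ℂ) := by
  rw [← integral_complex_ofReal]
  have h1 : ∀ t : ℝ, ((‖∑ n ∈ S, b n * ph t n‖ ^ 2 * Real.exp (-(t ^ 2)) : ℝ) : ℂ) =
      ∑ m ∈ S, ∑ n ∈ S, b m * (starRingEnd ℂ) (b n) *
        (Complex.exp (Complex.I * ((Real.log n - Real.log m : ℝ) : ℂ) * t) *
          ((Real.exp (-(t ^ 2)) : ℝ) : ℂ)) := by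
    intro t
    rw [Complex.ofReal_mul, Complex.ofReal_pow, ← Complex.mul_conj']
    rw [map_sum, Finset.sum_mul_sum, Finset.sum_mul]
    refine Finset.sum_congr rfl fun m _ => ?_
    rw [Finset.sum_mul]
    refine Finset.sum_congr rfl fun n _ => ?_
    rw [← ppf_ph_mul, map_mul]
    ring
  have hint : ∀ m n : ℕ, Integrable fun t : ℝ =>
      Complex.exp (Complex.I * ((Real.log n - Real.log m : ℝ) : ℂ) * t) *
          ((Real.exp (-(t ^ 2)) : ℝ) : ℂ) := by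
    intro m n
    have hc : Continuous fun t : ℝ =>
        Complex.exp (Complex.I * ((Real.log n - Real.log m : ℝ) : ℂ) * t) *
          ((Real.exp (-(t ^ 2)) : ℝ) : ℂ) := by
      fun_prop
    refine Integrable.mono' ppf_int_exp hc.aestronglyMeasurable
      (Filter.Eventually.of_forall fun t => ?_)
    rw [norm_mul, Complex.norm_real, Real.norm_eq_abs, Real.abs_exp]
    have h2 : Complex.I * ((Real.log n - Real.log m : ℝ) : ℂ) * t =
        (((Real.log n - Real.log m) * t : ℝ) : ℂ) * Complex.I := by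
      push_cast
      ring
    rw [h2, Complex.norm_exp_ofReal_mul_I, one_mul]
  simp_rw [h1]
  rw [integral_finsetSum _ fun m _ => integrable_finsetSum _ fun n _ => (hint m n).const_mul _]
  refine Finset.sum_congr rfl fun m _ => ?_
  rw [integral_finsetSum _ fun n _ => (hint m n).const_mul _]
  refine Finset.sum_congr rfl fun n _ => ?_
  exact integral_const_mul _ _

private theorem ppf_gauss (S : Finset ℕ) (b : ℕ → ℂ) :
    ∫ t : ℝ, ‖∑ n ∈ S, b n * ph t n‖ ^ 2 * Real.exp (-(t ^ 2)) ≤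
      ∑ m ∈ S, ∑ n ∈ S, ‖b m‖ * ‖b n‖ *
        (2 * Real.exp (-((Real.log n - Real.log m) ^ 2) / 4)) := by
  set I : ℝ := ∫ t : ℝ, ‖∑ n ∈ S, b n * ph t n‖ ^ 2 * Real.exp (-(t ^ 2)) with hI
  have hI0 : I ≤ ‖(I : ℂ)‖ := by
    rw [Complex.norm_real]
    exact le_abs_self _
  refine hI0.trans ?_
  rw [hI, ppf_expand S b]
  refine (norm_sum_le _ _).trans (Finset.sum_le_sum fun m _ => ?_)
  refine (norm_sum_le _ _).trans (Finset.sum_le_sum fun n _ => ?_)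
  rw [norm_mul, norm_mul, RCLike.norm_conj]
  exact mul_le_mul_of_nonneg_left (ppf_fourier _) (by positivity)

private theorem ppf_unit (S : Finset ℕ) (b : ℕ → ℂ) :
    ∫ t in (0 : ℝ)..1, ‖∑ n ∈ S, b n * ph t n‖ ^ 2 ≤
      Real.exp 1 * ∑ m ∈ S, ∑ n ∈ S, ‖b m‖ * ‖b n‖ *
        (2 * Real.exp (-((Real.log n - Real.log m) ^ 2) / 4)) := by
  have hint := ppf_integrable S b
  have hc : Continuous fun t : ℝ => ‖∑ n ∈ S, b n * ph t n‖ ^ 2 := by
    have := ppf_cont S b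
    fun_prop
  rw [intervalIntegral.integral_of_le zero_le_one]
  have h2 : ∫ t in Set.Ioc (0 : ℝ) 1, ‖∑ n ∈ S, b n * ph t n‖ ^ 2 ≤
      ∫ t in Set.Ioc (0 : ℝ) 1, Real.exp 1 *
        (‖∑ n ∈ S, b n * ph t n‖ ^ 2 * Real.exp (-(t ^ 2))) := by
    refine setIntegral_mono_on ?_ ?_ measurableSet_Ioc ?_
    · exact hc.continuousOn.integrableOn_Icc.mono_set Set.Ioc_subset_Icc_self
    · exact (hint.const_mul _).integrableOn
    · intro t ht
      have h3 : t ^ 2 ≤ 1 := pow_le_one₀ ht.1.le ht.2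
      have h4 : 1 ≤ Real.exp 1 * Real.exp (-(t ^ 2)) := by
        rw [← Real.exp_add]
        exact Real.one_le_exp (by linarith)
      calc ‖∑ n ∈ S, b n * ph t n‖ ^ 2 = ‖∑ n ∈ S, b n * ph t n‖ ^ 2 * 1 := (mul_one _).symm
        _ ≤ ‖∑ n ∈ S, b n * ph t n‖ ^ 2 * (Real.exp 1 * Real.exp (-(t ^ 2))) :=
            mul_le_mul_of_nonneg_left h4 (by positivity)
        _ = Real.exp 1 * (‖∑ n ∈ S, b n * ph t n‖ ^ 2 * Real.exp (-(t ^ 2))) := by ring
  have h5 : ∫ t in Set.Ioc (0 : ℝ) 1, Real.exp 1 *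
        (‖∑ n ∈ S, b n * ph t n‖ ^ 2 * Real.exp (-(t ^ 2))) ≤
      ∫ t : ℝ, Real.exp 1 * (‖∑ n ∈ S, b n * ph t n‖ ^ 2 * Real.exp (-(t ^ 2))) :=
    setIntegral_le_integral (hint.const_mul _)
      (Filter.Eventually.of_forall fun t => by
        show 0 ≤ Real.exp 1 * (‖∑ n ∈ S, b n * ph t n‖ ^ 2 * Real.exp (-(t ^ 2)))
        positivity)
  have h7 : ∫ t : ℝ, Real.exp 1 * (‖∑ n ∈ S, b n * ph t n‖ ^ 2 * Real.exp (-(t ^ 2))) =
      Real.exp 1 * ∫ t : ℝ, ‖∑ n ∈ S, b n * ph t n‖ ^ 2 * Real.exp (-(t ^ 2)) :=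
    integral_const_mul _ _
  rw [h7] at h5
  exact h2.trans (h5.trans (mul_le_mul_of_nonneg_left (ppf_gauss S b) (Real.exp_pos 1).le))

theorem PP_ms_fin : ∃ C : ℝ, 0 < C ∧ ∀ S : Finset ℕ, (∀ p ∈ S, p.Prime) → ∀ f : ℕ → ℂ,
    (∀ n, ‖f n‖ ≤ 1) → ∀ σ : ℝ, 0 < σ → σ ≤ 1 → ∀ u : ℝ,
      ∫ t in u..(u + 1), ‖∑ p ∈ S, f p * (Real.log p : ℂ) * dt σ t p‖ ^ 2 ≤ C / σ := by
  obtain ⟨C1, hC1, h1⟩ := prime_kernel
  obtain ⟨C2, hC2, h2⟩ := prime_log_sum
  refine ⟨Real.exp 1 * (2 * C1 * C2), by positivity, fun S hS f hf σ hσ hσ1 u => ?_⟩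
  set b : ℕ → ℂ := fun p => f p * (Real.log p : ℂ) * dt σ u p with hb
  have hu : ∫ t in u..(u + 1), ‖∑ p ∈ S, f p * (Real.log p : ℂ) * dt σ t p‖ ^ 2 =
      ∫ t in (0 : ℝ)..1, ‖∑ p ∈ S, b p * ph t p‖ ^ 2 := by
    have h3 := intervalIntegral.integral_comp_add_left (a := (0 : ℝ)) (b := 1)
      (fun t : ℝ => ‖∑ p ∈ S, f p * (Real.log p : ℂ) * dt σ t p‖ ^ 2) u
    rw [add_zero] at h3
    rw [← h3]
    congr 1
    funext t
    congr 2
    refine Finset.sum_congr rfl fun p _ => ?_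
    rw [dt_add, hb]
    ring
  rw [hu]
  refine (ppf_unit S b).trans ?_
  rw [mul_div_assoc]
  refine mul_le_mul_of_nonneg_left ?_ (Real.exp_pos 1).le
  have hn : ∀ p, ‖b p‖ ≤ Real.log p * (p : ℝ) ^ (-(1 + σ)) := fun p => norm_FL_term hf σ u p
  have hα : ∀ p ∈ S, Real.log p * (p : ℝ) ^ (-(1 + σ)) ≤ Real.log p / p := by
    intro p hp
    have hp1 : (1 : ℝ) ≤ p := by exact_mod_cast (hS p hp).one_lt.le
    have h3 : (p : ℝ) ^ (-(1 + σ)) ≤ (p : ℝ) ^ (-1 : ℝ) :=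
      Real.rpow_le_rpow_of_exponent_le hp1 (by linarith)
    rw [Real.rpow_neg_one] at h3
    rw [div_eq_mul_inv]
    exact mul_le_mul_of_nonneg_left h3 (Real.log_nonneg hp1)
  have hin : ∀ m ∈ S, ∑ n ∈ S, ‖b m‖ * ‖b n‖ *
      (2 * Real.exp (-((Real.log n - Real.log m) ^ 2) / 4)) ≤
      (2 * C1) * (Real.log m * (m : ℝ) ^ (-(1 + σ))) := by
    intro m _
    have h4 : ∑ n ∈ S, ‖b m‖ * ‖b n‖ *
        (2 * Real.exp (-((Real.log n - Real.log m) ^ 2) / 4)) ≤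
        ∑ n ∈ S, (2 * ‖b m‖) *
          (Real.log n / n * Real.exp (-((Real.log m - Real.log n) ^ 2) / 4)) := by
      refine Finset.sum_le_sum fun n hn' => ?_
      have h5 : (Real.log n - Real.log m) ^ 2 = (Real.log m - Real.log n) ^ 2 := by ring
      rw [h5]
      have h6 : ‖b n‖ ≤ Real.log n / n := (hn n).trans (hα n hn')
      have h7 : ‖b m‖ * ‖b n‖ * (2 * Real.exp (-((Real.log m - Real.log n) ^ 2) / 4)) =
          (2 * ‖b m‖ * Real.exp (-((Real.log m - Real.log n) ^ 2) / 4)) * ‖b n‖ := by ring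
      have h8 : (2 * ‖b m‖) *
          (Real.log n / n * Real.exp (-((Real.log m - Real.log n) ^ 2) / 4)) =
          (2 * ‖b m‖ * Real.exp (-((Real.log m - Real.log n) ^ 2) / 4)) *
            (Real.log n / n) := by ring
      rw [h7, h8]
      exact mul_le_mul_of_nonneg_left h6 (by positivity)
    refine h4.trans ?_
    rw [← Finset.mul_sum]
    have h9 := h1 S hS (Real.log m)
    calc (2 * ‖b m‖) * ∑ n ∈ S,
          Real.log n / n * Real.exp (-((Real.log m - Real.log n) ^ 2) / 4)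
        ≤ (2 * ‖b m‖) * C1 := mul_le_mul_of_nonneg_left h9 (by positivity)
      _ = (2 * C1) * ‖b m‖ := by ring
      _ ≤ _ := mul_le_mul_of_nonneg_left (hn m) (by positivity)
  refine (Finset.sum_le_sum hin).trans ?_
  rw [← Finset.mul_sum]
  have h10 := h2 S hS σ hσ hσ1
  calc (2 * C1) * ∑ m ∈ S, Real.log m * (m : ℝ) ^ (-(1 + σ))
      ≤ (2 * C1) * (C2 / σ) := mul_le_mul_of_nonneg_left h10 (by positivity)
    _ = 2 * C1 * C2 / σ := by ring

end Pool.Agent.MOM
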