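import Pool.Agent.MOM.Hal.Base
import Pool.Agent.MOM.NT.Mertens

/-!
MOM, HAL part 2b: two sums over primes from Mertens (`mertens_unit`: `∑_{p ∈ prs x (e x)} log p/p ≤
C` for `x ≥ 1`).

PROOF of `prime_kernel`. Let `C` be the constant of `mertens_unit` (`≥ 0`). Sort the primes of `S`
by `j = ⌊log p⌋₊` (`p ∈ prs (e^j) (e·e^j)`, `mem_prs`): `∑_{p ∈ S, ⌊log p⌋₊ = j} log p/p ≤ C`, and
for such `p`: `(x - log p)² ≥ (|x - j| - 1)²` when `|x - j| ≥ 1`, so with `k = |⌊x⌋ - j| ∈ ℕ`: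
`exp(-(x - log p)²/4) ≤ e² exp(-k/2)`-like bounds: `|x - log p| ≥ k - 1`, and
`exp(-z²/4) ≤ exp(1 - z)` for all `z` (as `z²/4 - z + 1 = (z/2 - 1)² ≥ 0`), so the weight is at most
`exp(1 - (k - 1)) = e² e^{-k}` (for `k = 0` it is `≤ 1`). Each `k` occurs for at most two `j`:
total `≤ 2 C e² ∑_k e^{-k} = 2 C e²/(1 - e^{-1})`.
PROOF of `prime_log_sum`. Same sorting: `p^{-(1+σ)} ≤ e^{-σ j}/p` for `p ≥ e^j`:
`∑_{p ∈ S} log p p^{-(1+σ)} ≤ C ∑_j e^{-σ j} = C/(1 - e^{-σ}) ≤ 2C/σ` for `0 < σ ≤ 1`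
(`1 - e^{-σ} ≥ σ/2`).
-/

set_option autoImplicit false

namespace Pool.Agent.MOM

open Finset

private theorem floor_log {p : ℕ} (hp : p.Prime) :
    Real.exp (⌊Real.log p⌋₊ : ℝ) ≤ p ∧ (p : ℝ) < Real.exp ((⌊Real.log p⌋₊ : ℝ) + 1) ∧
      (⌊Real.log p⌋₊ : ℝ) ≤ Real.log p ∧ Real.log p < (⌊Real.log p⌋₊ : ℝ) + 1 := by
  have hp0 : (0 : ℝ) < p := by exact_mod_cast hp.pos
  have hp1 : (1 : ℝ) ≤ p := by exact_mod_cast hp.one_le
  have h1 : (⌊Real.log p⌋₊ : ℝ) ≤ Real.log p := Nat.floor_le (Real.log_nonneg hp1)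
  have h2 : Real.log p < (⌊Real.log p⌋₊ : ℝ) + 1 := Nat.lt_floor_add_one _
  exact ⟨(Real.le_log_iff_exp_le hp0).1 h1, (Real.log_lt_iff_lt_exp hp0).1 h2, h1, h2⟩

private theorem term_nonneg (p : ℕ) : 0 ≤ Real.log p / p :=
  div_nonneg (Real.log_natCast_nonneg p) (Nat.cast_nonneg p)

private theorem block_le : ∃ C : ℝ, 0 < C ∧ ∀ S : Finset ℕ, (∀ p ∈ S, p.Prime) → ∀ j : ℕ,
    ∑ p ∈ S.filter (fun p : ℕ => ⌊Real.log p⌋₊ = j), Real.log p / p ≤ C := by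
  obtain ⟨C, hC⟩ := mertens_unit
  refine ⟨max C 1, lt_of_lt_of_le one_pos (le_max_right _ _), fun S hS j => ?_⟩
  refine le_trans ?_ ((hC (Real.exp j) (Real.one_le_exp (Nat.cast_nonneg j))).trans
    (le_max_left _ _))
  refine Finset.sum_le_sum_of_subset_of_nonneg ?_ fun p _ _ => term_nonneg p
  intro p hp
  rw [Finset.mem_filter] at hp
  obtain ⟨hpS, hj⟩ := hp
  obtain ⟨h1, h2, -, -⟩ := floor_log (hS p hpS)
  rw [hj] at h1 h2
  rw [mem_prs]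
  refine ⟨⟨h1, ?_⟩, hS p hpS⟩
  rw [← Real.exp_add, add_comm]
  exact h2

private theorem sort_le {C : ℝ} {S : Finset ℕ}
    (hC : ∀ j : ℕ, ∑ p ∈ S.filter (fun p : ℕ => ⌊Real.log p⌋₊ = j), Real.log p / p ≤ C)
    {w : ℕ → ℝ} (hw : ∀ j, 0 ≤ w j) {B : ℝ} (hB : ∀ K : ℕ, ∑ j ∈ range K, w j ≤ B) (hC0 : 0 ≤ C) :
    ∑ p ∈ S, Real.log p / p * w ⌊Real.log p⌋₊ ≤ C * B := by
  have hmaps : ∀ p ∈ S, ⌊Real.log p⌋₊ ∈ range (S.sup (fun p : ℕ => ⌊Real.log p⌋₊) + 1) := by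
    intro p hp
    rw [Finset.mem_range]
    exact Nat.lt_succ_of_le (Finset.le_sup (f := fun p : ℕ => ⌊Real.log p⌋₊) hp)
  rw [← Finset.sum_fiberwise_of_maps_to hmaps]
  calc ∑ j ∈ range (S.sup (fun p : ℕ => ⌊Real.log p⌋₊) + 1),
        ∑ p ∈ S.filter (fun p : ℕ => ⌊Real.log p⌋₊ = j), Real.log p / p * w ⌊Real.log p⌋₊
      ≤ ∑ j ∈ range (S.sup (fun p : ℕ => ⌊Real.log p⌋₊) + 1), C * w j := by
        refine Finset.sum_le_sum fun j _ => ?_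
        have h1 : ∑ p ∈ S.filter (fun p : ℕ => ⌊Real.log p⌋₊ = j),
            Real.log p / p * w ⌊Real.log p⌋₊ =
            (∑ p ∈ S.filter (fun p : ℕ => ⌊Real.log p⌋₊ = j), Real.log p / p) * w j := by
          rw [Finset.sum_mul]
          refine Finset.sum_congr rfl fun p hp => ?_
          rw [(Finset.mem_filter.1 hp).2]
        rw [h1]
        exact mul_le_mul_of_nonneg_right (hC j) (hw j)
    _ = C * ∑ j ∈ range (S.sup (fun p : ℕ => ⌊Real.log p⌋₊) + 1), w j := by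
        rw [Finset.mul_sum]
    _ ≤ C * B := mul_le_mul_of_nonneg_left (hB _) hC0

private theorem summable_abs : Summable fun i : ℤ => Real.exp (-|(i : ℝ)|) := by
  have h1 : Summable fun k : ℕ => Real.exp (-(k : ℝ)) := by
    have h2 : Summable fun k : ℕ => Real.exp (-1) ^ k :=
      summable_geometric_of_lt_one (Real.exp_pos _).le (by
        rw [Real.exp_lt_one_iff]
        norm_num)
    refine h2.congr fun k => ?_
    rw [← Real.exp_nat_mul]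
    congr 1
    ring
  refine Summable.of_nat_of_neg ?_ ?_
  · refine h1.congr fun k => ?_
    rw [Int.cast_natCast, Nat.abs_cast]
  · refine h1.congr fun k => ?_
    rw [Int.cast_neg, Int.cast_natCast, abs_neg, Nat.abs_cast]

theorem prime_kernel : ∃ C : ℝ, 0 < C ∧ ∀ S : Finset ℕ, (∀ p ∈ S, p.Prime) → ∀ x : ℝ,
    ∑ p ∈ S, Real.log p / p * Real.exp (-((x - Real.log p) ^ 2) / 4) ≤ C := by
  obtain ⟨C, hC0, hC⟩ := block_le
  set T : ℝ := ∑' i : ℤ, Real.exp (-|(i : ℝ)|) with hT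
  have hT0 : 0 ≤ T := tsum_nonneg fun i => (Real.exp_pos _).le
  refine ⟨C * (Real.exp 2 * (T + 1)), by positivity, fun S hS x => ?_⟩
  let w : ℕ → ℝ := fun j => Real.exp 2 * Real.exp (-|((⌊x⌋ - (j : ℤ) : ℤ) : ℝ)|)
  have hw : ∀ j, 0 ≤ w j := fun j => by positivity
  have hB : ∀ K : ℕ, ∑ j ∈ range K, w j ≤ Real.exp 2 * (T + 1) := by
    intro K
    show ∑ j ∈ range K, Real.exp 2 * Real.exp (-|((⌊x⌋ - (j : ℤ) : ℤ) : ℝ)|) ≤ _
    rw [← Finset.mul_sum]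
    refine mul_le_mul_of_nonneg_left ?_ (Real.exp_pos _).le
    have hinj : Function.Injective fun j : ℕ => ⌊x⌋ - (j : ℤ) := by
      intro a b hab
      simp only at hab
      omega
    have h1 : ∑ j ∈ range K, Real.exp (-|((⌊x⌋ - (j : ℤ) : ℤ) : ℝ)|) =
        ∑ i ∈ (range K).map ⟨fun j : ℕ => ⌊x⌋ - (j : ℤ), hinj⟩, Real.exp (-|(i : ℝ)|) := by
      rw [Finset.sum_map]
      rfl
    rw [h1]
    have h2 : ∑ i ∈ (range K).map ⟨fun j : ℕ => ⌊x⌋ - (j : ℤ), hinj⟩, Real.exp (-|(i : ℝ)|) ≤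
        T := summable_abs.sum_le_tsum _ fun i _ => (Real.exp_pos _).le
    linarith
  refine le_trans (Finset.sum_le_sum fun p hp => ?_) (sort_le (hC S hS) hw hB hC0.le)
  refine mul_le_mul_of_nonneg_left ?_ (term_nonneg p)
  obtain ⟨-, -, h1, h2⟩ := floor_log (hS p hp)
  show _ ≤ Real.exp 2 * Real.exp _
  rw [← Real.exp_add, Real.exp_le_exp]
  have h3 := Int.floor_le x
  have h4 := Int.lt_floor_add_one x
  set z : ℝ := |x - Real.log p| with hz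
  have h5 : |((⌊x⌋ - ((⌊Real.log p⌋₊ : ℕ) : ℤ) : ℤ) : ℝ)| ≤ z + 1 := by
    rw [Int.cast_sub, Int.cast_natCast, hz]
    have h6 : (⌊x⌋ : ℝ) - (⌊Real.log p⌋₊ : ℝ) =
        (x - Real.log p) + ((⌊x⌋ - x) + (Real.log p - (⌊Real.log p⌋₊ : ℝ))) := by ring
    rw [h6]
    refine (abs_add_le _ _).trans (add_le_add le_rfl ?_)
    rw [abs_le]
    constructor <;> linarith
  have h7 : (x - Real.log p) ^ 2 = z ^ 2 := by rw [hz, sq_abs]
  rw [h7]
  nlinarith [sq_nonneg (z / 2 - 1)]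

theorem prime_log_sum : ∃ C : ℝ, 0 < C ∧ ∀ S : Finset ℕ, (∀ p ∈ S, p.Prime) → ∀ σ : ℝ,
    0 < σ → σ ≤ 1 → ∑ p ∈ S, Real.log p * (p : ℝ) ^ (-(1 + σ)) ≤ C / σ := by
  obtain ⟨C, hC0, hC⟩ := block_le
  refine ⟨C * 2, by positivity, fun S hS σ h0 h1 => ?_⟩
  let w : ℕ → ℝ := fun j => Real.exp (-σ) ^ j
  have hw : ∀ j, 0 ≤ w j := fun j => by positivity
  have hr : 1 - Real.exp (-σ) ≥ σ / 2 := by
    have h2 : 1 + σ ≤ Real.exp σ := by linarith [Real.add_one_le_exp σ]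
    have h3 : Real.exp (-σ) ≤ (1 + σ)⁻¹ := by
      rw [Real.exp_neg]
      exact inv_anti₀ (by linarith) h2
    have h4 : (1 + σ)⁻¹ ≤ 1 - σ / 2 := by
      rw [inv_le_iff_one_le_mul₀ (by linarith)]
      nlinarith
    linarith
  have hB : ∀ K : ℕ, ∑ j ∈ range K, w j ≤ 2 / σ := by
    intro K
    have h2 : Real.exp (-σ) < 1 := by linarith
    have h3 : ∑ j ∈ range K, Real.exp (-σ) ^ j ≤ (1 - Real.exp (-σ))⁻¹ := by
      rw [← tsum_geometric_of_lt_one (Real.exp_pos _).le h2]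
      exact (summable_geometric_of_lt_one (Real.exp_pos _).le h2).sum_le_tsum _
        fun j _ => by positivity
    refine h3.trans ?_
    rw [show 2 / σ = (σ / 2)⁻¹ by rw [inv_div]]
    exact inv_anti₀ (by linarith) hr
  have h2 := sort_le (hC S hS) hw hB hC0.le
  rw [mul_div_assoc]
  refine le_trans (Finset.sum_le_sum fun p hp => ?_) h2
  have hp0 : (0 : ℝ) < p := by exact_mod_cast (hS p hp).pos
  obtain ⟨h3, -, -, -⟩ := floor_log (hS p hp)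
  have h4 : (p : ℝ) ^ (-(1 + σ)) = (p : ℝ) ^ (-σ) / p := by
    rw [show -(1 + σ) = -σ - 1 by ring, Real.rpow_sub_one hp0.ne']
  have h5 : (p : ℝ) ^ (-σ) ≤ Real.exp (-σ) ^ ⌊Real.log p⌋₊ := by
    have h6 : Real.exp (-σ) ^ ⌊Real.log p⌋₊ = Real.exp (⌊Real.log p⌋₊ : ℝ) ^ (-σ) := by
      rw [← Real.exp_nat_mul, ← Real.exp_mul]
    rw [h6]
    exact Real.rpow_le_rpow_of_nonpos (Real.exp_pos _) h3 (by linarith)
  rw [h4]
  calc Real.log p * ((p : ℝ) ^ (-σ) / p) = Real.log p / p * (p : ℝ) ^ (-σ) := by ring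
    _ ≤ Real.log p / p * Real.exp (-σ) ^ ⌊Real.log p⌋₊ :=
        mul_le_mul_of_nonneg_left h5 (term_nonneg p)

end Pool.Agent.MOM
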