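import Pool.Agent.MOM.An.Parseval

/-!
MOM (MP_2b7f8f_an), HAL H1: Parseval for absolutely summable coefficients.

PROOF. Put `F y = ∑' n, a n * eta s (y - log n)`, `G ξ = ∑' n, a n * ph ξ n`, and `F_N`, `G_N` for
the
partial sums `n < N`. `eta s` is bounded by `eta s 0` and continuous, so `F_N → F` uniformly
(`F` continuous), and `‖G - G_N‖ ≤ r_N := ∑_{n ≥ N} ‖a n‖ → 0` uniformly (`G` continuous and
bounded).
For finite sums `parseval_gauss` (file An/Parseval.lean; `y n = log n`,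
`ph ξ n = exp (((-(ξ log n) : ℝ) : ℂ) I)` by definition) is the identity.
Right side: `‖G_N‖² e^{-s²ξ²} → ‖G‖² e^{-s²ξ²}` dominated by `S² e^{-s²ξ²}`, `S = ∑' ‖a n‖`
(`MeasureTheory.tendsto_integral_of_dominated_convergence`, `integrable_exp_neg_mul_sq`).
Left side: `F y` and `F_N y` are bounded in norm by `Φ y = ∑' ‖a n‖ eta s (y - log n)`. `Φ² ≤ S ·
eta s 0 · Φ`
is integrable, because `∫ eta s (y - log n) dy = 1` and `∑ ‖a n‖` converges
(`MeasureTheory.integrable_tsum` or `hasSum_integral_of_summable_integral_norm`; the functions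
`‖a n‖ eta s (· - log n)` are integrable with summable integrals). Dominated convergence again.
Both limits agree.
-/

set_option autoImplicit false

namespace Pool.Agent.MOM

open Finset MeasureTheory

private theorem eta_le_zero {s : ℝ} (hs : 0 < s) (y : ℝ) : eta s y ≤ eta s 0 := by
  unfold eta
  refine mul_le_mul_of_nonneg_left ?_ (by positivity)
  refine Real.exp_le_exp.2 ?_
  have h1 : 0 ≤ y ^ 2 / (2 * s ^ 2) := by positivity
  have h2 : -(y ^ 2) / (2 * s ^ 2) = -(y ^ 2 / (2 * s ^ 2)) := by ring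
  rw [h2]
  simp only [ne_eq, OfNat.ofNat_ne_zero, not_false_eq_true, zero_pow, neg_zero, zero_div]
  linarith

private theorem integrable_eta {s : ℝ} (hs : 0 < s) (c : ℝ) :
    Integrable fun y => eta s (y - c) := by
  have h2 : 0 < (2 * s ^ 2)⁻¹ := by positivity
  have h1 : (fun y => eta s (y - c)) = fun y => (s * Real.sqrt (2 * Real.pi))⁻¹ *
      Real.exp (-(2 * s ^ 2)⁻¹ * (y - c) ^ 2) := by
    funext y
    unfold eta
    congr 2
    rw [neg_mul, neg_div]
    congr 1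
    rw [div_eq_inv_mul]
  rw [h1]
  exact ((integrable_exp_neg_mul_sq h2).comp_sub_right c).const_mul _

private theorem integral_eta (s c : ℝ) : ∫ y, eta s (y - c) = ∫ y, eta s y :=
  integral_sub_right_eq_self (eta s) c

theorem parseval_l1 (a : ℕ → ℂ) (ha : Summable fun n => ‖a n‖) {s : ℝ} (hs : 0 < s) :
    Integrable (fun y => ‖∑' n, a n * (eta s (y - Real.log n) : ℂ)‖ ^ 2) ∧
    Integrable (fun ξ => ‖∑' n, a n * ph ξ n‖ ^ 2 * Real.exp (-(s ^ 2 * ξ ^ 2))) ∧
    ∫ y, ‖∑' n, a n * (eta s (y - Real.log n) : ℂ)‖ ^ 2 = (2 * Real.pi)⁻¹ *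
      ∫ ξ, ‖∑' n, a n * ph ξ n‖ ^ 2 * Real.exp (-(s ^ 2 * ξ ^ 2)) := by
  have hB0 : 0 ≤ eta s 0 := eta_nonneg hs.le 0
  have hfn : ∀ n y, ‖a n * (eta s (y - Real.log n) : ℂ)‖ = ‖a n‖ * eta s (y - Real.log n) := by
    intro n y
    rw [norm_mul, Complex.norm_real, Real.norm_of_nonneg (eta_nonneg hs.le _)]
  have hub : ∀ n y, ‖a n‖ * eta s (y - Real.log n) ≤ ‖a n‖ * eta s 0 := fun n y =>
    mul_le_mul_of_nonneg_left (eta_le_zero hs _) (norm_nonneg _)
  have hsu : Summable fun n => ‖a n‖ * eta s 0 := ha.mul_right _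
  have hsn : ∀ y, Summable fun n => ‖a n‖ * eta s (y - Real.log n) := fun y =>
    Summable.of_nonneg_of_le (fun n => mul_nonneg (norm_nonneg _) (eta_nonneg hs.le _))
      (fun n => hub n y) hsu
  have hsf : ∀ y, Summable fun n => a n * (eta s (y - Real.log n) : ℂ) := fun y =>
    Summable.of_norm ((hsn y).congr fun n => (hfn n y).symm)
  have hce : ∀ n : ℕ, Continuous fun y : ℝ => eta s (y - Real.log n) := fun n =>
    (continuous_eta s).comp (continuous_id.sub continuous_const)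
  have hcf : ∀ n : ℕ, Continuous fun y : ℝ => a n * (eta s (y - Real.log n) : ℂ) := fun n =>
    continuous_const.mul (Complex.continuous_ofReal.comp (hce n))
  have hcF : Continuous fun y : ℝ => ∑' n, a n * (eta s (y - Real.log n) : ℂ) := by
    refine continuous_tsum hcf hsu fun n y => ?_
    rw [hfn]
    exact hub n y
  have hcΦ : Continuous fun y : ℝ => ∑' n, ‖a n‖ * eta s (y - Real.log n) := by
    refine continuous_tsum (fun n => continuous_const.mul (hce n)) hsu fun n y => ?_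
    rw [Real.norm_of_nonneg (mul_nonneg (norm_nonneg _) (eta_nonneg hs.le _))]
    exact hub n y
  have hΦ0 : ∀ y, 0 ≤ ∑' n, ‖a n‖ * eta s (y - Real.log n) := fun y =>
    tsum_nonneg fun n => mul_nonneg (norm_nonneg _) (eta_nonneg hs.le _)
  have hΦb : ∀ y, ∑' n, ‖a n‖ * eta s (y - Real.log n) ≤ ∑' n, ‖a n‖ * eta s 0 := fun y =>
    (hsn y).tsum_le_tsum (fun n => hub n y) hsu
  have hint : ∀ n : ℕ, Integrable fun y : ℝ => ‖a n‖ * eta s (y - Real.log n) := fun n =>
    (integrable_eta hs _).const_mul _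
  have hsI : Summable fun n : ℕ => ∫ y : ℝ, ‖a n‖ * eta s (y - Real.log n) := by
    have h1 : (fun n : ℕ => ∫ y : ℝ, ‖a n‖ * eta s (y - Real.log n)) = fun n : ℕ =>
        ‖a n‖ * ∫ y, eta s y := by
      funext n
      rw [← integral_eta s (Real.log n), ← integral_const_mul]
    rw [h1]
    exact ha.mul_right _
  have hIΦ : Integrable fun y : ℝ => ∑' n, ‖a n‖ * eta s (y - Real.log n) := by
    refine ⟨hcΦ.aestronglyMeasurable, ?_⟩
    rw [hasFiniteIntegral_iff_ofReal (Filter.Eventually.of_forall hΦ0)]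
    have h1 : ∀ y : ℝ, ENNReal.ofReal (∑' n, ‖a n‖ * eta s (y - Real.log n)) =
        ∑' n : ℕ, ENNReal.ofReal (‖a n‖ * eta s (y - Real.log n)) := fun y =>
      ENNReal.ofReal_tsum_of_nonneg
        (fun n => mul_nonneg (norm_nonneg _) (eta_nonneg hs.le _)) (hsn y)
    have h2 : ∀ n : ℕ, ∫⁻ y : ℝ, ENNReal.ofReal (‖a n‖ * eta s (y - Real.log n)) =
        ENNReal.ofReal (∫ y : ℝ, ‖a n‖ * eta s (y - Real.log n)) := fun n =>
      (ofReal_integral_eq_lintegral_ofReal (hint n) (Filter.Eventually.of_forall fun y =>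
        mul_nonneg (norm_nonneg _) (eta_nonneg hs.le _))).symm
    have h3 : ∀ n : ℕ, AEMeasurable (fun y : ℝ =>
        ENNReal.ofReal (‖a n‖ * eta s (y - Real.log n))) := fun n =>
      (((continuous_const (y := ‖a n‖)).mul (hce n)).measurable.ennreal_ofReal).aemeasurable
    rw [lintegral_congr h1, lintegral_tsum h3]
    rw [tsum_congr h2, ← ENNReal.ofReal_tsum_of_nonneg
      (fun n => integral_nonneg fun y => mul_nonneg (norm_nonneg _) (eta_nonneg hs.le _)) hsI]
    exact ENNReal.ofReal_lt_top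
  -- pointwise bounds for the left side
  have hS0 : 0 ≤ ∑' n, ‖a n‖ * eta s 0 := tsum_nonneg fun n => mul_nonneg (norm_nonneg _) hB0
  have hpart : ∀ N y, ‖∑ n ∈ range N, a n * (eta s (y - Real.log n) : ℂ)‖ ≤
      ∑' n, ‖a n‖ * eta s (y - Real.log n) := by
    intro N y
    refine (norm_sum_le _ _).trans ?_
    rw [Finset.sum_congr rfl fun n _ => hfn n y]
    exact (hsn y).sum_le_tsum _ fun n _ => mul_nonneg (norm_nonneg _) (eta_nonneg hs.le _)
  have hfull : ∀ y, ‖∑' n, a n * (eta s (y - Real.log n) : ℂ)‖ ≤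
      ∑' n, ‖a n‖ * eta s (y - Real.log n) := by
    intro y
    refine (norm_tsum_le_tsum_norm ((hsn y).congr fun n => (hfn n y).symm)).trans ?_
    rw [tsum_congr fun n => hfn n y]
  have hsq : ∀ y z : ℝ, 0 ≤ z → z ≤ ∑' n, ‖a n‖ * eta s (y - Real.log n) →
      z ^ 2 ≤ (∑' n, ‖a n‖ * eta s 0) * ∑' n, ‖a n‖ * eta s (y - Real.log n) := by
    intro y z hz h
    rw [sq]
    exact mul_le_mul (h.trans (hΦb y)) h hz hS0
  have hIL := hIΦ.const_mul (∑' n, ‖a n‖ * eta s 0)
  have hL : Integrable fun y : ℝ => ‖∑' n, a n * (eta s (y - Real.log n) : ℂ)‖ ^ 2 := by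
    refine hIL.mono' (hcF.norm.pow 2).aestronglyMeasurable (Filter.Eventually.of_forall fun y => ?_)
    rw [Real.norm_of_nonneg (by positivity)]
    exact hsq y _ (norm_nonneg _) (hfull y)
  -- the right side
  have hph : ∀ n ξ, ‖a n * ph ξ n‖ = ‖a n‖ := fun n ξ => by rw [norm_mul, norm_ph, mul_one]
  have hsp : ∀ ξ, Summable fun n => a n * ph ξ n := fun ξ =>
    Summable.of_norm (ha.congr fun n => (hph n ξ).symm)
  have hcG : Continuous fun ξ : ℝ => ∑' n, a n * ph ξ n :=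
    continuous_tsum (fun n => continuous_const.mul (continuous_ph n)) ha fun n ξ => (hph n ξ).le
  have hA0 : 0 ≤ ∑' n, ‖a n‖ := tsum_nonneg fun n => norm_nonneg _
  have hpartR : ∀ N ξ, ‖∑ n ∈ range N, a n * ph ξ n‖ ≤ ∑' n, ‖a n‖ := by
    intro N ξ
    refine (norm_sum_le _ _).trans ?_
    rw [Finset.sum_congr rfl fun n _ => hph n ξ]
    exact ha.sum_le_tsum _ fun n _ => norm_nonneg _
  have hfullR : ∀ ξ, ‖∑' n, a n * ph ξ n‖ ≤ ∑' n, ‖a n‖ := by
    intro ξ
    refine (norm_tsum_le_tsum_norm (ha.congr fun n => (hph n ξ).symm)).trans ?_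
    rw [tsum_congr fun n => hph n ξ]
  have hce2 : Continuous fun ξ : ℝ => Real.exp (-(s ^ 2 * ξ ^ 2)) := by fun_prop
  have hIg : Integrable fun ξ : ℝ => (∑' n, ‖a n‖) ^ 2 * Real.exp (-(s ^ 2 * ξ ^ 2)) := by
    have h3 := integrable_exp_neg_mul_sq (b := s ^ 2) (by positivity)
    have h4 : Integrable fun ξ : ℝ => Real.exp (-(s ^ 2 * ξ ^ 2)) := by
      simpa only [neg_mul] using h3
    exact h4.const_mul _
  have hR : Integrable fun ξ : ℝ => ‖∑' n, a n * ph ξ n‖ ^ 2 *
      Real.exp (-(s ^ 2 * ξ ^ 2)) := by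
    refine hIg.mono' ((hcG.norm.pow 2).mul hce2).aestronglyMeasurable
      (Filter.Eventually.of_forall fun ξ => ?_)
    rw [Real.norm_of_nonneg (by positivity)]
    exact mul_le_mul_of_nonneg_right (pow_le_pow_left₀ (norm_nonneg _) (hfullR ξ) 2)
      (Real.exp_pos _).le
  refine ⟨hL, hR, ?_⟩
  have hlim1 : Filter.Tendsto (fun N : ℕ => ∫ y : ℝ,
      ‖∑ n ∈ range N, a n * (eta s (y - Real.log n) : ℂ)‖ ^ 2) Filter.atTop
      (nhds (∫ y : ℝ, ‖∑' n, a n * (eta s (y - Real.log n) : ℂ)‖ ^ 2)) := by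
    refine tendsto_integral_of_dominated_convergence _ (fun N => ?_) hIL (fun N => ?_) ?_
    · exact ((continuous_finsetSum _ fun n _ => hcf n).norm.pow 2).aestronglyMeasurable
    · refine Filter.Eventually.of_forall fun y => ?_
      rw [Real.norm_of_nonneg (by positivity)]
      exact hsq y _ (norm_nonneg _) (hpart N y)
    · refine Filter.Eventually.of_forall fun y => ?_
      exact ((hsf y).hasSum.tendsto_sum_nat.norm.pow 2)
  have hlim2 : Filter.Tendsto (fun N : ℕ => (2 * Real.pi)⁻¹ * ∫ ξ : ℝ,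
      ‖∑ n ∈ range N, a n * ph ξ n‖ ^ 2 * Real.exp (-(s ^ 2 * ξ ^ 2))) Filter.atTop
      (nhds ((2 * Real.pi)⁻¹ * ∫ ξ : ℝ, ‖∑' n, a n * ph ξ n‖ ^ 2 *
        Real.exp (-(s ^ 2 * ξ ^ 2)))) := by
    refine Filter.Tendsto.const_mul _ ?_
    refine tendsto_integral_of_dominated_convergence _ (fun N => ?_) hIg (fun N => ?_) ?_
    · exact (((continuous_finsetSum _ fun n _ => continuous_const.mul
        (continuous_ph n)).norm.pow 2).mul hce2).aestronglyMeasurable
    · refine Filter.Eventually.of_forall fun ξ => ?_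
      rw [Real.norm_of_nonneg (by positivity)]
      exact mul_le_mul_of_nonneg_right (pow_le_pow_left₀ (norm_nonneg _) (hpartR N ξ) 2)
        (Real.exp_pos _).le
    · refine Filter.Eventually.of_forall fun ξ => ?_
      exact ((hsp ξ).hasSum.tendsto_sum_nat.norm.pow 2).mul_const _
  have heq : ∀ N : ℕ, ∫ y : ℝ,
      ‖∑ n ∈ range N, a n * (eta s (y - Real.log n) : ℂ)‖ ^ 2 = (2 * Real.pi)⁻¹ * ∫ ξ : ℝ,
      ‖∑ n ∈ range N, a n * ph ξ n‖ ^ 2 * Real.exp (-(s ^ 2 * ξ ^ 2)) := fun N =>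
    parseval_gauss (range N) a (fun n => Real.log n) hs
  refine tendsto_nhds_unique hlim1 ?_
  rw [funext heq]
  exact hlim2

end Pool.Agent.MOM
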