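import Pool.Agent.MOM.Hal.Box

/-!
MOM, HAL part 1b: Plancherel inequality for window sums.

PROOF of `plan_fin`. Put `s = log lam ∈ (0, log 2] ⊂ (0,1]`. For `n ≥ 1`: `n ∈ win (e^y) (lam e^y)`
iff `log n - s ≤ y < log n` (`mem_win`), so `n` contributes on the interval `[log n - s, log n)` of
length `s`, and for `m, n ≥ 1` the two intervals overlap in length `max 0 (s - |log m - log n|)`:
`∫_ℝ [n ∈ win][m ∈ win] dy = max 0 (s - |log m - log n|)`. Expanding the square
(`Complex.mul_conj'`, finite sums; the integrand is compactly supported and bounded),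
`∫_ℝ ‖∑_{n ∈ S ∩ win} a n‖² dy = ∑_{m,n ∈ S} a_m conj a_n max 0 (s - |log m - log n|)`, which by
`integral_boxKer_exp` (with `u = log n - log m`) is
`(2 c0)^{-1} ∑_{m,n} a_m conj a_n ∫ boxKer s ξ e^{i(log n - log m) ξ} dξ
 = (2 c0)^{-1} ∫ boxKer s ξ ‖∑_{n ∈ S} a n ph ξ n‖² dξ` since `ph ξ m · conj (ph ξ n) =
e^{-iξ(log m - log n)}`. Use `boxKer_le`: `≤ (5/(2 c0)) ∫ ‖∑_S a n ph ξ n‖²/(1+ξ²) dξ`.
(A convenient way to organise: both sides are Hermitian forms `∑ a_m conj a_n K(m,n)` with the same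
`K`; the interval integral over `[y1,y2]` is at most the integral over `ℝ` as the integrand is `≥
0`.)
-/

set_option autoImplicit false

namespace Pool.Agent.MOM

open Finset MeasureTheory

private theorem pf_mem {lam : ℝ} (hl : 1 < lam) {n : ℕ} (hn : n ≠ 0) (y : ℝ) :
    n ∈ win (Real.exp y) (lam * Real.exp y) ↔
      y ∈ Set.Ico (Real.log n - Real.log lam) (Real.log n) := by
  have hn0 : (0 : ℝ) < n := by exact_mod_cast Nat.pos_of_ne_zero hn
  have hl0 : 0 < lam := by linarith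
  rw [mem_win (Real.exp_pos y).le, Set.mem_Ico, and_comm]
  refine and_congr ?_ ?_
  · rw [← Real.log_le_log_iff hn0 (mul_pos hl0 (Real.exp_pos y)),
      Real.log_mul hl0.ne' (Real.exp_pos y).ne', Real.log_exp]
    constructor <;> intro h <;> linarith
  · rw [Real.lt_log_iff_exp_lt hn0]

private theorem pf_vol (a b s : ℝ) :
    ∫ y : ℝ, (Set.Ico (a - s) a ∩ Set.Ico (b - s) b).indicator (fun _ => (1 : ℂ)) y =
      ((max 0 (s - |b - a|) : ℝ) : ℂ) := by
  rw [Set.Ico_inter_Ico, integral_indicator measurableSet_Ico, setIntegral_const,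
    Real.volume_real_Ico, Complex.real_smul, mul_one]
  congr 1
  rw [max_comm]
  congr 1
  rcases le_total a b with h | h
  · rw [inf_eq_left.2 h, sup_eq_right.2 (by linarith), abs_of_nonneg (by linarith)]
    ring
  · rw [inf_eq_right.2 h, sup_eq_left.2 (by linarith), abs_of_nonpos (by linarith)]
    ring

private theorem pf_int (a b s : ℝ) : Integrable
    (fun y : ℝ => (Set.Ico (a - s) a ∩ Set.Ico (b - s) b).indicator (fun _ => (1 : ℂ)) y) := by
  rw [Set.Ico_inter_Ico]
  exact (integrable_indicator_iff measurableSet_Ico).2 (integrableOn_const (by simp))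

private theorem pf_sq (S : Finset ℕ) (a e : ℕ → ℂ) :
    ((‖∑ n ∈ S, a n * e n‖ ^ 2 : ℝ) : ℂ) =
      ∑ m ∈ S, ∑ n ∈ S, a m * (starRingEnd ℂ) (a n) * (e m * (starRingEnd ℂ) (e n)) := by
  rw [Complex.ofReal_pow, ← Complex.mul_conj', map_sum, Finset.sum_mul_sum]
  refine Finset.sum_congr rfl fun m _ => Finset.sum_congr rfl fun n _ => ?_
  rw [map_mul]
  ring

private theorem pf_ph (t : ℝ) (m n : ℕ) : ph t m * (starRingEnd ℂ) (ph t n) =
    Complex.exp ((((Real.log n - Real.log m) * t : ℝ) : ℂ) * Complex.I) := by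
  unfold ph
  rw [← Complex.exp_conj, ← Complex.exp_add]
  congr 1
  rw [map_mul, Complex.conj_I, Complex.conj_ofReal]
  push_cast
  ring

private theorem pf_ind (lam y : ℝ) (m n : ℕ) :
    (Set.Ico (Real.log m - Real.log lam) (Real.log m)).indicator (fun _ => (1 : ℂ)) y *
      (starRingEnd ℂ) ((Set.Ico (Real.log n - Real.log lam) (Real.log n)).indicator
        (fun _ => (1 : ℂ)) y) =
      (Set.Ico (Real.log m - Real.log lam) (Real.log m) ∩
        Set.Ico (Real.log n - Real.log lam) (Real.log n)).indicator (fun _ => (1 : ℂ)) y := by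
  by_cases h1 : y ∈ Set.Ico (Real.log m - Real.log lam) (Real.log m)
  · by_cases h2 : y ∈ Set.Ico (Real.log n - Real.log lam) (Real.log n)
    · rw [Set.indicator_of_mem h1, Set.indicator_of_mem h2,
        Set.indicator_of_mem (Set.mem_inter h1 h2), map_one, mul_one]
    · have h3 : y ∉ Set.Ico (Real.log m - Real.log lam) (Real.log m) ∩
          Set.Ico (Real.log n - Real.log lam) (Real.log n) := fun h => h2 h.2
      rw [Set.indicator_of_notMem h2, Set.indicator_of_notMem h3, map_zero, mul_zero]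
  · have h3 : y ∉ Set.Ico (Real.log m - Real.log lam) (Real.log m) ∩
        Set.Ico (Real.log n - Real.log lam) (Real.log n) := fun h => h1 h.1
    rw [Set.indicator_of_notMem h1, Set.indicator_of_notMem h3, zero_mul]

private theorem pf_left (lam : ℝ) (S : Finset ℕ) (a : ℕ → ℂ) :
    (Integrable fun y : ℝ => ‖∑ n ∈ S, a n *
      (Set.Ico (Real.log n - Real.log lam) (Real.log n)).indicator (fun _ => (1 : ℂ)) y‖ ^ 2) ∧
    ((∫ y : ℝ, ‖∑ n ∈ S, a n *
      (Set.Ico (Real.log n - Real.log lam) (Real.log n)).indicator (fun _ => (1 : ℂ)) y‖ ^ 2 : ℝ) :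
        ℂ) = ∑ m ∈ S, ∑ n ∈ S, a m * (starRingEnd ℂ) (a n) *
          ((max 0 (Real.log lam - |Real.log n - Real.log m|) : ℝ) : ℂ) := by
  have h1 : ∀ y : ℝ, ((‖∑ n ∈ S, a n *
      (Set.Ico (Real.log n - Real.log lam) (Real.log n)).indicator (fun _ => (1 : ℂ)) y‖ ^ 2 : ℝ) :
        ℂ) = ∑ m ∈ S, ∑ n ∈ S, a m * (starRingEnd ℂ) (a n) *
          (Set.Ico (Real.log m - Real.log lam) (Real.log m) ∩
            Set.Ico (Real.log n - Real.log lam) (Real.log n)).indicator (fun _ => (1 : ℂ)) y := by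
    intro y
    rw [pf_sq]
    refine Finset.sum_congr rfl fun m _ => Finset.sum_congr rfl fun n _ => ?_
    rw [pf_ind]
  have h2 : Integrable fun y : ℝ => ∑ m ∈ S, ∑ n ∈ S, a m * (starRingEnd ℂ) (a n) *
          (Set.Ico (Real.log m - Real.log lam) (Real.log m) ∩
            Set.Ico (Real.log n - Real.log lam) (Real.log n)).indicator (fun _ => (1 : ℂ)) y :=
    integrable_finsetSum _ fun m _ => integrable_finsetSum _ fun n _ =>
      (pf_int _ _ _).const_mul _
  refine ⟨?_, ?_⟩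
  · have h3 : Integrable fun y : ℝ => ((‖∑ n ∈ S, a n *
        (Set.Ico (Real.log n - Real.log lam) (Real.log n)).indicator
          (fun _ => (1 : ℂ)) y‖ ^ 2 : ℝ) : ℂ) := by
      simp_rw [h1]
      exact h2
    have h4 := h3.re
    simpa only [RCLike.re_to_complex, Complex.ofReal_re] using h4
  · rw [← integral_complex_ofReal]
    simp_rw [h1]
    rw [integral_finsetSum _ fun m _ => integrable_finsetSum _ fun n _ =>
      (pf_int _ _ _).const_mul _]
    refine Finset.sum_congr rfl fun m _ => ?_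
    rw [integral_finsetSum _ fun n _ => (pf_int _ _ _).const_mul _]
    refine Finset.sum_congr rfl fun n _ => ?_
    rw [integral_const_mul, pf_vol]

private theorem pf_right {s : ℝ} (hs : 0 ≤ s) (S : Finset ℕ) (a : ℕ → ℂ) :
    ((∫ ξ : ℝ, boxKer s ξ * ‖∑ n ∈ S, a n * ph ξ n‖ ^ 2 : ℝ) : ℂ) =
      ∑ m ∈ S, ∑ n ∈ S, a m * (starRingEnd ℂ) (a n) *
          ((2 * c0 * max 0 (s - |Real.log n - Real.log m|) : ℝ) : ℂ) := by
  have h1 : ∀ ξ : ℝ, ((boxKer s ξ * ‖∑ n ∈ S, a n * ph ξ n‖ ^ 2 : ℝ) : ℂ) =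
      ∑ m ∈ S, ∑ n ∈ S, a m * (starRingEnd ℂ) (a n) *
        ((boxKer s ξ : ℂ) *
          Complex.exp ((((Real.log n - Real.log m) * ξ : ℝ) : ℂ) * Complex.I)) := by
    intro ξ
    rw [Complex.ofReal_mul, pf_sq, Finset.mul_sum]
    refine Finset.sum_congr rfl fun m _ => ?_
    rw [Finset.mul_sum]
    refine Finset.sum_congr rfl fun n _ => ?_
    rw [pf_ph]
    ring
  have hint : ∀ u : ℝ, Integrable fun ξ : ℝ => (boxKer s ξ : ℂ) *
      Complex.exp (((u * ξ : ℝ) : ℂ) * Complex.I) := by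
    intro u
    have hc : Continuous fun ξ : ℝ => Complex.exp (((u * ξ : ℝ) : ℂ) * Complex.I) := by
      fun_prop
    refine Integrable.mono' (integrable_boxKer s)
      ((integrable_boxKer s).ofReal.aestronglyMeasurable.mul hc.aestronglyMeasurable)
      (Filter.Eventually.of_forall fun ξ => ?_)
    rw [norm_mul, Complex.norm_real, Complex.norm_exp_ofReal_mul_I, mul_one,
      Real.norm_of_nonneg (boxKer_nonneg s ξ)]
  rw [← integral_complex_ofReal]
  simp_rw [h1]
  rw [integral_finsetSum _ fun m _ => integrable_finsetSum _ fun n _ => (hint _).const_mul _]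
  refine Finset.sum_congr rfl fun m _ => ?_
  rw [integral_finsetSum _ fun n _ => (hint _).const_mul _]
  refine Finset.sum_congr rfl fun n _ => ?_
  rw [integral_const_mul, integral_boxKer_exp hs]

private theorem pf_bd (S : Finset ℕ) (a : ℕ → ℂ) :
    Integrable fun ξ : ℝ => ‖∑ n ∈ S, a n * ph ξ n‖ ^ 2 / (1 + ξ ^ 2) := by
  have hc : Continuous fun ξ : ℝ => ‖∑ n ∈ S, a n * ph ξ n‖ ^ 2 / (1 + ξ ^ 2) := by
    refine Continuous.div ?_ (by fun_prop) fun ξ => by positivity
    exact ((continuous_finsetSum _ fun n _ => continuous_const.mul (continuous_ph n)).norm).pow 2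
  refine Integrable.mono' (integrable_inv_one_add_sq.const_mul ((∑ n ∈ S, ‖a n‖) ^ 2))
    hc.aestronglyMeasurable (Filter.Eventually.of_forall fun ξ => ?_)
  rw [Real.norm_of_nonneg (by positivity), ← div_eq_mul_inv]
  refine div_le_div_of_nonneg_right ?_ (by positivity)
  refine pow_le_pow_left₀ (norm_nonneg _) ?_ 2
  refine (norm_sum_le _ _).trans (Finset.sum_le_sum fun n _ => ?_)
  rw [norm_mul, norm_ph, mul_one]

theorem plan_fin {lam : ℝ} (hl : 1 < lam) (hl2 : lam ≤ 2) (S : Finset ℕ) (hS : 0 ∉ S)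
    (a : ℕ → ℂ) (y1 y2 : ℝ) (hy : y1 ≤ y2) :
    ∫ y in y1..y2, ‖∑ n ∈ S.filter (· ∈ win (Real.exp y) (lam * Real.exp y)), a n‖ ^ 2 ≤
      5 / (2 * c0) * ∫ ξ : ℝ, ‖∑ n ∈ S, a n * ph ξ n‖ ^ 2 / (1 + ξ ^ 2) := by
  have hs0 : 0 ≤ Real.log lam := Real.log_nonneg hl.le
  have hs1 : Real.log lam ≤ 1 := by
    have h := Real.log_le_sub_one_of_pos (show 0 < lam by linarith)
    linarith
  have hc := c0_pos
  have h1 : ∀ y : ℝ, ∑ n ∈ S.filter (· ∈ win (Real.exp y) (lam * Real.exp y)), a n =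
      ∑ n ∈ S, a n * (Set.Ico (Real.log n - Real.log lam) (Real.log n)).indicator
        (fun _ => (1 : ℂ)) y := by
    intro y
    rw [Finset.sum_filter]
    refine Finset.sum_congr rfl fun n hn => ?_
    have hn0 : n ≠ 0 := fun h => hS (h ▸ hn)
    by_cases h : n ∈ win (Real.exp y) (lam * Real.exp y)
    · rw [if_pos h, Set.indicator_of_mem ((pf_mem hl hn0 y).1 h), mul_one]
    · rw [if_neg h, Set.indicator_of_notMem fun h2 => h ((pf_mem hl hn0 y).2 h2), mul_zero]
  simp_rw [h1]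
  obtain ⟨hi, hL⟩ := pf_left lam S a
  have hR := pf_right hs0 S a
  have hLR : (∫ ξ : ℝ, boxKer (Real.log lam) ξ * ‖∑ n ∈ S, a n * ph ξ n‖ ^ 2) =
      2 * c0 * ∫ y : ℝ, ‖∑ n ∈ S, a n *
        (Set.Ico (Real.log n - Real.log lam) (Real.log n)).indicator (fun _ => (1 : ℂ)) y‖ ^ 2 := by
    apply Complex.ofReal_injective
    rw [hR, Complex.ofReal_mul, hL, Finset.mul_sum]
    refine Finset.sum_congr rfl fun m _ => ?_
    rw [Finset.mul_sum]
    refine Finset.sum_congr rfl fun n _ => ?_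
    push_cast
    ring
  have h2 : (∫ y in y1..y2, ‖∑ n ∈ S, a n *
      (Set.Ico (Real.log n - Real.log lam) (Real.log n)).indicator (fun _ => (1 : ℂ)) y‖ ^ 2) ≤
      ∫ y : ℝ, ‖∑ n ∈ S, a n *
        (Set.Ico (Real.log n - Real.log lam) (Real.log n)).indicator (fun _ => (1 : ℂ)) y‖ ^ 2 := by
    rw [intervalIntegral.integral_of_le hy]
    exact setIntegral_le_integral hi (Filter.Eventually.of_forall fun y => by positivity)
  have h3 : (∫ ξ : ℝ, boxKer (Real.log lam) ξ * ‖∑ n ∈ S, a n * ph ξ n‖ ^ 2) ≤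
      ∫ ξ : ℝ, 5 * (‖∑ n ∈ S, a n * ph ξ n‖ ^ 2 / (1 + ξ ^ 2)) := by
    refine integral_mono_of_nonneg (Filter.Eventually.of_forall fun ξ =>
      mul_nonneg (boxKer_nonneg _ _) (by positivity)) ((pf_bd S a).const_mul 5)
      (Filter.Eventually.of_forall fun ξ => ?_)
    have h4 := mul_le_mul_of_nonneg_right (boxKer_le hs0 hs1 ξ)
      (sq_nonneg ‖∑ n ∈ S, a n * ph ξ n‖)
    refine h4.trans (le_of_eq ?_)
    ring
  rw [integral_const_mul, hLR] at h3
  refine h2.trans ?_
  rw [div_mul_eq_mul_div, le_div_iff₀ (by positivity)]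
  linarith

end Pool.Agent.MOM
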