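import Pool.Agent.MOM.Hal.Base

/-!
MOM, HAL part 9a: the Turán-Kubilius inequality, uniform version.

PROOF. For real `A ≥ 1`: `|∑_{A < k ≤ lam A} 1/k - log lam| ≤ 2/A`: upper bound
`∑_{k=⌊A⌋+1}^{⌊lam A⌋} 1/k ≤ log ⌊lam A⌋ - log ⌊A⌋ ≤ log lam + log (A/⌊A⌋)` and `A/⌊A⌋ ≤ 1 + 1/⌊A⌋`,
`1/⌊A⌋ ≤ 2/A`; lower bound `∑ ≥ log (⌊lam A⌋+1) - log (⌊A⌋+1) ≥ log lam + log (A/(A+1)) ≥
log lam - 1/A`. For a natural number `1 ≤ d ≤ X`: `n = d k` runs over the multiples of `d` in `(X,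
lam X]` when
`k` runs over `(X/d, lam X/d]`, so `S(d) := ∑_{n ∈ win X (lam X), d ∣ n} 1/n = (log lam)/d + E_d`,
`|E_d| ≤ (1/d)·2d/X = 2/X` (model: `filter_dvd_Ioc`, `sum_inv_multiples` in MOM/NT/TK.lean).
Expanding (model: the rest of MOM/NT/TK.lean), with `q = qs W`, `N = #W`, `s = log lam ≤ 1`:
`∑ (1/n)(ω_W(n) - q)² = ∑_{p,r ∈ W} S([p,r]) - 2q ∑_p S(p) + q² S(1)`
`= s (∑_{p≠r} 1/(pr) + q - 2q² + q²) + E ≤ s q + E ≤ q + E`, where all `[p,r] ≤ pr ≤ X` and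
`|E| ≤ (2/X)(N² + 2qN + q²) ≤ 8N²/X ≤ 8` (`q ≤ N`).
`tk_first` follows by Cauchy-Schwarz: `∑ (1/n)|ω_W(n) - q| ≤ (∑ 1/n)^{1/2} (q+16)^{1/2} ≤
√(2(q+16))`
(`sum_win_le`).
-/

set_option autoImplicit false

namespace Pool.Agent.MOM

open Finset

private theorem tku_upper {a b : ℕ} (ha : 0 < a) (h : a ≤ b) :
    ∑ k ∈ Ioc a b, 1 / (k : ℝ) ≤ Real.log b - Real.log a := by
  induction b, h using Nat.le_induction with
  | base => simp
  | succ n hn ih =>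
    rw [← Finset.insert_Ioc_right_eq_Ioc_add_one hn, Finset.sum_insert (by simp)]
    have hn0 : (0 : ℝ) < n := by exact_mod_cast lt_of_lt_of_le ha hn
    have hx : (0 : ℝ) < ((n : ℝ) + 1) / n := by positivity
    have h1 := Real.one_sub_inv_le_log_of_pos hx
    rw [Real.log_div (by positivity) hn0.ne'] at h1
    have h2 : 1 - (((n : ℝ) + 1) / n)⁻¹ = 1 / ((n : ℝ) + 1) := by
      field_simp
      ring
    rw [h2] at h1
    push_cast
    linarith

private theorem tku_lower {a b : ℕ} (h : a ≤ b) :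
    Real.log ((b : ℝ) + 1) - Real.log ((a : ℝ) + 1) ≤ ∑ k ∈ Ioc a b, 1 / (k : ℝ) := by
  induction b, h using Nat.le_induction with
  | base => simp
  | succ n hn ih =>
    rw [← Finset.insert_Ioc_right_eq_Ioc_add_one hn, Finset.sum_insert (by simp)]
    have hn0 : (0 : ℝ) < (n : ℝ) + 1 := by positivity
    have hx : (0 : ℝ) < ((n : ℝ) + 1 + 1) / ((n : ℝ) + 1) := by positivity
    have h1 := Real.log_le_sub_one_of_pos hx
    rw [Real.log_div (by positivity) hn0.ne'] at h1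
    have h2 : ((n : ℝ) + 1 + 1) / ((n : ℝ) + 1) - 1 = 1 / ((n : ℝ) + 1) := by
      field_simp
      ring
    rw [h2] at h1
    push_cast
    linarith

private theorem tku_win {lam A : ℝ} (hl : 1 < lam) (hA : 1 ≤ A) :
    |∑ k ∈ Ioc ⌊A⌋₊ ⌊lam * A⌋₊, 1 / (k : ℝ) - Real.log lam| ≤ 2 / A := by
  have hA0 : 0 < A := by linarith
  have ha : 0 < ⌊A⌋₊ := Nat.floor_pos.2 hA
  have hle : A ≤ lam * A := by nlinarith
  have hab : ⌊A⌋₊ ≤ ⌊lam * A⌋₊ := Nat.floor_le_floor hle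
  have haR : (1 : ℝ) ≤ ⌊A⌋₊ := by exact_mod_cast ha
  have haR0 : (0 : ℝ) < ⌊A⌋₊ := by linarith
  have hfA : A < ⌊A⌋₊ + 1 := Nat.lt_floor_add_one A
  have hfA' : (⌊A⌋₊ : ℝ) ≤ A := Nat.floor_le hA0.le
  have hfB : lam * A < ⌊lam * A⌋₊ + 1 := Nat.lt_floor_add_one (lam * A)
  have hfB' : (⌊lam * A⌋₊ : ℝ) ≤ lam * A := Nat.floor_le (by positivity)
  have hbR0 : (0 : ℝ) < ⌊lam * A⌋₊ := by
    have : (⌊A⌋₊ : ℝ) ≤ ⌊lam * A⌋₊ := by exact_mod_cast hab
    linarith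
  have hU := tku_upper ha hab
  have hL := tku_lower hab
  have hlogmul : Real.log (lam * A) = Real.log lam + Real.log A :=
    Real.log_mul (by linarith) hA0.ne'
  rw [abs_le]
  constructor
  · have h1 : Real.log (lam * A) ≤ Real.log ((⌊lam * A⌋₊ : ℝ) + 1) :=
      Real.log_le_log (by positivity) hfB.le
    have h2 : Real.log ((⌊A⌋₊ : ℝ) + 1) ≤ Real.log (A + 1) :=
      Real.log_le_log (by positivity) (by linarith)
    have h3 : Real.log ((A + 1) / A) ≤ (A + 1) / A - 1 :=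
      Real.log_le_sub_one_of_pos (by positivity)
    rw [Real.log_div (by positivity) hA0.ne'] at h3
    have h4 : (A + 1) / A - 1 = 1 / A := by
      field_simp
      ring
    have h5 : 2 / A = 1 / A + 1 / A := by ring
    have h6 : 0 < 1 / A := by positivity
    rw [h4] at h3
    linarith
  · have h1 : Real.log (⌊lam * A⌋₊ : ℝ) ≤ Real.log (lam * A) :=
      Real.log_le_log hbR0 hfB'
    have h3 : Real.log (A / ⌊A⌋₊) ≤ A / ⌊A⌋₊ - 1 :=
      Real.log_le_sub_one_of_pos (by positivity)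
    rw [Real.log_div hA0.ne' haR0.ne'] at h3
    have h4 : A / ⌊A⌋₊ - 1 ≤ 2 / A := by
      rw [div_sub_one haR0.ne', div_le_div_iff₀ haR0 hA0]
      nlinarith
    linarith

private theorem tku_filter {a b d : ℕ} (hd : 0 < d) :
    (Ioc a b).filter (d ∣ ·) = (Ioc (a / d) (b / d)).image (d * ·) := by
  ext n
  simp only [mem_filter, mem_Ioc, mem_image]
  constructor
  · rintro ⟨⟨h1, h2⟩, k, rfl⟩
    refine ⟨k, ⟨?_, ?_⟩, rfl⟩
    · rwa [Nat.div_lt_iff_lt_mul hd, mul_comm]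
    · rwa [Nat.le_div_iff_mul_le hd, mul_comm]
  · rintro ⟨k, ⟨h1, h2⟩, rfl⟩
    refine ⟨⟨?_, ?_⟩, dvd_mul_right d k⟩
    · rwa [Nat.div_lt_iff_lt_mul hd, mul_comm] at h1
    · rwa [Nat.le_div_iff_mul_le hd, mul_comm] at h2

private theorem tku_mult {lam X : ℝ} (hl : 1 < lam) {d : ℕ} (hd : 0 < d) (hdX : (d : ℝ) ≤ X) :
    |∑ n ∈ (win X (lam * X)).filter (d ∣ ·), 1 / (n : ℝ) - Real.log lam / d| ≤ 2 / X := by
  have hdR : (0 : ℝ) < d := by exact_mod_cast hd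
  have hX : 0 < X := by linarith
  have hA : 1 ≤ X / d := by rwa [one_le_div hdR]
  have hinj : Set.InjOn (d * ·) (Ioc (⌊X⌋₊ / d) (⌊lam * X⌋₊ / d) : Set ℕ) :=
    fun x _ y _ hxy => Nat.eq_of_mul_eq_mul_left hd hxy
  have h4 : ∑ n ∈ (win X (lam * X)).filter (d ∣ ·), 1 / (n : ℝ) =
      1 / (d : ℝ) * ∑ k ∈ Ioc ⌊X / d⌋₊ ⌊lam * (X / d)⌋₊, 1 / (k : ℝ) := by
    rw [← mul_div_assoc, Nat.floor_div_natCast, Nat.floor_div_natCast]
    unfold win
    rw [tku_filter hd, Finset.sum_image hinj, Finset.mul_sum]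
    refine Finset.sum_congr rfl fun k _ => ?_
    push_cast
    rw [one_div, mul_inv, one_div, one_div]
  have h5 := tku_win hl hA
  have h6 : 1 / (d : ℝ) * ∑ k ∈ Ioc ⌊X / d⌋₊ ⌊lam * (X / d)⌋₊, 1 / (k : ℝ) - Real.log lam / d =
      1 / (d : ℝ) * (∑ k ∈ Ioc ⌊X / d⌋₊ ⌊lam * (X / d)⌋₊, 1 / (k : ℝ) - Real.log lam) := by ring
  rw [h4, h6, abs_mul, abs_of_pos (by positivity : (0 : ℝ) < 1 / (d : ℝ))]
  calc 1 / (d : ℝ) * |∑ k ∈ Ioc ⌊X / d⌋₊ ⌊lam * (X / d)⌋₊, 1 / (k : ℝ) - Real.log lam|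
      ≤ 1 / (d : ℝ) * (2 / (X / d)) := mul_le_mul_of_nonneg_left h5 (by positivity)
    _ = 2 / X := by field_simp

theorem tk_unif {lam : ℝ} (hl : 1 < lam) (hl2 : lam ≤ 2) (W : Finset ℕ)
    (hW : ∀ p ∈ W, p.Prime) {X : ℝ} (hX : 1 ≤ X) (hcard : (W.card : ℝ) ^ 2 ≤ X)
    (hsq : ∀ p ∈ W, (p : ℝ) ^ 2 ≤ X) :
    ∑ n ∈ win X (lam * X), 1 / (n : ℝ) * ((om W n : ℝ) - qs W) ^ 2 ≤ qs W + 16 := by
  have hlog0 : 0 < Real.log lam := Real.log_pos hl
  have hlog1 : Real.log lam ≤ 1 := by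
    have h1 : Real.log lam ≤ lam - 1 := Real.log_le_sub_one_of_pos (by linarith)
    linarith
  have hX0 : 0 < X := by linarith
  set q : ℝ := qs W with hq
  set N : ℝ := (W.card : ℝ) with hN
  have hN0 : 0 ≤ N := Nat.cast_nonneg _
  have hq0 : 0 ≤ q := qs_nonneg W
  have hqN : q ≤ N := by
    rw [hq, hN]
    unfold qs
    have h1 : ∀ p ∈ W, 1 / (p : ℝ) ≤ 1 := by
      intro p hp
      have h2 : (1 : ℝ) ≤ p := by exact_mod_cast (hW p hp).one_lt.le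
      rw [div_le_one (by linarith)]
      exact h2
    refine (Finset.sum_le_sum h1).trans ?_
    simp
  -- the sum over multiples
  set F : ℕ → ℝ := fun d => ∑ n ∈ (win X (lam * X)).filter (d ∣ ·), 1 / (n : ℝ) with hF
  have hFe : ∀ d : ℕ, 0 < d → (d : ℝ) ≤ X → |F d - Real.log lam / d| ≤ 2 / X :=
    fun d hd hdX => tku_mult hl hd hdX
  have hexp : ∑ n ∈ win X (lam * X), 1 / (n : ℝ) * ((om W n : ℝ) - q) ^ 2 =
      (∑ p ∈ W, ∑ r ∈ W, F (Nat.lcm p r)) - 2 * q * (∑ p ∈ W, F p) + q ^ 2 * F 1 := by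
    have hom : ∀ n : ℕ, (om W n : ℝ) = ∑ p ∈ W, if p ∣ n then (1 : ℝ) else 0 := by
      intro n
      unfold om
      rw [Finset.card_filter]
      push_cast
      rfl
    have hFi : ∀ d : ℕ, F d = ∑ n ∈ win X (lam * X), 1 / (n : ℝ) * if d ∣ n then 1 else 0 := by
      intro d
      simp only [hF]
      rw [Finset.sum_filter]
      refine Finset.sum_congr rfl fun n _ => ?_
      split_ifs <;> simp
    have hsq' : ∀ n : ℕ, (om W n : ℝ) ^ 2 =
        ∑ p ∈ W, ∑ r ∈ W, if Nat.lcm p r ∣ n then (1 : ℝ) else 0 := by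
      intro n
      rw [sq, hom, Finset.sum_mul_sum]
      refine Finset.sum_congr rfl fun p _ => Finset.sum_congr rfl fun r _ => ?_
      by_cases h1 : p ∣ n
      · by_cases h2 : r ∣ n
        · have h3 : Nat.lcm p r ∣ n := Nat.lcm_dvd h1 h2
          simp [h1, h2, h3]
        · have h3 : ¬ Nat.lcm p r ∣ n := fun h => h2 ((Nat.dvd_lcm_right p r).trans h)
          simp [h2, h3]
      · have h3 : ¬ Nat.lcm p r ∣ n := fun h => h1 ((Nat.dvd_lcm_left p r).trans h)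
        simp [h1, h3]
    have e1 : ∑ p ∈ W, ∑ r ∈ W, F (Nat.lcm p r) =
        ∑ n ∈ win X (lam * X), 1 / (n : ℝ) * (om W n : ℝ) ^ 2 := by
      simp_rw [hFi, hsq', Finset.mul_sum]
      exact (Finset.sum_congr rfl fun p _ => Finset.sum_comm).trans Finset.sum_comm
    have e2 : ∑ p ∈ W, F p = ∑ n ∈ win X (lam * X), 1 / (n : ℝ) * (om W n : ℝ) := by
      simp_rw [hFi, hom, Finset.mul_sum]
      exact Finset.sum_comm
    have e3 : F 1 = ∑ n ∈ win X (lam * X), 1 / (n : ℝ) := by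
      simp [hF]
    rw [e1, e2, e3, Finset.mul_sum, Finset.mul_sum, ← Finset.sum_sub_distrib,
      ← Finset.sum_add_distrib]
    refine Finset.sum_congr rfl fun n _ => ?_
    ring
  -- the three error estimates
  have hp1 : ∀ p ∈ W, (p : ℝ) ≤ X := by
    intro p hp
    have h1 : (1 : ℝ) ≤ p := by exact_mod_cast (hW p hp).one_lt.le
    nlinarith [hsq p hp]
  have hpr : ∀ p ∈ W, ∀ r ∈ W, ((Nat.lcm p r : ℕ) : ℝ) ≤ X := by
    intro p hp r hr
    have h1 : Nat.lcm p r ≤ p * r :=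
      Nat.le_of_dvd (Nat.mul_pos (hW p hp).pos (hW r hr).pos) (Nat.lcm_dvd_mul p r)
    have h2 : ((Nat.lcm p r : ℕ) : ℝ) ≤ (p : ℝ) * r := by exact_mod_cast h1
    nlinarith [hsq p hp, hsq r hr, sq_nonneg ((p : ℝ) - r)]
  have hb1 : ∑ p ∈ W, ∑ r ∈ W, F (Nat.lcm p r) ≤
      Real.log lam * (q ^ 2 + q) + N ^ 2 * (2 / X) := by
    have h3 : ∀ p ∈ W, ∑ r ∈ W, F (Nat.lcm p r) ≤
        Real.log lam * (1 / (p : ℝ) * q + 1 / (p : ℝ)) + N * (2 / X) := by
      intro p hp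
      have h4 : ∀ r ∈ W, F (Nat.lcm p r) ≤
          Real.log lam * (1 / (p : ℝ) * (1 / (r : ℝ)) + if r = p then 1 / (p : ℝ) else 0) +
            2 / X := by
        intro r hr
        have hp0 : (0 : ℝ) < p := by exact_mod_cast (hW p hp).pos
        have hr0 : (0 : ℝ) < r := by exact_mod_cast (hW r hr).pos
        have h5 := (abs_le.1 (hFe _ (Nat.lcm_pos (hW p hp).pos (hW r hr).pos)
          (hpr p hp r hr))).2
        have h6 : Real.log lam / ((Nat.lcm p r : ℕ) : ℝ) ≤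
            Real.log lam * (1 / (p : ℝ) * (1 / (r : ℝ)) + if r = p then 1 / (p : ℝ) else 0) := by
          by_cases hrp : r = p
          · subst hrp
            rw [Nat.lcm_self, if_pos rfl, div_eq_mul_one_div]
            refine mul_le_mul_of_nonneg_left ?_ hlog0.le
            have : 0 ≤ 1 / (r : ℝ) * (1 / (r : ℝ)) := by positivity
            linarith
          · rw [if_neg hrp, Nat.Coprime.lcm_eq_mul
              ((Nat.coprime_primes (hW p hp) (hW r hr)).2 (Ne.symm hrp))]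
            push_cast
            rw [add_zero, div_eq_mul_one_div]
            refine mul_le_mul_of_nonneg_left ?_ hlog0.le
            rw [one_div, one_div, one_div, mul_inv]
        linarith
      refine (Finset.sum_le_sum h4).trans (le_of_eq ?_)
      rw [Finset.sum_add_distrib, ← Finset.mul_sum, Finset.sum_add_distrib, ← Finset.mul_sum,
        Finset.sum_ite_eq' W p, if_pos hp, hq, Finset.sum_const, nsmul_eq_mul]
      rfl
    refine (Finset.sum_le_sum h3).trans (le_of_eq ?_)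
    rw [Finset.sum_add_distrib, ← Finset.mul_sum, Finset.sum_add_distrib, ← Finset.sum_mul,
      Finset.sum_const, nsmul_eq_mul]
    have h5 : ∑ p ∈ W, 1 / (p : ℝ) = q := rfl
    rw [h5]
    ring
  have hb2 : Real.log lam * q - N * (2 / X) ≤ ∑ p ∈ W, F p := by
    have h4 : ∀ p ∈ W, Real.log lam * (1 / (p : ℝ)) - 2 / X ≤ F p := by
      intro p hp
      have h5 := (abs_le.1 (hFe p (hW p hp).pos (hp1 p hp))).1
      have h6 : Real.log lam / (p : ℝ) = Real.log lam * (1 / (p : ℝ)) := by ring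
      rw [h6] at h5
      linarith
    refine le_trans (le_of_eq ?_) (Finset.sum_le_sum h4)
    rw [Finset.sum_sub_distrib, ← Finset.mul_sum, Finset.sum_const, nsmul_eq_mul]
    rfl
  have hb3 : F 1 ≤ Real.log lam + 2 / X := by
    have h5 := (abs_le.1 (hFe 1 one_pos (by push_cast; exact hX))).2
    push_cast at h5
    rw [div_one] at h5
    linarith
  rw [hexp]
  have hq2 : 0 ≤ q ^ 2 := sq_nonneg q
  have hNX : N ^ 2 * (2 / X) ≤ 2 := by
    rw [← mul_div_assoc, div_le_iff₀ hX0]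
    linarith
  have hX2 : 0 < 2 / X := by positivity
  have hqNN : q * N ≤ N ^ 2 := by nlinarith
  have hqq : q ^ 2 ≤ N ^ 2 := by nlinarith
  have e1 : 2 * q * (Real.log lam * q - N * (2 / X)) ≤ 2 * q * ∑ p ∈ W, F p :=
    mul_le_mul_of_nonneg_left hb2 (by positivity)
  have e2 : q ^ 2 * F 1 ≤ q ^ 2 * (Real.log lam + 2 / X) :=
    mul_le_mul_of_nonneg_left hb3 hq2
  have e3 : q * N * (2 / X) ≤ 2 :=
    (mul_le_mul_of_nonneg_right hqNN hX2.le).trans hNX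
  have e4 : q ^ 2 * (2 / X) ≤ 2 :=
    (mul_le_mul_of_nonneg_right hqq hX2.le).trans hNX
  have e5 : Real.log lam * q ≤ q := by nlinarith
  have e6 : Real.log lam * (q ^ 2 + q) + N ^ 2 * (2 / X) -
      2 * q * (Real.log lam * q - N * (2 / X)) + q ^ 2 * (Real.log lam + 2 / X) =
      Real.log lam * q + N ^ 2 * (2 / X) + 2 * (q * N * (2 / X)) + q ^ 2 * (2 / X) := by ring
  linarith

theorem tk_first {lam : ℝ} (hl : 1 < lam) (hl2 : lam ≤ 2) (W : Finset ℕ)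
    (hW : ∀ p ∈ W, p.Prime) {X : ℝ} (hX : 1 ≤ X) (hcard : (W.card : ℝ) ^ 2 ≤ X)
    (hsq : ∀ p ∈ W, (p : ℝ) ^ 2 ≤ X) :
    ∑ n ∈ win X (lam * X), 1 / (n : ℝ) * |(om W n : ℝ) - qs W| ≤
      Real.sqrt (2 * (qs W + 16)) := by
  have h1 := tk_unif hl hl2 W hW hX hcard hsq
  have h2 := sum_win_le hl hl2 hX
  refine Real.le_sqrt_of_sq_le ?_
  have h3 := Finset.sum_mul_sq_le_sq_mul_sq (win X (lam * X))
    (fun n => Real.sqrt (1 / (n : ℝ)))
    (fun n => Real.sqrt (1 / (n : ℝ)) * |(om W n : ℝ) - qs W|)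
  have e0 : ∀ n : ℕ, Real.sqrt (1 / (n : ℝ)) * Real.sqrt (1 / (n : ℝ)) = 1 / (n : ℝ) :=
    fun n => Real.mul_self_sqrt (by positivity)
  have e1 : ∑ n ∈ win X (lam * X), Real.sqrt (1 / (n : ℝ)) *
      (Real.sqrt (1 / (n : ℝ)) * |(om W n : ℝ) - qs W|) =
      ∑ n ∈ win X (lam * X), 1 / (n : ℝ) * |(om W n : ℝ) - qs W| := by
    refine Finset.sum_congr rfl fun n _ => ?_
    rw [← mul_assoc, e0]
  have e2 : ∑ n ∈ win X (lam * X), Real.sqrt (1 / (n : ℝ)) ^ 2 =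
      ∑ n ∈ win X (lam * X), 1 / (n : ℝ) := by
    refine Finset.sum_congr rfl fun n _ => ?_
    rw [sq, e0]
  have e3 : ∑ n ∈ win X (lam * X), (Real.sqrt (1 / (n : ℝ)) * |(om W n : ℝ) - qs W|) ^ 2 =
      ∑ n ∈ win X (lam * X), 1 / (n : ℝ) * ((om W n : ℝ) - qs W) ^ 2 := by
    refine Finset.sum_congr rfl fun n _ => ?_
    rw [mul_pow, sq (Real.sqrt _), e0, sq_abs]
  rw [e1, e2, e3] at h3
  refine h3.trans ?_
  refine mul_le_mul h2 h1 ?_ (by norm_num)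
  exact Finset.sum_nonneg fun n _ => by positivity

end Pool.Agent.MOM
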