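import Pool.Agent.MOM.Hal.Base
import Pool.Agent.MOM.NT.Mertens

/-!
MOM, HAL part 9c: the primes used in the averaging, Lipschitz continuity of the window sums.

The set `WH H e1 Y` consists of the primes in the cells `v`, `v0 ≤ v < v1`, `v0 = ⌈H e1² Y⌉₊`,
`v1 = ⌊H e1 Y⌋₊`.

PROOF of `DD_lip`. `DD(y) - DD(y')` is a sum of terms of absolute value `≤ 1/n` over the integers
in exactly one of the windows, which lie in `(e^{y'}, e^y]` or in `(lam e^{y'}, lam e^y]`. Their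
number is at most `M (e^h - 1) + 1` with `h = y - y' ≤ 1` and `M = e^{y'}`, `lam e^{y'}`, and `1/n ≤
1/M`: each part contributes at most `(e^h - 1) + 1/M ≤ 2h + e^{-y'}` (`e^h - 1 ≤ 2h` on `[0,1]`).
PROOF of `WW_qs`. `mertens_qs` with `y = e^{v0/H}`, `z = e^{v1/H}`: `qs (prs y z) ≥ log(v1/v0) -
C H/v0`, and `v1/v0 ≥ (H e1 Y - 1)/(H e1² Y + 1) → 1/e1` as `Y → ∞`.
PROOF of `WW_card`: `WH ⊂ prs 1 (e^{e1 Y})`, all elements are natural numbers in `[1, e^{e1 Y})`.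
-/

set_option autoImplicit false

namespace Pool.Agent.MOM

open Finset

/-- The primes in the cells between `e^{e1² Y}` and `e^{e1 Y}` at resolution `H`. -/
noncomputable def WH (H : ℕ) (e1 Y : ℝ) : Finset ℕ :=
  prs (Real.exp ((⌈(H : ℝ) * (e1 ^ 2 * Y)⌉₊ : ℝ) / H)) (Real.exp ((⌊(H : ℝ) * (e1 * Y)⌋₊ : ℝ) / H))

private theorem WWl.part {F : ℕ → ℂ} (hF : ∀ n : ℕ, ‖F n‖ ≤ 1 / (n : ℝ)) {a b : ℝ} (ha : 0 < a)
    (hab : a ≤ b) : ‖∑ n ∈ Ioc ⌊a⌋₊ ⌊b⌋₊, F n‖ ≤ (b - a) / a + 1 / a := by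
  have h1 : ∀ n ∈ Ioc ⌊a⌋₊ ⌊b⌋₊, ‖F n‖ ≤ 1 / a := by
    intro n hn
    rw [mem_Ioc, Nat.floor_lt ha.le] at hn
    exact (hF n).trans (one_div_le_one_div_of_le ha hn.1.le)
  refine (norm_sum_le _ _).trans ((Finset.sum_le_card_nsmul _ _ _ h1).trans ?_)
  rw [nsmul_eq_mul, Nat.card_Ioc]
  have h3 : (⌊b⌋₊ : ℝ) ≤ b := Nat.floor_le (by linarith)
  have h4 : a < ⌊a⌋₊ + 1 := Nat.lt_floor_add_one a
  have h5 : ⌊a⌋₊ ≤ ⌊b⌋₊ := Nat.floor_le_floor hab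
  rw [Nat.cast_sub h5]
  have h6 : ((⌊b⌋₊ : ℝ) - ⌊a⌋₊) * (1 / a) ≤ (b - a + 1) * (1 / a) :=
    mul_le_mul_of_nonneg_right (by linarith) (by positivity)
  refine h6.trans (le_of_eq ?_)
  field_simp

theorem DD_lip {lam : ℝ} (hl : 1 < lam) (hl2 : lam ≤ 2) {f : ℕ → ℂ} (hf : ∀ n, ‖f n‖ ≤ 1)
    (t : ℝ) {y' y : ℝ} (h1 : y' ≤ y) (h2 : y ≤ y' + 1) :
    ‖DD lam f t y - DD lam f t y'‖ ≤ 4 * (y - y') + 2 * Real.exp (-y') := by
  set F : ℕ → ℂ := fun n => f n / (n : ℂ) * ph t n with hFd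
  have hF : ∀ n : ℕ, ‖F n‖ ≤ 1 / (n : ℝ) := by
    intro n
    rw [hFd]
    simp only [norm_mul, norm_ph, mul_one, norm_div, Complex.norm_natCast]
    exact div_le_div_of_nonneg_right (hf n) (Nat.cast_nonneg n)
  have e0 : 0 < Real.exp y' := Real.exp_pos _
  have e1 : Real.exp y' ≤ Real.exp y := Real.exp_le_exp.2 h1
  have hA : ⌊Real.exp y'⌋₊ ≤ ⌊Real.exp y⌋₊ := Nat.floor_le_floor e1
  have hB : ⌊lam * Real.exp y'⌋₊ ≤ ⌊lam * Real.exp y⌋₊ :=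
    Nat.floor_le_floor (mul_le_mul_of_nonneg_left e1 (by linarith))
  have hAB : ⌊Real.exp y⌋₊ ≤ ⌊lam * Real.exp y⌋₊ :=
    Nat.floor_le_floor (le_mul_of_one_le_left (Real.exp_pos _).le hl.le)
  have hAB' : ⌊Real.exp y'⌋₊ ≤ ⌊lam * Real.exp y'⌋₊ :=
    Nat.floor_le_floor (le_mul_of_one_le_left e0.le hl.le)
  have h3 : DD lam f t y - DD lam f t y' =
      ∑ n ∈ Ioc ⌊lam * Real.exp y'⌋₊ ⌊lam * Real.exp y⌋₊, F n -
        ∑ n ∈ Ioc ⌊Real.exp y'⌋₊ ⌊Real.exp y⌋₊, F n := by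
    rw [DD_eq, DD_eq]
    unfold win
    have s1 := Finset.sum_Ioc_consecutive F hA hAB
    have s2 := Finset.sum_Ioc_consecutive F hAB' hB
    rw [← s1] at s2
    linear_combination -s2
  have h4 : ‖∑ n ∈ Ioc ⌊Real.exp y'⌋₊ ⌊Real.exp y⌋₊, F n‖ ≤
      (Real.exp y - Real.exp y') / Real.exp y' + 1 / Real.exp y' := WWl.part hF e0 e1
  have h5 : ‖∑ n ∈ Ioc ⌊lam * Real.exp y'⌋₊ ⌊lam * Real.exp y⌋₊, F n‖ ≤
      (lam * Real.exp y - lam * Real.exp y') / (lam * Real.exp y') + 1 / (lam * Real.exp y') :=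
    WWl.part hF (by positivity) (mul_le_mul_of_nonneg_left e1 (by linarith))
  have h6 : (Real.exp y - Real.exp y') / Real.exp y' = Real.exp (y - y') - 1 := by
    rw [Real.exp_sub]
    field_simp
  have h7 : (lam * Real.exp y - lam * Real.exp y') / (lam * Real.exp y') =
      Real.exp (y - y') - 1 := by
    rw [← h6]
    field_simp
  have h8 : 1 / Real.exp y' = Real.exp (-y') := by
    rw [Real.exp_neg, one_div]
  have h9 : 1 / (lam * Real.exp y') ≤ Real.exp (-y') := by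
    rw [← h8]
    exact one_div_le_one_div_of_le e0 (le_mul_of_one_le_left e0.le hl.le)
  have h10 : Real.exp (y - y') - 1 ≤ 2 * (y - y') := by
    have h11 := Real.abs_exp_sub_one_le (x := y - y') (by
      rw [abs_of_nonneg (by linarith)]
      linarith)
    rw [abs_of_nonneg (by linarith : (0 : ℝ) ≤ y - y')] at h11
    exact (le_abs_self _).trans h11
  rw [h3]
  refine (norm_sub_le _ _).trans ?_
  rw [h6, h8] at h4
  rw [h7] at h5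
  linarith

theorem WW_prime {H : ℕ} {e1 Y : ℝ} {p : ℕ} (hp : p ∈ WH H e1 Y) : p.Prime := by
  exact (mem_prs.1 hp).2

theorem WW_lt {H : ℕ} (hH : 1 ≤ H) {e1 Y : ℝ} (he : 0 < e1) (hY : 0 < Y) {p : ℕ}
    (hp : p ∈ WH H e1 Y) : (p : ℝ) < Real.exp (e1 * Y) := by
  have hH0 : (0 : ℝ) < H := by exact_mod_cast (by omega : 0 < H)
  refine lt_of_lt_of_le (mem_prs.1 hp).1.2 (Real.exp_le_exp.2 ?_)
  rw [div_le_iff₀ hH0]
  have h1 : (⌊(H : ℝ) * (e1 * Y)⌋₊ : ℝ) ≤ (H : ℝ) * (e1 * Y) := Nat.floor_le (by positivity)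
  linarith

theorem WW_card {H : ℕ} (hH : 1 ≤ H) {e1 Y : ℝ} (he : 0 < e1) (hY : 0 < Y) :
    ((WH H e1 Y).card : ℝ) ≤ Real.exp (e1 * Y) := by
  have h1 : WH H e1 Y ⊆ Finset.Ico 1 ⌈Real.exp (e1 * Y)⌉₊ := by
    intro p hp
    rw [Finset.mem_Ico, Nat.lt_ceil]
    exact ⟨(WW_prime hp).one_lt.le, WW_lt hH he hY hp⟩
  have h2 := Finset.card_le_card h1
  rw [Nat.card_Ico] at h2
  have h3 : (⌈Real.exp (e1 * Y)⌉₊ : ℝ) < Real.exp (e1 * Y) + 1 :=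
    Nat.ceil_lt_add_one (Real.exp_pos _).le
  have h4 : 1 ≤ ⌈Real.exp (e1 * Y)⌉₊ := Nat.one_le_ceil_iff.2 (Real.exp_pos _)
  have h5 : ((WH H e1 Y).card : ℝ) ≤ ((⌈Real.exp (e1 * Y)⌉₊ - 1 : ℕ) : ℝ) := by
    exact_mod_cast h2
  rw [Nat.cast_sub h4, Nat.cast_one] at h5
  linarith

theorem WW_qs (H : ℕ) (hH : 1 ≤ H) {e1 : ℝ} (he : 0 < e1) (he1 : e1 ≤ 1 / 4) :
    ∃ Y0 : ℝ, 1 ≤ Y0 ∧ ∀ Y : ℝ, Y0 ≤ Y → Real.log (1 / e1) - 1 ≤ qs (WH H e1 Y) := by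
  obtain ⟨C, hC0, hC⟩ := mertens_qs
  have hY00 : 0 ≤ (4 + 2 * C) / e1 ^ 2 := by positivity
  refine ⟨(4 + 2 * C) / e1 ^ 2 + 1, by linarith, fun Y hY => ?_⟩
  have hHR : (1 : ℝ) ≤ H := by exact_mod_cast hH
  have hH0 : (0 : ℝ) < H := by linarith
  have hY0 : 0 < Y := by linarith
  have h1 : 4 + 2 * C ≤ e1 ^ 2 * Y := by
    have h2 : (4 + 2 * C) / e1 ^ 2 ≤ Y := by linarith
    rw [div_le_iff₀ (by positivity)] at h2
    linarith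
  have h1' : 4 + 2 * C ≤ (H : ℝ) * (e1 ^ 2 * Y) :=
    h1.trans (le_mul_of_one_le_left (by positivity) hHR)
  unfold WH
  set v0 : ℕ := ⌈(H : ℝ) * (e1 ^ 2 * Y)⌉₊ with hv0
  set v1 : ℕ := ⌊(H : ℝ) * (e1 * Y)⌋₊ with hv1
  have a1 : (H : ℝ) * (e1 ^ 2 * Y) ≤ v0 := Nat.le_ceil _
  have a2 : (v0 : ℝ) < (H : ℝ) * (e1 ^ 2 * Y) + 1 := Nat.ceil_lt_add_one (by positivity)
  have a3 : (H : ℝ) * (e1 * Y) < v1 + 1 := Nat.lt_floor_add_one _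
  have a4 : (0 : ℝ) < v0 := by linarith
  have a5 : 3 / 4 * (v0 : ℝ) ≤ e1 * v1 := by
    have b1 : e1 * ((H : ℝ) * (e1 * Y) - 1) ≤ e1 * v1 :=
      mul_le_mul_of_nonneg_left (by linarith) he.le
    have b2 : e1 * ((H : ℝ) * (e1 * Y) - 1) = (H : ℝ) * (e1 ^ 2 * Y) - e1 := by ring
    rw [b2] at b1
    linarith
  have a6 : (v0 : ℝ) ≤ v1 := by
    have b1 : e1 * (v1 : ℝ) ≤ 1 / 4 * v1 := mul_le_mul_of_nonneg_right he1 (Nat.cast_nonneg _)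
    linarith
  have a7 : 4 + 2 * C ≤ (v0 : ℝ) / H := by
    rw [le_div_iff₀ hH0]
    calc (4 + 2 * C) * (H : ℝ) ≤ e1 ^ 2 * Y * H := mul_le_mul_of_nonneg_right h1 hH0.le
      _ = (H : ℝ) * (e1 ^ 2 * Y) := by ring
      _ ≤ v0 := a1
  have hy2 : 2 ≤ Real.exp ((v0 : ℝ) / H) := by
    have := Real.add_one_le_exp ((v0 : ℝ) / H)
    linarith
  have hyz : Real.exp ((v0 : ℝ) / H) ≤ Real.exp ((v1 : ℝ) / H) :=
    Real.exp_le_exp.2 (div_le_div_of_nonneg_right a6 hH0.le)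
  have h2 := hC _ _ hy2 hyz
  rw [Real.log_exp, Real.log_exp] at h2
  have h3 : (v1 : ℝ) / H / ((v0 : ℝ) / H) = v1 / v0 := by
    field_simp
  rw [h3] at h2
  have h4 : Real.log (1 / e1) - 1 / 3 ≤ Real.log ((v1 : ℝ) / v0) := by
    have b1 : 3 / 4 * (1 / e1) ≤ (v1 : ℝ) / v0 := by
      rw [le_div_iff₀ a4, mul_assoc, mul_comm, mul_assoc, one_div, inv_mul_eq_div,
        div_le_iff₀ he]
      linarith
    have b2 := Real.log_le_log (by positivity) b1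
    rw [Real.log_mul (by norm_num) (by positivity)] at b2
    have b3 := Real.one_sub_inv_le_log_of_pos (show (0 : ℝ) < 3 / 4 by norm_num)
    norm_num at b3
    norm_num at b2
    norm_num
    linarith
  have h5 : C / ((v0 : ℝ) / H) ≤ 1 / 2 := by
    rw [div_le_iff₀ (by linarith)]
    linarith
  have h6 := (abs_le.1 h2).1
  linarith

end Pool.Agent.MOM
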