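import Pool.Agent.MOM.Hal.Base
import Pool.Agent.MOM.NT.Weyl

/-!
MOM, HAL part 5a: dyadic blocks of the zeta series (black box `weyl`).

PROOF. `weyl K` gives `c`, `C` with `‖∑_{n ∈ Ico a b'} ph τ n‖ ≤ C M^{1-c}` for all `b' ≤ b` (all
initial segments of `Ico a b`; replace `c` by `min c 1`, `M ≥ 1`). The weight
`w(n) = n^{-(1+σ)}` is
positive and decreasing for `n ≥ a ≥ M`, `w ≤ M^{-1}` (`σ ≥ 0`). Abel summation for a decreasing
weight: `‖∑_{Ico a b} w(n) x_n‖ ≤ w(a) max_{b'} ‖∑_{Ico a b'} x_n‖`: with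
`A(n) = ∑_{Ico a n} x`, `∑_{Ico a b} w(n)(A(n+1) - A(n)) = w(b) A(b) +
∑_{n ∈ Ico a b} (w(n) - w(n+1)) A(n+1)`,
and the coefficients are `≥ 0` with sum `w(a)`. So the block is
`≤ M^{-1} C M^{1-c} = C M^{-c}`. (If `b ≤ a` the sum is empty.)
-/

set_option autoImplicit false

namespace Pool.Agent.MOM

open Finset

private theorem ZBlock_identity (x : ℕ → ℂ) (w : ℕ → ℝ) (a b : ℕ) (hab : a ≤ b) :
    ∑ n ∈ Ico a b, (w n : ℂ) * x n = (w b : ℂ) * ∑ n ∈ Ico a b, x n +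
      ∑ n ∈ Ico a b, ((w n - w (n + 1) : ℝ) : ℂ) * ∑ k ∈ Ico a (n + 1), x k := by
  induction b, hab using Nat.le_induction with
  | base => simp
  | succ b hb ih =>
    rw [Finset.sum_Ico_succ_top hb, Finset.sum_Ico_succ_top hb, Finset.sum_Ico_succ_top hb, ih,
      Finset.sum_Ico_succ_top hb]
    push_cast
    ring

private theorem ZBlock_tele (w : ℕ → ℝ) (a b : ℕ) (hab : a ≤ b) :
    ∑ n ∈ Ico a b, (w n - w (n + 1)) = w a - w b := by
  induction b, hab using Nat.le_induction with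
  | base => simp
  | succ b hb ih =>
    rw [Finset.sum_Ico_succ_top hb, ih]
    ring

/-- Abel summation with a nonnegative decreasing weight. -/
theorem abel_bound (x : ℕ → ℂ) (w : ℕ → ℝ) (a b : ℕ) (B : ℝ)
    (hw0 : ∀ n, a ≤ n → 0 ≤ w n) (hw : ∀ n, a ≤ n → w (n + 1) ≤ w n)
    (hB : ∀ b', a ≤ b' → b' ≤ b → ‖∑ n ∈ Ico a b', x n‖ ≤ B) (hab : a ≤ b) :
    ‖∑ n ∈ Ico a b, (w n : ℂ) * x n‖ ≤ w a * B := by
  rw [ZBlock_identity x w a b hab]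
  have h1 : ‖(w b : ℂ) * ∑ n ∈ Ico a b, x n‖ ≤ w b * B := by
    rw [norm_mul, Complex.norm_real, Real.norm_eq_abs, abs_of_nonneg (hw0 b hab)]
    exact mul_le_mul_of_nonneg_left (hB b hab le_rfl) (hw0 b hab)
  have h2 : ‖∑ n ∈ Ico a b, ((w n - w (n + 1) : ℝ) : ℂ) * ∑ k ∈ Ico a (n + 1), x k‖ ≤
      (w a - w b) * B := by
    rw [← ZBlock_tele w a b hab, Finset.sum_mul]
    refine norm_sum_le_of_le _ fun n hn => ?_
    rw [Finset.mem_Ico] at hn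
    have h3 : 0 ≤ w n - w (n + 1) := by
      have := hw n hn.1
      linarith
    rw [norm_mul, Complex.norm_real, Real.norm_eq_abs, abs_of_nonneg h3]
    exact mul_le_mul_of_nonneg_left (hB (n + 1) (by omega) (by omega)) h3
  calc _ ≤ ‖(w b : ℂ) * ∑ n ∈ Ico a b, x n‖ +
        ‖∑ n ∈ Ico a b, ((w n - w (n + 1) : ℝ) : ℂ) * ∑ k ∈ Ico a (n + 1), x k‖ :=
        norm_add_le _ _
    _ ≤ w b * B + (w a - w b) * B := add_le_add h1 h2
    _ = w a * B := by ring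

theorem zeta_block (K : ℝ) (hK : 1 ≤ K) : ∃ c : ℝ, 0 < c ∧ c ≤ 1 ∧ ∃ C : ℝ, 0 < C ∧
    ∀ M : ℝ, 1 ≤ M → ∀ τ : ℝ, M ^ (1 / 3 : ℝ) ≤ |τ| → |τ| ≤ M ^ K → ∀ σ : ℝ, 0 ≤ σ → σ ≤ 1 →
      ∀ a b : ℕ, M ≤ a → (b : ℝ) ≤ 2 * M → ‖∑ n ∈ Ico a b, dt σ τ n‖ ≤ C * M ^ (-c) := by
  obtain ⟨c0, hc0, C, hC, hW⟩ := weyl K hK
  refine ⟨min c0 1, lt_min hc0 one_pos, min_le_right _ _, C, hC, ?_⟩
  intro M hM τ hτ1 hτ2 σ hσ _ a b ha hb
  have hM0 : 0 < M := by linarith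
  have ha0 : (0 : ℝ) < a := lt_of_lt_of_le hM0 ha
  rcases le_or_gt b a with hab | hab
  · rw [Finset.Ico_eq_empty (by omega), Finset.sum_empty, norm_zero]
    positivity
  have hx : ∀ b', a ≤ b' → b' ≤ b → ‖∑ n ∈ Ico a b', ph τ n‖ ≤ C * M ^ (1 - min c0 1) := by
    intro b' _ hb'
    have h1 : (b' : ℝ) ≤ 2 * M := le_trans (by exact_mod_cast hb') hb
    refine le_trans (hW M hM τ hτ1 hτ2 a b' ha h1) ?_
    refine mul_le_mul_of_nonneg_left ?_ hC.le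
    refine Real.rpow_le_rpow_of_exponent_le hM ?_
    have := min_le_left c0 1
    linarith
  have hw := abel_bound (fun n => ph τ n) (fun n => (n : ℝ) ^ (-(1 + σ))) a b
    (C * M ^ (1 - min c0 1)) (fun n _ => Real.rpow_nonneg (Nat.cast_nonneg n) _) ?_ hx hab.le
  · have h2 : (a : ℝ) ^ (-(1 + σ)) ≤ M ^ (-1 : ℝ) := by
      calc (a : ℝ) ^ (-(1 + σ)) ≤ M ^ (-(1 + σ)) :=
            Real.rpow_le_rpow_of_nonpos hM0 ha (by linarith)
        _ ≤ M ^ (-1 : ℝ) := Real.rpow_le_rpow_of_exponent_le hM (by linarith)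
    unfold dt
    refine le_trans hw ?_
    calc (a : ℝ) ^ (-(1 + σ)) * (C * M ^ (1 - min c0 1))
        ≤ M ^ (-1 : ℝ) * (C * M ^ (1 - min c0 1)) :=
          mul_le_mul_of_nonneg_right h2 (by positivity)
      _ = C * (M ^ (-1 : ℝ) * M ^ (1 - min c0 1)) := by ring
      _ = C * M ^ (-(min c0 1)) := by
          rw [← Real.rpow_add hM0]
          congr 2
          ring
  · intro n hn
    have hn0 : (0 : ℝ) < n := lt_of_lt_of_le ha0 (by exact_mod_cast hn)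
    refine Real.rpow_le_rpow_of_nonpos hn0 ?_ (by linarith)
    push_cast
    linarith

end Pool.Agent.MOM
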