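import Pool.Agent.MOM.Hal.ZetaBlock

/-!
MOM (MP_2b7f8f_an), HAL H5: a bound for zeta near the 1-line, smaller than the trivial one by an
arbitrary constant factor.

PROOF. Let `δ = 1/Y`, `N0 = ⌊exp (Y/K)⌋₊` (`≥ 1`), `N1 = max N0 ⌊|t|^3⌋₊`. By `zeta_tail` for `N1`
(`≥ 1`): `‖ζ - ∑_{n ≤ N1}‖ ≤ 1/|t| + (3 + δ + |t|)/N1 ≤ 2 + 5 + 2 = 9` (if `|t| ≥ 2` then
`N1 ≥ |t|^3 - 1 ≥ |t|^3/2 ≥ |t|`, otherwise `N1 ≥ 1` and `3 + δ + |t| ≤ 6`; any absolute constant
will
do). The first part: `‖∑_{n ≤ N0} zt‖ ≤ ∑_{n ≤ N0} 1/n ≤ 1 + log N0 ≤ 1 + Y/K`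
(`harmonic_le_one_add_log`, `n^{-(1+δ)} ≤ 1/n`). The middle part `N0 < n ≤ N1` is empty or
`N1 = ⌊|t|^3⌋₊ ≤ |t|^3`; `|t| ≤ exp (A Y)` and `N0 + 1 > exp (Y/K)`, so with `K' = 2 A K + 1`:
`N0 ≥ exp (Y/(2K))` for `Y` large, `|t| ≤ exp (A Y) ≤ N0^{K'}`; `zeta_range K'` gives at most
`C (1 + 3 A Y) exp (-c Y/(2K)) ≤ 1` for `Y ≥ Y0(K,A)` (`Y e^{-aY} → 0`).
-/

set_option autoImplicit false

namespace Pool.Agent.MOM

open Finset

private theorem norm_zt_le {δ t : ℝ} (hδ : 0 ≤ δ) {n : ℕ} (hn : 1 ≤ n) :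
    ‖zt δ t n‖ ≤ 1 / (n : ℝ) := by
  have hn' : (1 : ℝ) ≤ n := by exact_mod_cast hn
  have h0 : (0 : ℝ) < n := by linarith
  unfold zt
  rw [norm_mul, norm_ph, mul_one, Complex.norm_real, Real.norm_of_nonneg (by positivity)]
  calc (n : ℝ) ^ (-(1 + δ)) ≤ (n : ℝ) ^ (-1 : ℝ) :=
        Real.rpow_le_rpow_of_exponent_le hn' (by linarith)
    _ = 1 / (n : ℝ) := by rw [Real.rpow_neg_one, one_div]

private theorem sum_inv_le (N : ℕ) (hN : 1 ≤ N) :
    ∑ n ∈ Icc 1 N, 1 / (n : ℝ) ≤ 1 + Real.log N := by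
  have h := harmonic_le_one_add_log N
  rw [harmonic_eq_sum_Icc] at h
  push_cast at h
  simpa [one_div] using h

theorem zeta_bd : ∃ C : ℝ, 0 < C ∧ ∀ K A : ℝ, 1 ≤ K → 1 ≤ A → ∃ Y0 : ℝ, 1 ≤ Y0 ∧ ∀ Y : ℝ,
    Y0 ≤ Y → ∀ t : ℝ, 1 / 2 ≤ |t| → |t| ≤ Real.exp (A * Y) →
      ‖riemannZeta (1 + (1 / Y : ℝ) + t * Complex.I)‖ ≤ Y / K + C := by
  refine ⟨10, by norm_num, fun K A hK hA => ?_⟩
  have hK0 : 0 < K := by linarith
  obtain ⟨c, hc, C, hC, hr⟩ := zeta_range (2 * A * K + 1) (by nlinarith)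
  -- the threshold
  have hlim : Filter.Tendsto (fun Y : ℝ => C * (1 + 3 * (A * Y)) *
      Real.exp (-(c / (2 * K) * Y))) Filter.atTop (nhds 0) := by
    have ha : 0 < c / (2 * K) := by positivity
    have h1 : Filter.Tendsto (fun Y : ℝ => Real.exp (-(c / (2 * K) * Y))) Filter.atTop
        (nhds 0) := by
      refine Real.tendsto_exp_neg_atTop_nhds_zero.comp ?_
      exact Filter.tendsto_id.const_mul_atTop ha
    have h2 : Filter.Tendsto (fun Y : ℝ => Y * Real.exp (-(c / (2 * K) * Y))) Filter.atTop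
        (nhds 0) := by
      have h3 := Real.tendsto_pow_mul_exp_neg_atTop_nhds_zero 1
      have h4 := (h3.comp (Filter.tendsto_id.const_mul_atTop ha)).const_mul (c / (2 * K))⁻¹
      rw [mul_zero] at h4
      refine h4.congr fun Y => ?_
      simp only [Function.comp_apply, pow_one, id_eq]
      field_simp
    have h5 := (h1.const_mul C).add (h2.const_mul (C * (3 * A)))
    rw [mul_zero, mul_zero, add_zero] at h5
    refine h5.congr fun Y => ?_
    ring
  have hev : ∀ᶠ Y : ℝ in Filter.atTop, C * (1 + 3 * (A * Y)) *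
      Real.exp (-(c / (2 * K) * Y)) ≤ 1 :=
    hlim.eventually (Filter.Eventually.mono (Iio_mem_nhds zero_lt_one) fun _ h => le_of_lt h)
  obtain ⟨Y1, hY1⟩ := Filter.eventually_atTop.1 hev
  refine ⟨max (max 1 Y1) (2 * K), le_trans (le_max_left _ _) (le_max_left _ _), ?_⟩
  intro Y hY t ht1 ht2
  have hYa : 1 ≤ Y := le_trans (le_trans (le_max_left _ _) (le_max_left _ _)) hY
  have hYb : Y1 ≤ Y := le_trans (le_trans (le_max_right _ _) (le_max_left _ _)) hY
  have hYc : 2 * K ≤ Y := le_trans (le_max_right _ _) hY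
  have hY0 : 0 < Y := by linarith
  have htne : t ≠ 0 := by
    rintro rfl
    rw [abs_zero] at ht1
    norm_num at ht1
  have ht0 : 0 < |t| := by linarith
  have hδ : 0 < 1 / Y := by positivity
  have hδ1 : 1 / Y ≤ 1 := by
    rw [div_le_one hY0]
    exact hYa
  obtain ⟨N0, hN0⟩ : ∃ N0 : ℕ, N0 = ⌊Real.exp (Y / K)⌋₊ := ⟨_, rfl⟩
  obtain ⟨N1, hN1⟩ : ∃ N1 : ℕ, N1 = max N0 ⌊|t| ^ 3⌋₊ := ⟨_, rfl⟩
  have he : 2 ≤ Real.exp (Y / (2 * K)) := by
    have h1 : 1 ≤ Y / (2 * K) := by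
      rw [le_div_iff₀ (by positivity)]
      linarith
    have h2 := Real.add_one_le_exp (Y / (2 * K))
    linarith
  have hesq : Real.exp (Y / K) = Real.exp (Y / (2 * K)) * Real.exp (Y / (2 * K)) := by
    rw [← Real.exp_add]
    congr 1
    field_simp
    ring
  have hN0r : Real.exp (Y / (2 * K)) ≤ N0 := by
    have h1 := Nat.lt_floor_add_one (Real.exp (Y / K))
    rw [← hN0] at h1
    nlinarith
  have hN0one : 1 ≤ N0 := by
    have h1 : (1 : ℝ) ≤ N0 := by linarith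
    exact_mod_cast h1
  have hN01 : N0 ≤ N1 := hN1 ▸ le_max_left _ _
  have hN1one : 1 ≤ N1 := hN0one.trans hN01
  have hN0pos : (0 : ℝ) < N0 := by exact_mod_cast hN0one
  have htail := zeta_tail (1 / Y) t hδ htne N1 hN1one
  -- the tail bound
  have hT : 1 / |t| + (3 + 1 / Y + |t|) / N1 ≤ 8 := by
    have h1 : 1 / |t| ≤ 2 := by
      rw [div_le_iff₀ ht0]
      linarith
    have hN1r : (1 : ℝ) ≤ N1 := by exact_mod_cast hN1one
    have h2 : (3 + 1 / Y + |t|) / N1 ≤ 6 := by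
      rw [div_le_iff₀ (by linarith)]
      rcases le_total |t| 2 with h3 | h3
      · nlinarith
      · have h4 : |t| ≤ N1 := by
          have h5 : |t| ^ 3 < N1 + 1 := by
            have h6 := Nat.lt_floor_add_one (|t| ^ 3)
            have h7 : ((⌊|t| ^ 3⌋₊ : ℕ) : ℝ) ≤ N1 := by
              exact_mod_cast hN1 ▸ le_max_right _ _
            linarith
          have h8 : |t| ^ 3 = |t| * |t| * |t| := by ring
          nlinarith [mul_nonneg ht0.le ht0.le]
        nlinarith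
    linarith
  -- the first part
  have hfirst : ‖∑ n ∈ Icc 1 N0, zt (1 / Y) t n‖ ≤ 1 + Y / K := by
    calc ‖∑ n ∈ Icc 1 N0, zt (1 / Y) t n‖ ≤ ∑ n ∈ Icc 1 N0, 1 / (n : ℝ) := by
          refine (norm_sum_le _ _).trans (Finset.sum_le_sum fun n hn => ?_)
          exact norm_zt_le hδ.le (Finset.mem_Icc.1 hn).1
      _ ≤ 1 + Real.log N0 := sum_inv_le N0 hN0one
      _ ≤ 1 + Y / K := by
          have h1 : (N0 : ℝ) ≤ Real.exp (Y / K) := by
            rw [hN0]
            exact Nat.floor_le (Real.exp_pos _).le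
          have h2 := Real.log_le_log hN0pos h1
          rw [Real.log_exp] at h2
          linarith
  -- the middle part
  have hmid : ‖∑ n ∈ Ioc N0 N1, zt (1 / Y) t n‖ ≤ 1 := by
    rcases eq_or_lt_of_le hN01 with h0 | h0
    · rw [← h0, Finset.Ioc_self, Finset.sum_empty, norm_zero]
      exact zero_le_one
    · have h1 : N1 = ⌊|t| ^ 3⌋₊ := by
        rw [hN1] at h0 ⊢
        rcases le_total N0 ⌊|t| ^ 3⌋₊ with h2 | h2
        · exact max_eq_right h2
        · rw [max_eq_left h2] at h0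
          exact absurd h0 (lt_irrefl _)
      have h2 : (N1 : ℝ) ≤ |t| ^ 3 := by
        rw [h1]
        exact Nat.floor_le (by positivity)
      have h3 : |t| ≤ (N0 : ℝ) ^ (2 * A * K + 1) := by
        calc |t| ≤ Real.exp (A * Y) := ht2
          _ ≤ Real.exp (Y / (2 * K) * (2 * A * K + 1)) := by
              apply Real.exp_le_exp.2
              have h4 : Y / (2 * K) * (2 * A * K + 1) = A * Y + Y / (2 * K) := by
                field_simp
              rw [h4]
              have : 0 ≤ Y / (2 * K) := by positivity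
              linarith
          _ = Real.exp (Y / (2 * K)) ^ (2 * A * K + 1) := by rw [Real.exp_mul]
          _ ≤ (N0 : ℝ) ^ (2 * A * K + 1) :=
              Real.rpow_le_rpow (Real.exp_pos _).le hN0r (by positivity)
      refine (hr N0 N1 hN0one hN01 (1 / Y) t hδ.le h2 h3).trans ?_
      have h4 : Real.log N1 ≤ 3 * (A * Y) := by
        have h5 : (0 : ℝ) < N1 := by exact_mod_cast hN1one
        have h6 := Real.log_le_log h5 h2
        rw [Real.log_pow] at h6
        have h7 := Real.log_le_log ht0 ht2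
        rw [Real.log_exp] at h7
        push_cast at h6
        linarith
      have h5 : (N0 : ℝ) ^ (-c) ≤ Real.exp (-(c / (2 * K) * Y)) := by
        calc (N0 : ℝ) ^ (-c) ≤ Real.exp (Y / (2 * K)) ^ (-c) :=
              Real.rpow_le_rpow_of_nonpos (Real.exp_pos _) hN0r (by linarith)
          _ = Real.exp (-(c / (2 * K) * Y)) := by
              rw [← Real.exp_mul]
              congr 1
              field_simp
      have h6 : 0 ≤ Real.log N1 := Real.log_natCast_nonneg N1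
      calc C * (1 + Real.log N1) * (N0 : ℝ) ^ (-c)
          ≤ C * (1 + 3 * (A * Y)) * Real.exp (-(c / (2 * K) * Y)) := by
            refine mul_le_mul ?_ h5 (by positivity) (by positivity)
            exact mul_le_mul_of_nonneg_left (by linarith) hC.le
        _ ≤ 1 := hY1 Y hYb
  -- assembly
  have hsplit : ∑ n ∈ Icc 1 N1, zt (1 / Y) t n =
      ∑ n ∈ Icc 1 N0, zt (1 / Y) t n + ∑ n ∈ Ioc N0 N1, zt (1 / Y) t n := by
    rw [← Finset.sum_union]
    · congr 1
      ext n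
      simp only [Finset.mem_Icc, Finset.mem_union, Finset.mem_Ioc]
      omega
    · rw [Finset.disjoint_left]
      intro n h1 h2
      rw [Finset.mem_Icc] at h1
      rw [Finset.mem_Ioc] at h2
      omega
  have hall : ‖∑ n ∈ Icc 1 N1, zt (1 / Y) t n‖ ≤ (1 + Y / K) + 1 := by
    rw [hsplit]
    exact (norm_add_le _ _).trans (add_le_add hfirst hmid)
  have hfin := norm_sub_norm_le (riemannZeta (1 + (1 / Y : ℝ) + t * Complex.I))
    (∑ n ∈ Icc 1 N1, zt (1 / Y) t n)
  linarith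

end Pool.Agent.MOM
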