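import Pool.Agent.MOM.Hal.ZetaTail
import Pool.Agent.MOM.NT.KernWeyl

/-!
MOM (MP_2b7f8f_an), HAL H5, part 2: blocks of the zeta series.

PROOF of `zeta_block`. `c, C` from `weyl K` (file NT/Weyl.lean). `abel_le` (file NT/KernWeyl.lean)
with `g n = n^{-(1+δ)}` and `z n = ph t n`, `B = C M^{1-c}` (all intervals `Ico a k`, `k ≤ b ≤
2M`, are
allowed in `weyl`). `g` is antitone on `n ≥ 1`, so `|g b| + ∑_{n ∈ Ico a b} |g (n+1) - g n| = g a
≤ 1/M`
(telescoping, `Finset.sum_Ico_sub` or induction; `a ≥ M ≥ 1`). Total `C M^{1-c}/M = C M^{-c}`.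

PROOF of `zeta_range`. Let `c, C` be from `zeta_block`. The interval `(N0, N1]`, `N0 ≥ 1`, is
covered by
the dyadic blocks `[2^i N0', 2^(i+1) N0')`, `N0' = N0 + 1`, `i < k`, `k = Nat.log 2 N1 + 1`
(`2^k > N1`), truncated at `N1 + 1`. A block with `M = 2^i N0' ≤ N1` has `M^{1/3} ≤ |t| ≤ M^K` by
the hypotheses, and contributes at most `C M^{-c} ≤ C N0^{-c}`. So the sum is at most
`(Nat.log 2 N1 + 1) C N0^{-c} ≤ 3 (1 + log N1) C N0^{-c}`.
-/

set_option autoImplicit false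

namespace Pool.Agent.MOM

open Finset

theorem zeta_block (K : ℝ) (hK : 1 ≤ K) : ∃ c : ℝ, 0 < c ∧ ∃ C : ℝ, 0 < C ∧ ∀ M : ℝ, 1 ≤ M →
    ∀ δ t : ℝ, 0 ≤ δ → M ^ (1 / 3 : ℝ) ≤ |t| → |t| ≤ M ^ K → ∀ a b : ℕ, M ≤ a → a ≤ b →
      (b : ℝ) ≤ 2 * M → ‖∑ n ∈ Ico a b, zt δ t n‖ ≤ C * M ^ (-c) := by
  obtain ⟨c, hc, C, hC, hw⟩ := weyl K hK
  refine ⟨c, hc, C, hC, ?_⟩
  intro M hM δ t hδ ht1 ht2 a b ha hab hb
  have hM0 : 0 < M := by linarith
  have ha1 : 1 ≤ a := by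
    have : (1 : ℝ) ≤ a := hM.trans ha
    exact_mod_cast this
  set g : ℕ → ℝ := fun n => (n : ℝ) ^ (-(1 + δ)) with hg
  have hg0 : ∀ n, 0 ≤ g n := fun n => Real.rpow_nonneg (Nat.cast_nonneg n) _
  have hmono : ∀ n, 1 ≤ n → g (n + 1) ≤ g n := by
    intro n hn
    have hn0 : (0 : ℝ) < n := by exact_mod_cast hn
    simp only [hg]
    refine Real.rpow_le_rpow_of_nonpos hn0 ?_ (by linarith)
    push_cast
    linarith
  have h1 := abel_le g (fun n => ph t n) hab (B := C * M ^ (1 - c)) (fun k _ hk => by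
    refine hw M hM t ht1 ht2 a k ha ?_
    have : (k : ℝ) ≤ b := by exact_mod_cast hk
    linarith)
  have h2 : ∑ n ∈ Ico a b, |g (n + 1) - g n| = g a - g b := by
    have h3 : ∀ n ∈ Ico a b, |g (n + 1) - g n| = -(g (n + 1) - g n) := by
      intro n hn
      have h4 := hmono n (ha1.trans (Finset.mem_Ico.1 hn).1)
      exact abs_of_nonpos (by linarith)
    rw [Finset.sum_congr rfl h3, Finset.sum_neg_distrib, Finset.sum_Ico_sub g hab]
    ring
  rw [h2, abs_of_nonneg (hg0 b), add_sub_cancel] at h1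
  have h3 : g a ≤ M⁻¹ := by
    have ha1' : (1 : ℝ) ≤ a := by exact_mod_cast ha1
    calc g a ≤ (a : ℝ) ^ (-1 : ℝ) :=
          Real.rpow_le_rpow_of_exponent_le ha1' (by linarith)
      _ = (a : ℝ)⁻¹ := Real.rpow_neg_one _
      _ ≤ M⁻¹ := inv_anti₀ hM0 ha
  have h4 : C * M ^ (1 - c) * M⁻¹ = C * M ^ (-c) := by
    rw [mul_assoc, ← Real.rpow_neg_one M, ← Real.rpow_add hM0]
    congr 2
    ring
  rw [← h4]
  exact h1.trans (mul_le_mul_of_nonneg_left h3 (by positivity))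

theorem zeta_range (K : ℝ) (hK : 1 ≤ K) : ∃ c : ℝ, 0 < c ∧ ∃ C : ℝ, 0 < C ∧ ∀ N0 N1 : ℕ,
    1 ≤ N0 → N0 ≤ N1 → ∀ δ t : ℝ, 0 ≤ δ → (N1 : ℝ) ≤ |t| ^ 3 → |t| ≤ (N0 : ℝ) ^ K →
      ‖∑ n ∈ Ioc N0 N1, zt δ t n‖ ≤ C * (1 + Real.log N1) * (N0 : ℝ) ^ (-c) := by
  obtain ⟨c, hc, C, hC, hb⟩ := zeta_block K hK
  refine ⟨c, hc, 3 * C, by positivity, ?_⟩
  intro N0 N1 hN0 hN01 δ t hδ ht1 ht2
  have hN0' : (1 : ℝ) ≤ N0 := by exact_mod_cast hN0
  have hN0p : (0 : ℝ) < N0 := by linarith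
  set D : ℝ := C * (N0 : ℝ) ^ (-c) with hD
  have hD0 : 0 ≤ D := by positivity
  have hone : ∀ a b : ℕ, N0 < a → a ≤ b → b ≤ 2 * a → b ≤ N1 + 1 →
      ‖∑ n ∈ Ico a b, zt δ t n‖ ≤ D := by
    intro a b ha hab hb2 hbN
    rcases eq_or_lt_of_le hab with rfl | hlt
    · rw [Finset.Ico_self, Finset.sum_empty, norm_zero]
      exact hD0
    · have ha0 : (N0 : ℝ) ≤ a := by exact_mod_cast ha.le
      have ha1 : (1 : ℝ) ≤ a := hN0'.trans ha0
      have haN : (a : ℝ) ≤ N1 := by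
        have : a ≤ N1 := by omega
        exact_mod_cast this
      have h1 : (a : ℝ) ^ (1 / 3 : ℝ) ≤ |t| := by
        have h2 : (a : ℝ) ^ (1 / 3 : ℝ) ≤ (|t| ^ 3) ^ (1 / 3 : ℝ) :=
          Real.rpow_le_rpow (by positivity) (haN.trans ht1) (by norm_num)
        have h3 : (|t| ^ 3) ^ (1 / 3 : ℝ) = |t| := by
          rw [← Real.rpow_natCast, ← Real.rpow_mul (abs_nonneg t)]
          norm_num
        rwa [h3] at h2
      have h2 : |t| ≤ (a : ℝ) ^ K :=
        ht2.trans (Real.rpow_le_rpow (by positivity) ha0 (by linarith))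
      have h3 := hb a ha1 δ t hδ h1 h2 a b le_rfl hab (by exact_mod_cast hb2)
      refine h3.trans ?_
      rw [hD]
      refine mul_le_mul_of_nonneg_left ?_ hC.le
      exact Real.rpow_le_rpow_of_nonpos hN0p ha0 (by linarith)
  have hind : ∀ i a b : ℕ, N0 < a → a ≤ b → b ≤ 2 ^ i * a → b ≤ N1 + 1 →
      ‖∑ n ∈ Ico a b, zt δ t n‖ ≤ i * D := by
    intro i
    induction i with
    | zero =>
      intro a b ha hab hb2 hbN
      have : a = b := by
        rw [pow_zero, one_mul] at hb2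
        omega
      subst this
      rw [Finset.Ico_self, Finset.sum_empty, norm_zero]
      simp
    | succ i ih =>
      intro a b ha hab hb2 hbN
      have hcast : (((i + 1 : ℕ) : ℝ)) * D = D + i * D := by
        push_cast
        ring
      rw [hcast]
      rcases le_or_gt b (2 * a) with h1 | h1
      · have h2 := hone a b ha hab h1 hbN
        have h3 : 0 ≤ (i : ℝ) * D := by positivity
        linarith
      · have h2 := hone a (2 * a) ha (by omega) le_rfl (by omega)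
        have h3 := ih (2 * a) b (by omega) h1.le (by
          rw [pow_succ] at hb2
          calc b ≤ 2 ^ i * 2 * a := hb2
            _ = 2 ^ i * (2 * a) := by ring) hbN
        rw [← Finset.sum_Ico_consecutive _ (by omega : a ≤ 2 * a) h1.le]
        exact (norm_add_le _ _).trans (add_le_add h2 h3)
  have hI : Ioc N0 N1 = Ico (N0 + 1) (N1 + 1) := by
    ext n
    simp only [Finset.mem_Ioc, Finset.mem_Ico]
    omega
  have hlt : N1 < 2 ^ (Nat.log 2 N1 + 1) := Nat.lt_pow_succ_log_self (by norm_num) N1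
  have hmain := hind (Nat.log 2 N1 + 1) (N0 + 1) (N1 + 1) (Nat.lt_succ_self _) (by omega)
    (by
      have h1 : 2 ^ (Nat.log 2 N1 + 1) * 1 ≤ 2 ^ (Nat.log 2 N1 + 1) * (N0 + 1) :=
        Nat.mul_le_mul_left _ (by omega)
      omega) le_rfl
  rw [hI]
  refine hmain.trans ?_
  have hlog : ((Nat.log 2 N1 : ℕ) : ℝ) ≤ 2 * Real.log N1 := by
    have h1 : ((Nat.log 2 N1 : ℕ) : ℝ) ≤ Real.logb 2 N1 := by
      have := Real.natLog_le_logb N1 2
      exact_mod_cast this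
    have h2 : Real.logb 2 N1 ≤ 2 * Real.log N1 := by
      unfold Real.logb
      have h3 : 0 ≤ Real.log N1 := Real.log_natCast_nonneg N1
      have h4 : (1 : ℝ) / 2 < Real.log 2 := by
        have := Real.log_two_gt_d9
        linarith
      rw [div_le_iff₀ (by linarith)]
      nlinarith
    linarith
  have hfin : (((Nat.log 2 N1 + 1 : ℕ) : ℝ)) ≤ 3 * (1 + Real.log N1) := by
    have h3 : 0 ≤ Real.log N1 := Real.log_natCast_nonneg N1
    push_cast
    linarith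
  calc (((Nat.log 2 N1 + 1 : ℕ) : ℝ)) * D ≤ 3 * (1 + Real.log N1) * D :=
        mul_le_mul_of_nonneg_right hfin hD0
    _ = 3 * C * (1 + Real.log N1) * (N0 : ℝ) ^ (-c) := by
        rw [hD]
        ring

end Pool.Agent.MOM
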