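import Pool.Agent.MOM.Defs
import Pool.Agent.MOM.NT.SumInt

/-!
MOM (MP_2b7f8f_an), HAL H5, part 1: the tail of the zeta series is an integral.

PROOF. Let `s = 1 + δ + it`. `riemannZeta s = ∑' n, 1/n^s` (`zeta_eq_tsum_one_div_nat_cpow`, or
`zeta_nat_eq_tsum_of_gt_one`), and for `n ≥ 1`, `1/n^s = n^{-(1+δ)} ph t n` (`n^{-it} = exp(-it
log n)`).
So the difference is the limit of `∑_{N < n ≤ M} f n`, `f x = x^{-s}` (complex power of a positive
real), as `M → ∞` through the natural numbers (`Summable.hasSum`, `HasSum.tendsto_sum_nat`).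
By `sum_win_sub_integral` (`win N M = Ioc N M`): `‖∑_{N<n≤M} f n - ∫_N^M f‖ ≤ ‖f N‖ + ‖f M‖ +
∫_N^M ‖f'‖`,
`‖f x‖ = x^{-(1+δ)} ≤ 1/x`, `‖f' x‖ = ‖s‖ x^{-(2+δ)}`, `∫_N^M ‖f'‖ ≤ ‖s‖ ∫_N^M x^{-2} ≤ ‖s‖/N`,
`‖s‖ ≤ 1 + δ + |t|`. And `∫_N^M f = (N^{1-s} - M^{1-s})/(s-1)` (`integral_cpow`), of norm at most
`(N^{-δ} + M^{-δ})/|t| ≤ (1 + M^{-δ})/|t|` because `‖s - 1‖ ≥ |t|`. Let `M → ∞` (`M^{-δ} → 0`).
-/

set_option autoImplicit false

namespace Pool.Agent.MOM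

open Finset

/-- The term `n^{-(1+δ)-it}`. -/
noncomputable def zt (δ t : ℝ) (n : ℕ) : ℂ := (((n : ℝ) ^ (-(1 + δ)) : ℝ) : ℂ) * ph t n

private theorem zt_eq (δ t : ℝ) {n : ℕ} (hn : 1 ≤ n) :
    zt δ t n = ((n : ℝ) : ℂ) ^ (-(1 + δ + t * Complex.I)) := by
  have hn0 : (n : ℝ) ≠ 0 := by
    have : n ≠ 0 := by omega
    exact_mod_cast this
  have hn1 : ((n : ℝ) : ℂ) ≠ 0 := Complex.ofReal_ne_zero.2 hn0
  have e1 : (-(1 + δ + t * Complex.I) : ℂ) = ((-(1 + δ) : ℝ) : ℂ) + ((-t : ℝ) : ℂ) * Complex.I := by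
    push_cast
    ring
  rw [e1, Complex.cpow_add _ _ hn1, zt]
  congr 1
  · exact Complex.ofReal_cpow (Nat.cast_nonneg n) _
  · rw [Complex.cpow_def_of_ne_zero hn1, ← Complex.ofReal_log (Nat.cast_nonneg n), ph]
    congr 1
    push_cast
    ring

private theorem zt_sum (δ t : ℝ) (hδ : 0 < δ) (N : ℕ) :
    ∑ n ∈ range (N + 1), 1 / (n : ℂ) ^ (1 + δ + t * Complex.I : ℂ) = ∑ n ∈ Icc 1 N, zt δ t n := by
  have hs0 : (1 + δ + t * Complex.I : ℂ) ≠ 0 := by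
    intro h
    have h1 := congrArg Complex.re h
    simp at h1
    linarith
  induction N with
  | zero => simp [Complex.zero_cpow hs0]
  | succ N ih =>
    rw [sum_range_succ, ih, Finset.sum_Icc_succ_top (by omega), zt_eq δ t (by omega),
      Complex.cpow_neg, one_div, Complex.ofReal_natCast]

private theorem zt_split (δ t : ℝ) (hδ : 0 < δ) {N M : ℕ} (h : N ≤ M) :
    ∑ n ∈ range (M + 1), 1 / (n : ℂ) ^ (1 + δ + t * Complex.I : ℂ) = ∑ n ∈ Icc 1 N, zt δ t n +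
      ∑ n ∈ Ioc N M, ((n : ℝ) : ℂ) ^ (-(1 + δ + t * Complex.I)) := by
  induction M, h using Nat.le_induction with
  | base => rw [zt_sum δ t hδ, Ioc_self, sum_empty, add_zero]
  | succ M hM ih =>
    rw [sum_range_succ, ih, Finset.sum_Ioc_succ_top hM, add_assoc, Complex.cpow_neg, one_div,
      Complex.ofReal_natCast]

private theorem zt_bound (δ t : ℝ) (hδ : 0 < δ) (ht : t ≠ 0) {N M : ℕ} (hN : 1 ≤ N) (h : N ≤ M) :
    ‖∑ n ∈ Ioc N M, ((n : ℝ) : ℂ) ^ (-(1 + δ + t * Complex.I))‖ ≤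
      (1 + (M : ℝ) ^ (-δ)) / |t| + (3 + δ + |t|) / N := by
  have hN0 : (1 : ℝ) ≤ N := by exact_mod_cast hN
  have hNM : (N : ℝ) ≤ M := by exact_mod_cast h
  have hNpos : (0 : ℝ) < N := by linarith
  set s : ℂ := 1 + δ + t * Complex.I with hs
  have hsre : s.re = 1 + δ := by simp [hs]
  have hsim : s.im = t := by simp [hs]
  have hs0 : -s ≠ 0 := by
    intro h1
    have h2 := congrArg Complex.re h1
    rw [Complex.neg_re, hsre, Complex.zero_re] at h2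
    linarith
  have hpos : ∀ x ∈ Set.Icc (N : ℝ) M, 0 < x := fun x hx => hNpos.trans_le hx.1
  have hder : ∀ x ∈ Set.Icc (N : ℝ) M,
      HasDerivAt (fun y : ℝ => (y : ℂ) ^ (-s)) (-s * (x : ℂ) ^ (-s - 1)) x := fun x hx =>
    hasDerivAt_ofReal_cpow_const (hpos x hx).ne' hs0
  have hcd : ContinuousOn (fun x : ℝ => -s * (x : ℂ) ^ (-s - 1)) (Set.Icc (N : ℝ) M) := by
    intro x hx
    refine ContinuousAt.continuousWithinAt ?_
    exact (Complex.continuousAt_ofReal_cpow_const x (-s - 1) (Or.inr (hpos x hx).ne')).const_mul _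
  have hcd' : ContinuousOn (deriv fun y : ℝ => (y : ℂ) ^ (-s)) (Set.Icc (N : ℝ) M) :=
    hcd.congr fun x hx => (hder x hx).deriv
  have h1 := sum_win_sub_integral (f := fun y : ℝ => (y : ℂ) ^ (-s)) hNpos.le hNM
    (fun x hx => (hder x hx).differentiableAt) hcd'
  have hwin : win (N : ℝ) M = Ioc N M := by
    rw [win, Nat.floor_natCast, Nat.floor_natCast]
  rw [hwin] at h1
  have hnorm : ∀ x : ℝ, 0 < x → ‖(x : ℂ) ^ (-s)‖ = x ^ (-(1 + δ)) := by
    intro x hx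
    rw [Complex.norm_cpow_eq_rpow_re_of_pos hx, Complex.neg_re, hsre]
  have hfN : ‖((N : ℝ) : ℂ) ^ (-s)‖ ≤ 1 / N := by
    rw [hnorm _ hNpos, one_div, ← Real.rpow_neg_one]
    exact Real.rpow_le_rpow_of_exponent_le hN0 (by linarith)
  have hfM : ‖((M : ℝ) : ℂ) ^ (-s)‖ ≤ 1 / N := by
    rw [hnorm _ (hNpos.trans_le hNM)]
    refine (Real.rpow_le_rpow_of_exponent_le (hN0.trans hNM)
      (by linarith : -(1 + δ) ≤ -1)).trans ?_
    rw [Real.rpow_neg_one, one_div]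
    exact inv_anti₀ hNpos hNM
  have hsn : ‖s‖ ≤ 1 + δ + |t| := by
    have h2 := Complex.norm_le_abs_re_add_abs_im s
    rw [hsre, hsim, abs_of_pos (by linarith)] at h2
    exact h2
  have hint : ∫ x in (N : ℝ)..M, ‖deriv (fun y : ℝ => (y : ℂ) ^ (-s)) x‖ ≤ (1 + δ + |t|) / N := by
    have h2 : ∫ x in (N : ℝ)..M, ‖deriv (fun y : ℝ => (y : ℂ) ^ (-s)) x‖ ≤
        ∫ x in (N : ℝ)..M, (1 + δ + |t|) * (x ^ 2)⁻¹ := by
      refine intervalIntegral.integral_mono_on hNM ?_ ?_ ?_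
      · exact hcd'.norm.intervalIntegrable_of_Icc hNM
      · refine ContinuousOn.intervalIntegrable_of_Icc hNM ?_
        refine continuousOn_const.mul ((continuousOn_id.pow 2).inv₀ fun x hx => ?_)
        exact pow_ne_zero 2 (hpos x hx).ne'
      · intro x hx
        have hx0 := hpos x hx
        rw [(hder x hx).deriv, norm_mul, norm_neg, Complex.norm_cpow_eq_rpow_re_of_pos hx0]
        refine mul_le_mul hsn ?_ (Real.rpow_nonneg hx0.le _) (by positivity)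
        have e1 : (-s - 1).re = -(2 + δ) := by
          rw [Complex.sub_re, Complex.neg_re, hsre, Complex.one_re]
          ring
        rw [e1]
        have e2 : (x ^ 2)⁻¹ = x ^ (-2 : ℝ) := by
          rw [Real.rpow_neg hx0.le]
          norm_cast
        rw [e2]
        exact Real.rpow_le_rpow_of_exponent_le (hN0.trans hx.1) (by linarith)
    have h3 : ∫ x in (N : ℝ)..M, (1 + δ + |t|) * (x ^ 2)⁻¹ =
        (1 + δ + |t|) * (-(M : ℝ)⁻¹ - -(N : ℝ)⁻¹) := by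
      rw [intervalIntegral.integral_const_mul]
      congr 1
      refine intervalIntegral.integral_eq_sub_of_hasDerivAt (f := fun x : ℝ => -x⁻¹) ?_ ?_
      · intro x hx
        rw [Set.uIcc_of_le hNM] at hx
        have h4 := (hasDerivAt_inv (hpos x hx).ne').neg
        rw [neg_neg] at h4
        exact h4
      · refine ContinuousOn.intervalIntegrable_of_Icc hNM ?_
        exact (continuousOn_id.pow 2).inv₀ fun x hx => pow_ne_zero 2 (hpos x hx).ne'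
    rw [h3] at h2
    refine h2.trans ?_
    rw [div_eq_mul_inv]
    refine mul_le_mul_of_nonneg_left ?_ (by positivity)
    have h5 : 0 ≤ (M : ℝ)⁻¹ := by positivity
    linarith
  have hI : ‖∫ x in (N : ℝ)..M, (x : ℂ) ^ (-s)‖ ≤ (1 + (M : ℝ) ^ (-δ)) / |t| := by
    have h2 : (0 : ℝ) ∉ Set.uIcc (N : ℝ) M := by
      rw [Set.uIcc_of_le hNM]
      intro h3
      exact absurd h3.1 (not_le.2 hNpos)
    have h3 : -s ≠ -1 := by
      intro h4
      have h5 := congrArg Complex.im h4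
      rw [Complex.neg_im, hsim, Complex.neg_im, Complex.one_im] at h5
      apply ht
      linarith
    rw [integral_cpow (Or.inr ⟨h3, h2⟩), norm_div]
    have h4 : |t| ≤ ‖-s + 1‖ := by
      have h5 := Complex.abs_im_le_norm (-s + 1)
      rw [Complex.add_im, Complex.neg_im, hsim, Complex.one_im, add_zero, abs_neg] at h5
      exact h5
    have h6 : ∀ x : ℝ, 0 < x → ‖(x : ℂ) ^ (-s + 1)‖ = x ^ (-δ) := by
      intro x hx
      rw [Complex.norm_cpow_eq_rpow_re_of_pos hx, Complex.add_re, Complex.neg_re, hsre,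
        Complex.one_re]
      congr 1
      ring
    have h7 : ‖((M : ℝ) : ℂ) ^ (-s + 1) - ((N : ℝ) : ℂ) ^ (-s + 1)‖ ≤ 1 + (M : ℝ) ^ (-δ) := by
      refine (norm_sub_le _ _).trans ?_
      rw [h6 _ (hNpos.trans_le hNM), h6 _ hNpos]
      have h8 : (N : ℝ) ^ (-δ) ≤ 1 := Real.rpow_le_one_of_one_le_of_nonpos hN0 (by linarith)
      linarith
    have ht' : 0 < |t| := abs_pos.2 ht
    exact div_le_div₀ (by positivity) h7 ht' h4
  have h9 : ‖∑ n ∈ Ioc N M, ((n : ℝ) : ℂ) ^ (-s)‖ ≤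
      ‖∑ n ∈ Ioc N M, ((n : ℝ) : ℂ) ^ (-s) - ∫ x in (N : ℝ)..M, (x : ℂ) ^ (-s)‖ +
      ‖∫ x in (N : ℝ)..M, (x : ℂ) ^ (-s)‖ := by
    have h10 := norm_add_le (∑ n ∈ Ioc N M, ((n : ℝ) : ℂ) ^ (-s) -
      ∫ x in (N : ℝ)..M, (x : ℂ) ^ (-s)) (∫ x in (N : ℝ)..M, (x : ℂ) ^ (-s))
    rw [sub_add_cancel] at h10
    exact h10
  have h11 : (3 + δ + |t|) / (N : ℝ) = 1 / N + 1 / N + (1 + δ + |t|) / N := by
    rw [← add_div, ← add_div]
    congr 1
    ring
  rw [h11]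
  have h12 : ‖∑ n ∈ Ioc N M, ((n : ℝ) : ℂ) ^ (-s) - ∫ x in (N : ℝ)..M, (x : ℂ) ^ (-s)‖ ≤
      ‖((N : ℝ) : ℂ) ^ (-s)‖ + ‖((M : ℝ) : ℂ) ^ (-s)‖ +
      ∫ x in (N : ℝ)..M, ‖deriv (fun y : ℝ => (y : ℂ) ^ (-s)) x‖ := h1
  linarith

theorem zeta_tail (δ t : ℝ) (hδ : 0 < δ) (ht : t ≠ 0) (N : ℕ) (hN : 1 ≤ N) :
    ‖riemannZeta (1 + δ + t * Complex.I) - ∑ n ∈ Icc 1 N, zt δ t n‖ ≤
      1 / |t| + (3 + δ + |t|) / N := by
  have hre : 1 < (1 + δ + t * Complex.I : ℂ).re := by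
    simp
    exact hδ
  have h1 : HasSum (fun n : ℕ => 1 / (n : ℂ) ^ (1 + δ + t * Complex.I : ℂ))
      (riemannZeta (1 + δ + t * Complex.I)) := by
    rw [zeta_eq_tsum_one_div_nat_cpow hre]
    exact (Complex.summable_one_div_nat_cpow.2 hre).hasSum
  have h2 := (h1.tendsto_sum_nat.comp (Filter.tendsto_add_atTop_nat 1)).sub_const
    (∑ n ∈ Icc 1 N, zt δ t n)
  have h3 := h2.norm
  have h4 : Filter.Tendsto (fun M : ℕ => (1 + (M : ℝ) ^ (-δ)) / |t| + (3 + δ + |t|) / N)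
      Filter.atTop (nhds ((1 + 0) / |t| + (3 + δ + |t|) / N)) := by
    refine Filter.Tendsto.add_const _ (Filter.Tendsto.div_const ?_ _)
    exact ((tendsto_rpow_neg_atTop hδ).comp tendsto_natCast_atTop_atTop).const_add 1
  rw [add_zero] at h4
  refine le_of_tendsto_of_tendsto h3 h4 ?_
  filter_upwards [Filter.eventually_ge_atTop N] with M hM
  have h5 := zt_split δ t hδ hM
  change ‖∑ n ∈ range (M + 1), 1 / (n : ℂ) ^ (1 + δ + t * Complex.I : ℂ) -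
    ∑ n ∈ Icc 1 N, zt δ t n‖ ≤ _
  rw [h5, add_sub_cancel_left]
  exact zt_bound δ t hδ ht hN hM

end Pool.Agent.MOM
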